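import Pool.Agent.MP_a9d3bd_gx.St
import Pool.Agent.MP_a9d3bd_yy.Ctr
import Pool.Agent.MP_a9d3bd_yy.Pl
import Pool.Agent.MP_a9d3bd_yy.Dv

/-! From places to points. -/

namespace Pool.Agent.MP_a9d3bd_gx

open MvPolynomial Pool.Agent.MP_a9d3bd_q
open Pool.Agent.MP_a9d3bd_h (NZ lv EtL)
open Pool.Agent.MP_a9d3bd_yy (xA xL Dvs Pl Gal Near)
open Pool.Agent.MP_a9d3bd_x (LF GF Core)

section
variable {K : Type} [Field K] [IsAlgClosed K] {A : Type} [CommRing A] [IsDedekindDomain A]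
  [Algebra K A] [Algebra (Polynomial K) A] [IsScalarTower K (Polynomial K) A]
  [Module.Finite (Polynomial K) A] [Module.IsTorsionFree (Polynomial K) A]

omit [IsAlgClosed K] [IsScalarTower K (Polynomial K) A] [Module.Finite (Polynomial K) A]
  [Module.IsTorsionFree (Polynomial K) A] in
theorem xAL_inf {u : FractionRing A} {ν : (A →ₐ[K] K) →₀ ℤ} (h : Dvs K u ν)
    (O : DV K (FractionRing A)) (hO : xL K A ∉ O.O) : O.ord u = 0 := by
  have h1 := (h.2 O.O O.const).1 hO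
  refine (O.ord_eq_zero_iff u).2 ⟨(O.O.valuation_le_one_iff _).1 h1.le,
    (O.O.valuation_le_one_iff _).1 ?_⟩
  rw [map_inv₀, h1, inv_one]

theorem xAL_ord (hA : FF K (FractionRing A) 1) {u : FractionRing A} {ν : (A →ₐ[K] K) →₀ ℤ}
    (h : Dvs K u ν) {β : A →ₐ[K] K} {O : DV K (FractionRing A)} (hO : Pl β O) :
    ν β = O.ord u := by
  have hc := MP_a9d3bd_yy.sCtr (K := K)
  obtain ⟨ν', h', -, h3, -⟩ := MP_a9d3bd_yy.sDv (MP_a9d3bd_yy.sPl hc) hc A hA u h.1 (xAL_inf h)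
  rw [← h3 β O hO]
  have h0 : RingHom.ker β ≠ ⊥ := by
    intro e
    have h1 : algebraMap (Polynomial K) A (Polynomial.X - Polynomial.C (β (xA K A))) ∈
        RingHom.ker β := by
      rw [RingHom.mem_ker, map_sub, map_sub, MP_a9d3bd_yy.sPl_C, AlgHom.commutes]
      exact sub_self _
    rw [e, Ideal.mem_bot, map_eq_zero_iff _ (FaithfulSMul.algebraMap_injective _ _)] at h1
    exact Polynomial.X_sub_C_ne_zero _ h1
  obtain ⟨π, hπ, hπ'⟩ := Ideal.exists_mem_pow_notMem_pow_succ (RingHom.ker β) h0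
    (RingHom.ker_ne_top β) 1
  rw [pow_one, RingHom.mem_ker] at hπ
  have hb : ∀ a : A, O.O.valuation (algebraMap A _ (a - algebraMap K A (β a))) < 1 := fun a => by
    rw [map_sub, ← IsScalarTower.algebraMap_apply]
    exact hO a
  have e1 := (h.2 O.O O.const).2 β hb π hπ hπ'
  have e2 := (h'.2 O.O O.const).2 β hb π hπ hπ'
  have h4 := hb π
  rw [hπ, map_zero, sub_zero] at h4
  refine zpow_right_injective₀ (zero_lt_iff.2 ((_root_.map_ne_zero _).2
    ((map_ne_zero_iff _ (IsFractionRing.injective A _)).2 ?_))) h4.ne (e1.symm.trans e2)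
  rintro rfl
  exact hπ' (zero_mem _)

end

theorem xAL {K : Type} [Field K] [IsAlgClosed K] : XAL K := by
  intro ι _ S e δ Λ hL A _ _ _ _ _ _ _ hA J _ σ u ν r h1 h2 h3
  have hc := MP_a9d3bd_yy.sCtr (K := K)
  obtain ⟨-, p2, -⟩ := MP_a9d3bd_yy.sPl hc A hA
  have inj := IsFractionRing.injective A (FractionRing A)
  have ae : ∀ j (G : MvPolynomial ι K), aeval (fun b => algebraMap A (FractionRing A) (σ j b)) G =
      algebraMap A (FractionRing A) (aeval (σ j) G) := fun j G =>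
    MvPolynomial.aeval_algebraMap_apply _ (σ j) G
  have nr : ∀ (β : A →ₐ[K] K) (O : DV K (FractionRing A)), Pl β O → ∀ j (p : ι → K),
      Nr O (fun b => algebraMap A (FractionRing A) (σ j b)) p ↔ (fun b => β (σ j b)) = p :=
    fun β O h j p => ⟨fun k => funext fun b => (hc _ hA O).2.2.1 _ _ _ (h _) (k b),
      fun k b => k ▸ h (σ j b)⟩
  have pl : ∀ j (O : DV K (FractionRing A)), O.ord (u j) ≠ 0 → ∃ β : A →ₐ[K] K, Pl β O :=
    fun j O h => p2 O (by
      by_contra k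
      exact h (xAL_inf (h1 j).2 O k))
  refine hL _ J _ u r ⟨hA, fun j => ⟨⟨fun G hG => ?_, ?_, ?_⟩, (h1 j).2.1⟩, fun j k O h => ?_,
    fun j O p h hp => ?_, fun O p => ?_⟩
  · rw [ae, (h1 j).1.1 G hG, map_zero]
  · rw [ae, (h1 j).1.2.1, map_one]
  · rw [ae]
    exact (map_ne_zero_iff _ inj).2 (h1 j).1.2.2
  · obtain ⟨β, hβ⟩ := pl j O h
    exact ⟨_, (nr β O hβ k _).2 rfl⟩
  · obtain ⟨β, hβ⟩ := pl j O h
    have h4 := h2 j β (Finsupp.mem_support_iff.2 (by rwa [xAL_ord hA (h1 j).2 hβ]))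
    rw [comp_aeval_apply, (nr β O hβ j p).1 hp] at h4
    exact h4
  · by_cases hx : xL K A ∈ O.O
    · obtain ⟨β, hβ⟩ := p2 O hx
      refine Eq.trans (Finset.sum_congr rfl fun j _ => ?_) (h3 β p)
      by_cases k : (fun b => β (σ j b)) = p
      · rw [if_pos k, if_pos ((nr β O hβ j p).2 k), xAL_ord hA (h1 j).2 hβ]
      · rw [if_neg k, if_neg fun k' => k ((nr β O hβ j p).1 k')]
    · refine Finset.sum_eq_zero fun j _ => ?_
      rw [xAL_inf (h1 j).2 O hx]
      simp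

end Pool.Agent.MP_a9d3bd_gx
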