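import Pool.Agent.MP_a9d3bd_gx.St
import Pool.Agent.MP_a9d3bd_yy.Sep

namespace Pool.Agent.MP_a9d3bd_gx

open MvPolynomial Pool.Agent.MP_a9d3bd_q IntermediateField

section
variable {K E : Type} [Field K] [Field E] [Algebra K E]

theorem xAp_add (O : DV K E) {a b : E} (ha : a ≠ 0) (h : O.ord a < O.ord b ∨ b = 0) :
    a + b ≠ 0 ∧ O.ord (a + b) = O.ord a := by
  by_cases hb : b = 0
  · rw [hb, add_zero]; exact ⟨ha, rfl⟩
  have h := h.resolve_right hb
  have h0 : a + b ≠ 0 := fun e => by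
    rw [eq_neg_of_add_eq_zero_right e, O.ord_neg] at h
    exact lt_irrefl _ h
  have h1 := O.ord_add ha hb h0
  have h2 := O.ord_add h0 (neg_ne_zero.2 hb) (by rwa [add_neg_cancel_right])
  rw [add_neg_cancel_right, O.ord_neg] at h2
  exact ⟨h0, by omega⟩

theorem xAp_ne (O : DV K E) {a : E} (h : O.ord a ≠ 0) : a ≠ 0 := fun e => h (e ▸ O.ord_zero)

theorem xAp_two {O O' : DV K E} (h : O ≠ O') : ∃ z, 0 < O.ord z ∧ O'.ord z < 0 := by
  obtain ⟨a, a1, a2⟩ := DV.exists_mem_not_mem h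
  obtain ⟨b, b1, b2⟩ := DV.exists_mem_not_mem h.symm
  rw [← DV.ord_nonneg_iff] at a1 b1
  rw [← DV.ord_neg_iff] at a2 b2
  have a0 := xAp_ne _ a2.ne
  have b0 := xAp_ne _ b2.ne
  exact ⟨a / b, by rw [O.ord_div a0 b0]; omega, by rw [O'.ord_div a0 b0]; omega⟩

theorem xAp_big (T : Finset (DV K E)) (y : E) : ∃ r : ℕ, 2 ≤ r ∧ ∀ O ∈ T, -(r : ℤ) < O.ord y := by
  refine ⟨∑ O ∈ T, (O.ord y).natAbs + 2, by omega, fun O hO => ?_⟩
  have := Finset.single_le_sum (f := fun O : DV K E => (O.ord y).natAbs)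
    (fun _ _ => Nat.zero_le _) hO
  omega

theorem xAp_one (O : DV K E) (T : Finset (DV K E)) (h : O ∉ T) :
    ∃ u, 0 < O.ord u ∧ ∀ O' ∈ T, O'.ord u < 0 := by
  classical
  induction T using Finset.induction_on with
  | empty => exact ⟨O.pi, by rw [O.ord_pi]; omega, by simp⟩
  | insert O₁ T _ ih =>
    rw [Finset.mem_insert, not_or] at h
    obtain ⟨y, y1, y2⟩ := ih h.2
    by_cases y3 : O₁.ord y < 0
    · exact ⟨y, y1, fun O' h' => (Finset.mem_insert.1 h').elim (fun e => e ▸ y3) (y2 O')⟩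
    obtain ⟨z, z1, z2⟩ := xAp_two h.1
    obtain ⟨r, r1, r2⟩ := xAp_big T y
    have y0 := xAp_ne _ y1.ne'
    have z0 := pow_ne_zero r (xAp_ne _ z1.ne')
    have r0 : (2 : ℤ) ≤ r := by exact_mod_cast r1
    have a1 := xAp_add O₁ z0 (b := y) (Or.inl (by rw [DV.ord_pow]; nlinarith))
    refine ⟨z ^ r + y, ?_, fun O' h' => ?_⟩
    · have := O.ord_add z0 y0 a1.1
      rw [DV.ord_pow] at this
      exact (lt_min (by positivity) y1).trans_le this
    · rcases Finset.mem_insert.1 h' with rfl | h'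
      · rw [a1.2, DV.ord_pow]; nlinarith
      have b1 := y2 O' h'
      have b2 := r2 O' h'
      by_cases b3 : O'.ord z < 0
      · rw [(xAp_add O' z0 (b := y) (Or.inl (by rw [DV.ord_pow]; nlinarith))).2, DV.ord_pow]
        nlinarith
      · rw [add_comm, (xAp_add O' y0 (b := z ^ r)
          (Or.inl (by rw [DV.ord_pow]; nlinarith))).2]
        exact b1

theorem xAp_uni (O : DV K E) (T : Finset (DV K E)) :
    ∃ y, O.ord y = 1 ∧ ∀ O' ∈ T, O' ≠ O → O'.ord y = 0 := by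
  classical
  obtain ⟨u, u1, u2⟩ := xAp_one O (T.erase O) (Finset.notMem_erase _ _)
  obtain ⟨r, r1, r2⟩ := xAp_big T O.pi
  have r0 : (2 : ℤ) ≤ r := by exact_mod_cast r1
  have u0 := pow_ne_zero r (xAp_ne _ u1.ne')
  have a1 := xAp_add O O.pi_ne (b := u ^ r) (Or.inl (by rw [DV.ord_pow, O.ord_pi]; nlinarith))
  have a2 := xAp_add O one_ne_zero (b := u ^ r)
    (Or.inl (by rw [DV.ord_pow, O.ord_one]; nlinarith))
  refine ⟨(O.pi + u ^ r) / (1 + u ^ r), by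
    rw [O.ord_div a1.1 a2.1, a1.2, a2.2, O.ord_pi, O.ord_one, sub_zero], fun O' h1 h2 => ?_⟩
  have b1 := u2 O' (Finset.mem_erase.2 ⟨h2, h1⟩)
  have b2 := r2 O' h1
  rw [O'.ord_div a1.1 a2.1, add_comm O.pi, add_comm 1,
    (xAp_add O' u0 (b := O.pi) (Or.inl (by rw [DV.ord_pow]; nlinarith))).2,
    (xAp_add O' u0 (b := 1) (Or.inl (by rw [DV.ord_pow, O'.ord_one]; nlinarith))).2, sub_self]

theorem xAp_app (T : Finset (DV K E)) (n : DV K E → ℤ) :
    ∃ x, x ≠ 0 ∧ ∀ O ∈ T, O.ord x = n O := by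
  choose y y1 y2 using fun O => xAp_uni O T
  have y0 : ∀ O, y O ^ n O ≠ 0 := fun O => zpow_ne_zero _ (xAp_ne O (by rw [y1]; omega))
  refine ⟨∏ O ∈ T, y O ^ n O, Finset.prod_ne_zero_iff.2 fun O _ => y0 O, fun O hO => ?_⟩
  rw [O.ord_prod _ _ fun O _ => y0 O, Finset.sum_eq_single_of_mem O hO, DV.ord_zpow, y1, mul_one]
  intro O' _ hne
  rw [DV.ord_zpow, y2 O' O hO hne.symm, mul_zero]

theorem xAp_sep {x z : E} (h1 : Algebra.IsSeparable K⟮z⟯ E) (h2 : IsSeparable K⟮x⟯ z) :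
    Algebra.IsSeparable K⟮x⟯ E := by
  have hle : K⟮z⟯ ≤ (separableClosure K⟮x⟯ E).restrictScalars K :=
    adjoin_simple_le_iff.2 (mem_separableClosure_iff.2 h2)
  refine ⟨fun a => IsSeparable.of_algebra_isSeparable_of_isSeparable
    (E := separableClosure K⟮x⟯ E) K⟮x⟯ ?_⟩
  let _ : Algebra K⟮z⟯ (separableClosure K⟮x⟯ E) :=
    (IntermediateField.inclusion hle).toRingHom.toAlgebra
  have : IsScalarTower K⟮z⟯ (separableClosure K⟮x⟯ E) E :=
    IsScalarTower.of_algebraMap_eq fun _ => rfl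
  exact IsSeparable.tower_top _ (Algebra.IsSeparable.isSeparable K⟮z⟯ a)

theorem xAp_pert [IsAlgClosed K] (hE : FF K E 1) (T : Finset (DV K E)) {ξ z : E} (h0 : ξ ≠ 0)
    (h1 : Transcendental K z) (h2 : Algebra.IsSeparable K⟮z⟯ E)
    (h3 : ∀ O ∈ T, O.ord ξ < O.ord z) : ∃ x, Transcendental K x ∧
      Algebra.IsSeparable K⟮x⟯ E ∧ ∀ O ∈ T, O.ord x = O.ord ξ := by
  obtain ⟨s, hs⟩ := ((MP_a9d3bd_yy.sSep E hE ξ z fun h => h1 h.2).insert 0).exists_notMem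
  rw [Set.mem_insert_iff, not_or, Set.mem_ofPred_eq, not_not] at hs
  refine ⟨_, hs.2.1, xAp_sep h2 hs.2.2, fun O hO => (xAp_add O h0 (Or.inl ?_)).2⟩
  have z0 : z ≠ 0 := fun e => h1 (by rw [e]; exact isAlgebraic_zero)
  rw [O.ord_mul ((_root_.map_ne_zero _).2 hs.1) z0, O.ord_algebraMap, zero_add]
  exact h3 O hO

end

theorem xAp {K : Type} [Field K] [IsAlgClosed K] : XAp K := by
  classical
  intro E _ _ hE S₀ S₁ h0 h1 hd
  have := hE.ess
  obtain ⟨s, s1, s2⟩ := exists_isTranscendenceBasis_and_isSeparable_of_perfectField K E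
  have s3 := s1.cardinalMk_eq_trdeg
  rw [hE.tr, Cardinal.mk_coe_finset, Nat.cast_inj, Finset.card_eq_one] at s3
  obtain ⟨z, rfl⟩ := s3
  rw [Finset.coe_singleton] at s2
  have z1 : Transcendental K z := s1.1.transcendental ⟨z, Finset.mem_singleton_self z⟩
  obtain ⟨T, hT⟩ := (h0.union h1).exists_finset_coe
  obtain ⟨a, a0, a1⟩ := xAp_app T fun O => min (O.ord z - 1) (-2)
  obtain ⟨η, e1, e2, e3⟩ := xAp_pert hE T a0 z1 s2 fun O hO => by rw [a1 O hO]; omega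
  obtain ⟨b, b0, b1⟩ := xAp_app T fun O => if O ∈ S₀ then 1 else -1
  have e4 : Algebra.IsSeparable K⟮η⁻¹⟯ E := xAp_sep e2 (by
    have := isSeparable_algebraMap (F := K⟮η⁻¹⟯) (K := E) (AdjoinSimple.gen K η⁻¹)⁻¹
    rwa [map_inv₀, AdjoinSimple.algebraMap_gen, inv_inv] at this)
  obtain ⟨x, x1, x2, x3⟩ := xAp_pert hE T b0 (fun h => e1 (IsAlgebraic.inv_iff.1 h)) e4
    fun O hO => by
      rw [b1 O hO, O.ord_inv, e3 O hO, a1 O hO]
      split_ifs <;> omega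
  refine ⟨x, x1, x2, fun O hO => ?_, fun O hO => ?_⟩
  · have m : O ∈ T := by rw [← Finset.mem_coe, hT]; exact Or.inl hO
    rw [x3 O m, b1 O m, if_pos hO]
  · have m : O ∈ T := by rw [← Finset.mem_coe, hT]; exact Or.inr hO
    rw [← DV.ord_neg_iff, x3 O m, b1 O m, if_neg fun h => Set.disjoint_left.1 hd h hO]
    omega

end Pool.Agent.MP_a9d3bd_gx
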