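import Pool.Agent.MP_a9d3bd_gx.St
import Pool.Agent.MP_a9d3bd_x.Red
import Pool.Agent.Mg.F53d700.G4842ae

/-! Assembly. -/

namespace Pool.Agent.MP_a9d3bd_gx

open MvPolynomial Sum Pool.Agent.MP_a9d3bd_q Pool.Agent.MP_a9d3bd_h Pool.Agent.MP_a9d3bd_v
open Pool.Agent.MP_a9d3bd_x (LF GF Core StT0 StMT StPT StCL red_K eR R1)

theorem asm_irr {K : Type} [Field K] (h2 : XPF K) (h3 : XMB K) (h4 : XBA K) (h5 : XAL K)
    (h6 : XLW K) (h7 : XWS K) (h8 : XST K) (h9 : XHM K)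
    (halg : ∀ c : K, c ≠ 0 → ∃ n, 0 < n ∧ c ^ n = 1) {ι : Type} [Fintype ι] [DecidableEq ι]
    {S : Set (MvPolynomial ι K)} {d : ℕ} (hd : 2 ≤ d) (hS : MP_a9d3bd_h.Sm S d)
    (hp : (Ideal.span S).radical.IsPrime) {Λ : LF K ι} (hΛ : GF S Λ)
    (hT : MP_a9d3bd_y.CoreT' S Λ) : CoreP S Λ := by
  refine h2 ι S Λ hS.hom hΛ fun T a1 a2 a3 => ?_
  obtain ⟨l, a, H, Y, hM, hT'⟩ := h9 ι S d hS hp T a1 a2 a3
  have he : (MP_a9d3bd_h.lin l 0).IsHomogeneous 1 :=
    IsHomogeneous.sum _ _ _ fun b _ => (isHomogeneous_X K b).C_mul _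
  refine ⟨MP_a9d3bd_h.lin l 0, aeval (qq a l) (pderiv none H), he, h3 _ _ _ _ _ hΛ
    (h4 _ _ _ _ _ hΛ (h5 _ _ _ _ _ (h6 _ _ _ _ _ hΛ (h7 halg _ _ _ _ _ he hΛ
      (h8 ι S d l a H Y Λ hd hM hΛ hT))))), fun p hp => ?_⟩
  have e : eval p (MP_a9d3bd_h.lin l 0) = lv l p 0 := by
    simp [MP_a9d3bd_h.lin, lv]
  rw [e]
  exact hT' p hp

theorem asm_fix (k : Type) [Field k] [Finite k] (p : ℕ) [Fact p.Prime] [CharP k p]
    (a : AlgebraicClosure k) : ∃ n, 0 < n ∧ a ^ p ^ n = a := by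
  have : CharP (AlgebraicClosure k) p := charP_of_injective_algebraMap (algebraMap k _).injective p
  have : FiniteDimensional k (IntermediateField.adjoin k {a}) :=
    IntermediateField.adjoin.finiteDimensional (Algebra.IsIntegral.isIntegral a)
  have : Finite (IntermediateField.adjoin k {a}) := Module.finite_of_finite k
  let _ := Fintype.ofFinite (IntermediateField.adjoin k {a})
  have : CharP (IntermediateField.adjoin k {a}) p :=
    charP_of_injective_algebraMap (algebraMap k _).injective p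
  obtain ⟨n, -, hn⟩ := FiniteField.card (IntermediateField.adjoin k {a}) p
  have := FiniteField.pow_card (⟨a, IntermediateField.mem_adjoin_simple_self k a⟩ :
    IntermediateField.adjoin k {a})
  rw [hn] at this
  exact ⟨n, n.2, by simpa using congrArg Subtype.val this⟩

theorem asm_red (hT : StT0) (hM : StMT) (hP : StPT) (hC : StCL) (k ι : Type) [Field k] [Finite k]
    [Fintype ι] [DecidableEq ι] (S : Set (MvPolynomial ι k)) (d : ℕ) (hS : MP_a9d3bd_h.Sm S d)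
    (hK : ∀ (p : ℕ) [Fact p.Prime] [CharP (AlgebraicClosure k) p],
      (∀ a : AlgebraicClosure k, ∃ n, 0 < n ∧ a ^ p ^ n = a) →
      MP_a9d3bd_h.Sm (upS (AlgebraicClosure k) S) d → Core (upS (AlgebraicClosure k) S)) :
    ∀ z ∈ Ch S (Fin 1) 1, Cl inr z → z ∈ Bd S (Fin 1) 1 := by
  intro z hz hc
  obtain ⟨φ, hφ⟩ := cyc_frob k
  obtain ⟨p, hp⟩ := CharP.exists k
  have : Fact p.Prime := ⟨CharP.char_is_prime k p⟩
  have : CharP (AlgebraicClosure k) p := charP_of_injective_algebraMap (algebraMap k _).injective p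
  have h0 := sm_up hφ hS
  have hcore := hK p (asm_fix k p) h0
  refine (bd_bc hφ).1 ?_
  have ha := (adm_bc hφ).2 (mem_Ch'.1 hz)
  have hb := (clI_bc hφ).2 ((cl_iff _ _).1 hc)
  have := red_K hT hM hP hC h0.hom hcore (adm_prm eR ha) (fun r ε hε => by
    rw [dv_prm, hb _ ε hε, map_zero])
  simpa only [prm_symm] using bd_prm eR.symm this

end Pool.Agent.MP_a9d3bd_gx
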