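import Pool.Agent.MP_a9d3bd_gx.St
import Pool.Agent.MP_a9d3bd_yy.BA
import Pool.Agent.MP_a9d3bd_yy.Conj

/-! Averaging over the Galois group. -/

namespace Pool.Agent.MP_a9d3bd_gx

open MvPolynomial Pool.Agent.MP_a9d3bd_q
open Pool.Agent.MP_a9d3bd_h (NZ lv EtL)
open Pool.Agent.MP_a9d3bd_yy (xA xL Dvs Pl Gal Near)
open Pool.Agent.MP_a9d3bd_x (LF GF Core)
open Pool.Agent.MP_a9d3bd_y (oe ev Bnd It Ur)

theorem xBA {K : Type} [Field K] [IsAlgClosed K] : XBA K := by
  classical
  intro ι _ S e0 δ Λ hΛ hA A _ _ _ _ _ _ _ hG hF J _ σ u ν r a1 a2 a3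
  obtain ⟨b1, b2, b3⟩ := MP_a9d3bd_yy.sConj (K := K) A hG
  choose G e c1 c2 c3 using b3
  have := hG.fin
  let _ := Fintype.ofFinite (A ≃ₐ[Polynomial K] A)
  have gx : ∀ g : A ≃ₐ[Polynomial K] A, g (xA K A) = xA K A := fun g => g.commutes Polynomial.X
  have ex : ∀ g β, e g β (xA K A) = β (xA K A) := fun g β => by rw [c2, gx]
  have ga : ∀ (g : A ≃ₐ[Polynomial K] A) (j : J) (Q : MvPolynomial ι K),
      aeval (fun b => g (σ j b)) Q = g (aeval (σ j) Q) := fun g j Q =>
    (comp_aeval_apply (σ j) (g.toAlgHom.restrictScalars K) Q).symm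
  have key := hA A hF (J × (A ≃ₐ[Polynomial K] A)) (fun p b => p.2 (σ p.1 b))
    (fun p => G p.2 (u p.1)) (fun p => Finsupp.equivMapDomain (e p.2).symm (ν p.1))
    (fun p => r p.1)
    (fun p => ⟨⟨fun Q hQ => by rw [ga, (a1 p.1).1.1 Q hQ, map_zero],
      by rw [ga, (a1 p.1).1.2.1, map_one],
      by rw [ga]; exact (map_ne_zero_iff _ p.2.injective).2 (a1 p.1).1.2.2⟩,
      c3 _ _ _ (a1 p.1).2⟩)
    (fun p β hβ => by
      have := (a2 p.1 (e p.2 β) (by simpa using hβ)).2
      rw [c2] at this
      rw [ga]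
      exact this)
    (fun β p => by
      have h := MP_a9d3bd_yy.sBA_avg e (b2 (β (xA K A))).toFinset
        (fun b => ∑ j, if (fun a => b (σ j a)) = p then r j * (ν j b : ℚ) else 0) β (by simp)
        (fun g b => by simp [ex])
        (fun b hb => by
          obtain ⟨h, hh⟩ := b1 β b (by simpa [eq_comm] using hb)
          exact ⟨h, fun g => AlgHom.ext fun a => by rw [c2, c2, hh]; rfl⟩)
        (by
          by_cases h0 : β (xA K A) = 0
          · rw [Finset.sum_comm]
            refine Eq.trans (Finset.sum_congr rfl fun j _ => ?_) (a3 p)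
            rw [Finsupp.sum, Finset.mul_sum]
            refine Finset.sum_congr_of_eq_on_inter (fun b _ hb => ?_) (fun b hb' hb => ?_)
              fun b hb _ => ?_
            · simp [Finsupp.notMem_support_iff.1 hb]
            · exact (hb (by simpa [h0] using (a2 j b hb').1)).elim
            · simp
          · refine Finset.sum_eq_zero fun b hb => Finset.sum_eq_zero fun j _ => ?_
            have hb' : b (xA K A) = β (xA K A) := by simpa using hb
            have hν : ν j b = 0 := by
              by_contra hn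
              exact h0 (hb'.symm.trans (a2 j b (Finsupp.mem_support_iff.2 hn)).1)
            simp [hν])
      rw [Fintype.sum_prod_type_right]
      refine Eq.trans (Finset.sum_congr rfl fun g _ => Finset.sum_congr rfl fun j _ => ?_) h
      simp [c2])
  have e1 : ∀ (g : A ≃ₐ[Polynomial K] A) (j : J), Λ (FractionRing A)
      (fun b => algebraMap A _ (g (σ j b))) (G g (u j)) =
      Λ (FractionRing A) (fun b => algebraMap A _ (σ j b)) (u j) := by
    intro g j
    have := hΛ.ext _ _ hF hF (G g).toAlgHom (fun b => algebraMap A _ (σ j b)) (u j)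
    rw [hdeg_eq_one (AlgHom.fieldRange_eq_top.2 (G g).surjective)] at this
    simp only [Nat.cast_one, one_mul] at this
    rw [← this]
    congr 1
    funext b
    exact (c1 g _).symm
  rw [Fintype.sum_prod_type_right] at key
  simp only [e1] at key
  rw [Finset.sum_const, nsmul_eq_mul] at key
  refine (mul_eq_zero.1 key).resolve_left ?_
  exact_mod_cast Finset.card_ne_zero_of_mem (Finset.mem_univ (1 : A ≃ₐ[Polynomial K] A))

end Pool.Agent.MP_a9d3bd_gx
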