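import Pool.Agent.MP_a9d3bd_gx.St
import Pool.Agent.MP_a9d3bd_y.TLe
import Pool.Agent.MP_a9d3bd_y.Bval
import Pool.Agent.MP_a9d3bd_y.Bnd

/-! Finiteness of the projection. -/

namespace Pool.Agent.MP_a9d3bd_gx

open MvPolynomial Pool.Agent.MP_a9d3bd_q
open Pool.Agent.MP_a9d3bd_h (NZ lv EtL)
open Pool.Agent.MP_a9d3bd_yy (xA xL Dvs Pl Gal Near)
open Pool.Agent.MP_a9d3bd_x (LF GF Core)
open Pool.Agent.MP_a9d3bd_y (oe ev Bnd It Ur Le Der)

section
variable {K ι : Type} [Field K] [Fintype ι]

theorem xBd_hom {E : Type} [CommRing E] [Algebra K E] {G : MvPolynomial ι K} {n : ℕ}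
    (hG : G.IsHomogeneous n) (c : E) (x : ι → E) :
    aeval (fun b => c * x b) G = c ^ n * aeval x G := by
  rw [aeval_def, aeval_def, eval₂_eq', eval₂_eq', Finset.mul_sum]
  refine Finset.sum_congr rfl fun s hs => ?_
  have h1 : ∑ b, s b = n := by
    rw [← hG (mem_support_iff.1 hs), ← Finsupp.degree_eq_sum, Finsupp.degree_eq_weight_one]
    rfl
  simp only [mul_pow, Finset.prod_mul_distrib, Finset.prod_pow_eq_pow_sum, h1]
  ring

omit [Fintype ι] in
theorem xBd_map {B E : Type} [CommRing B] [Algebra K B] [CommRing E] [Algebra K E]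
    (ψ : B →ₐ[K] E) (y : ι → B) (G : MvPolynomial ι K) :
    aeval (fun b => ψ (y b)) G = ψ (aeval y G) := by
  rw [← MvPolynomial.comp_aeval]
  rfl

theorem xBd_le {d : ℕ} {S : Set (MvPolynomial ι K)} {l : Fin (d + 1) × ι → K} (hS : Homog S)
    (hl : NZ S l) {B : Type} [CommRing B] [Algebra K B] {y : ι → B}
    (h0 : ∀ G ∈ S, aeval y G = 0) (h1 : aeval y (MP_a9d3bd_h.lin l 0) = 1) {θ : B}
    (hθ : θ ∈ Submodule.span K (Set.range y)) :
    Le K (fun i : Fin d => aeval y (MP_a9d3bd_h.lin l i.succ)) θ 1 := by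
  intro Ω _ φ V hk g hg hz
  rw [pow_one]
  have key : ∀ b, V.valuation (φ (y b)) ≤ g := by
    intro b
    have : Nonempty ι := ⟨b⟩
    obtain ⟨b₀, hb⟩ := Finite.exists_max fun b => V.valuation (φ (y b))
    refine (hb b).trans (not_lt.1 fun hlt => ?_)
    have hpos : 0 < V.valuation (φ (y b₀)) := (zero_lt_one.trans_le hg).trans hlt
    have hne : φ (y b₀) ≠ 0 := (map_ne_zero V.valuation).1 hpos.ne'
    let _ : Algebra K Ω := (φ.comp (algebraMap K B)).toAlgebra
    let ψ : B →ₐ[K] Ω := { φ with commutes' := fun _ => rfl }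
    let _ : Algebra K V := ((φ.comp (algebraMap K B)).codRestrict V hk).toAlgebra
    let j : V →ₐ[K] Ω := { V.subtype with commutes' := fun _ => rfl }
    let ρ : V →ₐ[K] IsLocalRing.ResidueField V :=
      { IsLocalRing.residue V with commutes' := fun _ => rfl }
    have hx : ∀ b, (φ (y b₀))⁻¹ * φ (y b) ∈ V := fun b => by
      rw [← V.valuation_le_one_iff, map_mul, map_inv₀]
      exact (inv_mul_le_one₀ hpos).2 (hb b)
    let x : ι → V := fun b => ⟨_, hx b⟩
    have hj : ∀ (G : MvPolynomial ι K) (n : ℕ), G.IsHomogeneous n →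
        ((aeval x G : V) : Ω) = (φ (y b₀))⁻¹ ^ n * φ (aeval y G) := fun G n hG =>
      (xBd_map j x G).symm.trans ((xBd_hom hG _ fun b => ψ (y b)).trans (by rw [xBd_map]; rfl))
    have h2 := hl _ (fun b => ρ (x b)) (fun G hG => ?_) (funext fun i => ?_)
    · have h3 : ρ (x b₀) = 0 := congrFun h2 b₀
      rw [show x b₀ = 1 from Subtype.ext (inv_mul_cancel₀ hne), map_one] at h3
      exact one_ne_zero h3
    · obtain ⟨n, hn⟩ := hS G hG
      have h3 := hj G n hn
      rw [h0 G hG, map_zero, mul_zero] at h3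
      rw [xBd_map, show aeval x G = 0 from Subtype.ext h3, map_zero]
    · rw [← MP_a9d3bd_h.aeval_lin, xBd_map]
      refine (IsLocalRing.residue_eq_zero_iff _).2 ((V.valuation_lt_one_iff _).2 ?_)
      have h3 : (MP_a9d3bd_h.lin l i).IsHomogeneous 1 :=
        IsHomogeneous.sum _ _ _ fun b _ => (isHomogeneous_X K b).C_mul _
      rw [hj _ 1 h3, pow_one, map_mul, map_inv₀]
      refine (inv_mul_lt_one₀ hpos).2 (lt_of_le_of_lt ?_ hlt)
      refine Fin.cases ?_ (fun i => hz i) i
      rw [h1, map_one, map_one]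
      exact hg
  induction hθ using Submodule.span_induction with
  | mem z hz =>
    obtain ⟨b, rfl⟩ := hz
    exact key b
  | zero => simp
  | add z z' _ _ h h' =>
    rw [map_add]
    exact V.valuation.map_add_le h h'
  | smul a z _ h =>
    rw [Algebra.smul_def, map_mul, map_mul]
    exact (mul_le_of_le_one_left' ((V.valuation_le_one_iff _).2 (hk a))).trans h

theorem xBd_der [DecidableEq ι] {B : Type} [CommRing B] [Algebra K B] {ξ : B →ₐ[K] K}
    {δ : B →ₗ[K] K} (h : Der ξ δ) (y : ι → B) (G : MvPolynomial ι K) :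
    δ (aeval y G) = ∑ b, ξ (aeval y (pderiv b G)) * δ (y b) := by
  induction G using MvPolynomial.induction_on with
  | C a => simp [h.const]
  | add p q hp hq => simp only [map_add, hp, hq, add_mul, Finset.sum_add_distrib]
  | mul_X p k hp =>
    rw [map_mul, aeval_X, h, hp, Finset.mul_sum]
    simp only [Derivation.leibniz, pderiv_X, smul_eq_mul, map_add, map_mul, aeval_X, add_mul,
      Finset.sum_add_distrib, mul_assoc]
    congr 1
    rw [Finset.sum_eq_single k (fun b _ hb => by simp [hb.symm]) (by simp)]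
    simp

end

theorem xBd {K : Type} [Field K] [IsAlgClosed K] : XBd K := by
  intro ι _ _ S d l hS hl B _ _ _ y hy h0 h1
  have hb : ∀ θ ∈ Submodule.span K (Set.range y),
      Bnd K (fun i : Fin d => aeval y (MP_a9d3bd_h.lin l i.succ)) θ := fun θ hθ =>
    (MP_a9d3bd_y.tLe K (MP_a9d3bd_y.sBnd K) B _ _ θ).2 inferInstance (xBd_le hS hl h0 h1 hθ)
  refine ⟨fun b => ?_, hb, fun ξ hξ δ hδ hz => ?_⟩
  · obtain ⟨G, rfl⟩ := hy b
    induction G using MvPolynomial.induction_on with
    | C a =>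
      rw [aeval_C, IsScalarTower.algebraMap_apply K (Algebra.adjoin K
        (Set.range fun i : Fin d => aeval y (MP_a9d3bd_h.lin l i.succ))) B]
      exact isIntegral_algebraMap
    | add p q hp hq =>
      rw [map_add]
      exact hp.add hq
    | mul_X p k hp =>
      rw [map_mul, aeval_X]
      exact hp.mul (MP_a9d3bd_y.sBval K B _ _ _ (hb _ (Submodule.subset_span ⟨k, rfl⟩))).1
  · obtain ⟨G, hG, hdet⟩ := hξ
    have h2 : (Matrix.of fun c b => ξ (aeval y (pderiv b (G c)))).det ≠ 0 := by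
      intro e
      refine hdet ?_
      change aeval (fun b => ξ (y b)) _ = (0 : K)
      rw [AlgHom.map_det, ← e]
      congr 1
      ext c b
      exact xBd_map ξ y _
    have h3 : (fun b => δ (y b)) = 0 := by
      refine Matrix.eq_zero_of_mulVec_eq_zero h2 (funext fun c => ?_)
      refine (xBd_der hδ y (G c)).symm.trans ?_
      rcases hG c with h | ⟨i, h⟩
      · have h4 : Ideal.span S ≤ RingHom.ker (aeval y : MvPolynomial ι K →ₐ[K] B) :=
          Ideal.span_le.2 h0
        rw [show aeval y (G c) = 0 from h4 h, map_zero]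
        rfl
      · rw [h]
        refine Fin.cases ?_ (fun i => hz i) i
        rw [h1]
        exact hδ.one
    ext b
    obtain ⟨F, rfl⟩ := hy b
    rw [xBd_der hδ]
    exact Finset.sum_eq_zero fun b _ => by rw [congrFun h3 b, Pi.zero_apply, mul_zero]

end Pool.Agent.MP_a9d3bd_gx
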