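import Pool.Agent.MP_a9d3bd_y.UOne
import Pool.Agent.MP_a9d3bd_y.UCho
import Pool.Agent.MP_a9d3bd_y.UBas
import Pool.Agent.MP_a9d3bd_y.ULeb
import Pool.Agent.MP_a9d3bd_y.UDer
import Pool.Agent.MP_a9d3bd_y.URf_h9
import Pool.Agent.MP_a9d3bd_y.UInd
import Pool.Agent.MP_a9d3bd_y.USp
import Pool.Agent.MP_a9d3bd_y.THh
import Pool.Agent.MP_a9d3bd_y.TGj
import Pool.Agent.MP_a9d3bd_y.TFf
import Pool.Agent.MP_a9d3bd_y.THi
import Pool.Agent.MP_a9d3bd_y.Uni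
import Pool.Agent.MP_a9d3bd_y.Pos
import Pool.Agent.MP_a9d3bd_y.Dvc
import Pool.Agent.MP_a9d3bd_y.TCmp
import Pool.Agent.MP_a9d3bd_y.TSel
import Pool.Agent.MP_a9d3bd_y.TFin
import Pool.Agent.MP_a9d3bd_y.TLe
import Pool.Agent.MP_a9d3bd_y.TSim
import Pool.Agent.MP_a9d3bd_y.TGp
import Pool.Agent.MP_a9d3bd_y.Two
import Pool.Agent.MP_a9d3bd_y.Min
import Pool.Agent.MP_a9d3bd_y.Cond
import Pool.Agent.MP_a9d3bd_y.Bnd
import Pool.Agent.MP_a9d3bd_y.Bval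
import Pool.Agent.MP_a9d3bd_y.Fib
import Pool.Agent.MP_a9d3bd_y.Eta
import Pool.Agent.MP_a9d3bd_yy.Ctr
import Pool.Agent.MP_a9d3bd_yy.Pl
import Pool.Agent.MP_a9d3bd_yy.Dv
import Pool.Agent.MP_a9d3bd_g.CCore

/-! The statement for sections of a surface. -/

namespace Pool.Agent.MP_a9d3bd_gx

open MvPolynomial Pool.Agent.MP_a9d3bd_q Pool.Agent.MP_a9d3bd_y
open Pool.Agent.MP_a9d3bd_x (LF GF)
open Pool.Agent.MP_a9d3bd_yy (sCtr sPl sDv)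

theorem cu_root {K : Type} [Field K] {p : ℕ} (hp : p.Prime)
    (halg : ∀ c : K, ∃ n, 0 < n ∧ c ^ p ^ n = c) (c : K) (hc : c ≠ 0) :
    ∃ n, 0 < n ∧ c ^ n = 1 := by
  obtain ⟨n, h1, h2⟩ := halg c
  have h3 : 1 < p ^ n := Nat.one_lt_pow h1.ne' hp.one_lt
  refine ⟨p ^ n - 1, by omega, mul_right_cancel₀ hc ?_⟩
  rw [← pow_succ, Nat.sub_add_cancel h3.le, h2, one_mul]

theorem coreU {K ι : Type} [Field K] [IsAlgClosed K] [Finite ι] (p : ℕ) [Fact p.Prime] [CharP K p]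
    (halg : ∀ c : K, ∃ n, 0 < n ∧ c ^ p ^ n = c) {S : Set (MvPolynomial ι K)} (hS : Homog S)
    {Λ : LF K ι} (hΛ : GF S Λ) : CoreT' S Λ :=
  uAll S Λ (tCmp K) (uOne p (cu_root Fact.out halg)
    (uCho K (tSel K) (sBval K) (tFin K) (sFib K) (sEta K) (uAv K) (uBas K) (uLeb K) (uDer K)
      (tLe K (sBnd K)) (uRf K (sFib K)) (uInd K) (uSp K))
    (tHh K (tLe K (sBnd K)) (sTwo K) (sMin K) (tSim K) (sCon K))
    (tGj K (tLe K (sBnd K)) (sMin K) (tSim K) (sCon K) (tGp K)) (tFf K) (tHi K) (sUni K) (sPos K)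
    (sDvc K (sPl sCtr) (sDv (sPl sCtr) sCtr) sCtr)
    (fun _ _ _ h hl _ _ Z F G g n hP hz => MP_a9d3bd_g.core p halg h hl Z F G g n hP hz) hS hΛ)

end Pool.Agent.MP_a9d3bd_gx
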