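import Pool.Agent.MP_a9d3bd_gx.St

namespace Pool.Agent.MP_a9d3bd_gx

open MvPolynomial Pool.Agent.MP_a9d3bd_q
open Pool.Agent.MP_a9d3bd_h (NZ lv EtL)
open Pool.Agent.MP_a9d3bd_yy (xA xL Dvs Pl Gal Near)
open Pool.Agent.MP_a9d3bd_x (LF GF Core)
open Pool.Agent.MP_a9d3bd_y (oe ev Bnd It Ur)

theorem xCl_near {K E : Type} [Field K] [Field E] [Algebra K E] (O : DV K E) (z : E) (a : K) :
    Near O.O z a ↔ z ∈ O.O ∧ O.res z = algebraMap K O.K a := by
  unfold Near
  rw [← ValuationSubring.mem_nonunits_iff]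
  have key : z ∈ O.O →
      (z - algebraMap K E a ∈ O.O.nonunits ↔ O.res z = algebraMap K O.K a) := fun hz => by
    rw [← O.res_eq_zero_iff' (sub_mem hz (O.const a)), O.res_sub hz (O.const a),
      O.res_algebraMap, sub_eq_zero]
  refine ⟨fun h => ?_, fun h => (key h.1).2 h.2⟩
  have hz : z ∈ O.O := by
    have := add_mem (ValuationSubring.nonunits_subset h) (O.const a)
    rwa [sub_add_cancel] at this
  exact ⟨hz, (key hz).1 h⟩

theorem xCl_ctr {K E ι : Type} [Field K] [Field E] [Algebra K E] [Fintype ι] (O : DV K E)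
    {y : ι → E} (hy : y ≠ 0) (p : ι → K) :
    (∃ c : O.K, ∀ i, c * O.red y i = algebraMap K O.K (p i)) ↔ Ct O y p := by
  change _ ↔ ∃ c : E, ∀ i, Near O.O (c * y i) (p i)
  constructor
  · rintro ⟨c, hc⟩
    obtain ⟨f, hf, rfl⟩ := O.res_surj c
    refine ⟨f * O.pi ^ (-O.mu y), fun i => ?_⟩
    rw [xCl_near, mul_assoc, mul_comm _ (y i), O.res_mul hf (O.norm_mem y i), ← O.red_def]
    exact ⟨mul_mem hf (O.norm_mem y i), hc i⟩
  · rintro ⟨c, hc⟩
    have e : ∀ i, c * y i = c * O.pi ^ O.mu y * (y i * O.pi ^ (-O.mu y)) := fun i => by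
      rw [zpow_neg]
      have := zpow_ne_zero (O.mu y) O.pi_ne
      field_simp
    have hf : c * O.pi ^ O.mu y ∈ O.O := by
      obtain ⟨i, hi⟩ := Function.ne_iff.1 (O.red_ne hy)
      rw [O.red_def] at hi
      obtain ⟨h1, h2⟩ := (O.res_ne_zero_iff _).1 hi
      have h3 := mul_mem ((xCl_near O _ _).1 (hc i)).1 ((O.ord_eq_zero_iff _).1 h2).2
      rwa [e i, mul_inv_cancel_right₀ h1] at h3
    refine ⟨O.res (c * O.pi ^ O.mu y), fun i => ?_⟩
    rw [O.red_def, ← O.res_mul hf (O.norm_mem y i), ← e i]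
    exact ((xCl_near O _ _).1 (hc i)).2

open Classical in
theorem xCl_pre {K ι : Type} [Field K] [IsAlgClosed K] (p : ι → K) :
    IsPre 0 (fun E _ _ y => if ∃ c : E, ∀ i, c * y i = algebraMap K E (p i) then 1 else 0 :
      Raw K ι) := by
  refine ⟨?_, ?_, ?_⟩
  · intro E L _ _ _ _ _ hL ψ y
    have := ff_zero_iff.1 hL
    have hs : Function.Surjective ψ := fun z => by
      obtain ⟨a, rfl⟩ := (IsAlgClosed.algebraMap_bijective_of_isIntegral (k := K) (K := L)).2 z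
      exact ⟨algebraMap K E a, ψ.commutes a⟩
    rw [hdeg_eq_one (AlgHom.fieldRange_eq_top.2 hs), Nat.cast_one, one_mul]
    refine if_congr ⟨?_, ?_⟩ rfl rfl
    · rintro ⟨c, hc⟩
      obtain ⟨c, rfl⟩ := hs c
      exact ⟨c, fun i => ψ.injective
        (((map_mul ψ c (y i)).trans (hc i)).trans (ψ.commutes (p i)).symm)⟩
    · rintro ⟨c, hc⟩
      exact ⟨ψ c, fun i => by rw [← map_mul, hc i, ψ.commutes]⟩
  · intro E _ _ _ c y hc
    refine if_congr ⟨?_, ?_⟩ rfl rfl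
    · rintro ⟨d, hd⟩
      exact ⟨d * c, fun i => by rw [mul_assoc]; exact hd i⟩
    · rintro ⟨d, hd⟩
      refine ⟨d * c⁻¹, fun i => ?_⟩
      rw [Pi.smul_apply, smul_eq_mul, mul_assoc, inv_mul_cancel_left₀ hc]
      exact hd i
  · intro E _ _ hE y hy
    have := ff_zero_iff.1 hE
    exact absurd (Algebra.IsAlgebraic.tower_top (K := K) (kf K y)) hy

theorem xCl {K : Type} [Field K] [IsAlgClosed K] : XCl K := by
  classical
  intro ι _ S h Λ hL J _ E _ _ y u n hf hc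
  refine h Λ hL J E y u n hf fun p _ => ?_
  refine Eq.trans ?_ (hc _ (xCl_pre p))
  refine Finset.sum_congr rfl fun j _ => congrArg _ (finsum_congr fun O => ?_)
  rw [mul_ite, mul_one, mul_zero]
  exact if_congr (xCl_ctr O (hf j).2.1 p).symm rfl rfl

end Pool.Agent.MP_a9d3bd_gx
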