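import Pool.Agent.MP_a9d3bd_gx.St

namespace Pool.Agent.MP_a9d3bd_gx

open MvPolynomial Pool.Agent.MP_a9d3bd_q
open Pool.Agent.MP_a9d3bd_h (NZ lv EtL)
open Pool.Agent.MP_a9d3bd_yy (xA xL Dvs Pl Gal Near)
open Pool.Agent.MP_a9d3bd_x (LF GF Core)
open Pool.Agent.MP_a9d3bd_y (oe ev Bnd It Ur)

theorem xCm_span {K ι : Type} [Field K] {S : Set (MvPolynomial ι K)} (hS : Homog S)
    {W : Ideal (MvPolynomial ι K)} (hW : W ∈ (Ideal.span S).minimalPrimes) :
    Ideal.span {f | f ∈ W ∧ ∃ n, f.IsHomogeneous n} = W := by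
  classical
  let := MvPolynomial.gradedAlgebra (σ := ι) (R := K)
  have hp : W.IsPrime := hW.1.1
  have h1 : (W.homogeneousCore (homogeneousSubmodule ι K)).toIdeal =
      Ideal.span {f | f ∈ W ∧ ∃ n, f.IsHomogeneous n} := by
    change Ideal.span _ = _
    congr 1
    ext f
    constructor
    · rintro ⟨⟨g, n, hn⟩, hg, rfl⟩
      exact ⟨hg, n, hn⟩
    · rintro ⟨hf, n, hn⟩
      exact ⟨⟨f, n, hn⟩, hf, rfl⟩
  have h2 : Ideal.span {f | f ∈ W ∧ ∃ n, f.IsHomogeneous n} ≤ W :=
    Ideal.span_le.2 fun f hf => hf.1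
  refine le_antisymm h2 (hW.2 ⟨h1 ▸ hp.homogeneousCore, Ideal.span_mono fun f hf =>
    ⟨hW.1.2 (Ideal.subset_span hf), hS f hf⟩⟩ h2)

theorem xCm_smul {K ι E : Type} [Field K] [Field E] [Algebra K E] {f : MvPolynomial ι K} {n : ℕ}
    (hf : f.IsHomogeneous n) (c : E) (y : ι → E) : aeval (c • y) f = c ^ n * aeval y f := by
  classical
  rw [aeval_def, aeval_def, eval₂_eq, eval₂_eq, Finset.mul_sum]
  refine Finset.sum_congr rfl fun d hd => ?_
  have h := hf (mem_support_iff.1 hd)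
  simp only [Finsupp.weight_apply, Pi.one_apply, smul_eq_mul, mul_one, Finsupp.sum] at h
  simp only [Pi.smul_apply, smul_eq_mul, mul_pow, Finset.prod_mul_distrib,
    Finset.prod_pow_eq_pow_sum, h]
  ring

theorem xCm_near {K ι E : Type} [Field K] [Field E] [Algebra K E] (O : DV K E) {σ : ι → E}
    {p : ι → K} (h : Nr O σ p) (f : MvPolynomial ι K) : Near O.O (aeval σ f) (eval p f) := by
  have c : ∀ a : K, O.O.valuation (algebraMap K E a) ≤ 1 := fun a =>
    (O.O.valuation_le_one_iff _).2 (O.const a)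
  unfold Near
  induction f using MvPolynomial.induction_on with
  | C a => simp
  | add f g hf hg =>
    rw [map_add, map_add, map_add, add_sub_add_comm]
    exact Valuation.map_add_lt _ hf hg
  | mul_X f i hf =>
    have e : aeval σ (f * X i) - algebraMap K E (eval p (f * X i)) =
        (aeval σ f - algebraMap K E (eval p f)) * (σ i - algebraMap K E (p i)) +
        ((aeval σ f - algebraMap K E (eval p f)) * algebraMap K E (p i) +
          (σ i - algebraMap K E (p i)) * algebraMap K E (eval p f)) := by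
      simp only [map_mul, aeval_X, eval_X]
      ring
    have hi : O.O.valuation (σ i - algebraMap K E (p i)) < 1 := h i
    rw [e]
    refine Valuation.map_add_lt _ ?_ (Valuation.map_add_lt _ ?_ ?_) <;> rw [map_mul]
    · exact mul_lt_one_of_lt_of_le hf hi.le
    · exact mul_lt_one_of_lt_of_le hf (c _)
    · exact mul_lt_one_of_lt_of_le hi (c _)

theorem xCm_ct {K ι E : Type} [Field K] [Field E] [Algebra K E] {S : Set (MvPolynomial ι K)}
    (hS : Homog S) {W : Ideal (MvPolynomial ι K)} (hW : W ∈ (Ideal.span S).minimalPrimes)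
    (O : DV K E) {y : ι → E} (hy : W ≤ (ak K y).asIdeal) {p : ι → K} (h : Ct O y p) :
    ∀ f ∈ W, eval p f = 0 := by
  obtain ⟨c, hc⟩ := h
  have k : Ideal.span {f | f ∈ W ∧ ∃ n, f.IsHomogeneous n} ≤ RingHom.ker (eval p) := by
    refine Ideal.span_le.2 ?_
    rintro f ⟨hf, n, hn⟩
    have h0 : aeval y f = 0 := hy hf
    have h1 := xCm_near O hc f
    rw [xCm_smul hn, h0, mul_zero] at h1
    unfold Near at h1
    rw [zero_sub, Valuation.map_neg] at h1
    by_contra h2
    have h3 : eval p f ≠ 0 := h2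
    have h4 : O.O.valuation (algebraMap K E (eval p f)⁻¹) ≤ 1 :=
      (O.O.valuation_le_one_iff _).2 (O.const _)
    have h5 := mul_lt_one_of_lt_of_le h1 h4
    rw [← map_mul, ← map_mul, mul_inv_cancel₀ h3, map_one, map_one] at h5
    exact lt_irrefl _ h5
  rw [xCm_span hS hW] at k
  exact fun f hf => k hf

theorem xCm {K : Type} [Field K] [IsAlgClosed K] (h1 : XUq K) : XCm K := by
  intro ι _ _ S d Λ hS hΛ hC J _ E _ _ y u r hy hcl
  classical
  have ex : ∀ j, ∃ W ∈ (Ideal.span S).minimalPrimes, W ≤ (ak K (y j)).asIdeal := fun j =>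
    Ideal.exists_minimalPrimes_le (Ideal.span_le.2 fun f hf => (hy j).2.2.1 f hf)
  choose W hW hWy using ex
  rw [← Finset.sum_fiberwise_of_maps_to (t := Finset.univ.image W) (g := W)
    fun j hj => Finset.mem_image_of_mem W hj]
  refine Finset.sum_eq_zero fun V hV => ?_
  obtain ⟨j₀, -, rfl⟩ := Finset.mem_image.1 hV
  have hsp := xCm_span hS.hom (hW j₀)
  have hp : (W j₀).IsPrime := (hW j₀).1.1
  have sub : S ⊆ {f | f ∈ W j₀ ∧ ∃ n, f.IsHomogeneous n} := fun f hf =>
    ⟨(hW j₀).1.2 (Ideal.subset_span hf), hS.hom f hf⟩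
  have on : ∀ (F : Type) [Field F] [Algebra K F] (z : ι → F),
      On {f | f ∈ W j₀ ∧ ∃ n, f.IsHomogeneous n} z → On S z := fun F _ _ z hz f hf => hz f (sub hf)
  have sm : MP_a9d3bd_h.Sm {f | f ∈ W j₀ ∧ ∃ n, f.IsHomogeneous n} d := by
    refine ⟨fun f hf => hf.2, fun Q hQ => ⟨fun hm => ?_, fun hb => ?_⟩⟩
    · rw [hsp, Ideal.minimalPrimes_eq_subsingleton_self, Set.mem_singleton_iff] at hm
      exact (hS.sm Q fun f hf => hQ f (sub hf)).1 (hm ▸ hW j₀)
    · obtain ⟨a, G, hG, hd⟩ := (hS.sm Q fun f hf => hQ f (sub hf)).2 hb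
      exact ⟨a, G, fun c => (hG c).imp_left fun h => Ideal.span_mono sub h, hd⟩
  have gf : GF {f | f ∈ W j₀ ∧ ∃ n, f.IsHomogeneous n} Λ :=
    ⟨hΛ.ext, hΛ.scale, hΛ.degen, fun F _ _ hF z a b h0 hz => hΛ.mul F hF z a b h0 (on F z hz),
      fun F _ _ hF z a b h0 hz => hΛ.tame F hF z a b h0 (on F z hz)⟩
  have k := hC _ sm (by rw [hsp, hp.radical]; exact hp) gf {j // W j = W j₀} (fun j => E j)
    (fun j => y j) (fun j => u j) (fun j => r j)
    (fun j => ⟨(hy j).1, (hy j).2.1, fun f hf => hWy j (j.2.symm ▸ hf.1), (hy j).2.2.2⟩) ?_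
  · rw [Finset.sum_subtype (p := fun j => W j = W j₀) _ (by simp)]
    exact k
  · intro p hp0
    by_cases hv : ∀ f ∈ W j₀, eval p f = 0
    · refine (Finset.sum_subtype (p := fun j => W j = W j₀)
        (Finset.univ.filter fun j => W j = W j₀) (by simp)
        (fun j => r j * ∑ᶠ O : DV K (E j), if Ct O (y j) p then (O.ord (u j) : ℚ) else 0)).symm.trans
        ((Finset.sum_subset (Finset.filter_subset _ _) fun j _ hj => ?_).trans (hcl p hp0))
      rw [finsum_eq_zero_of_forall_eq_zero, mul_zero]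
      intro O
      exact if_neg fun hc => hj (Finset.mem_filter.2 ⟨Finset.mem_univ _, h1 ι S d hS _ (hW j) _
        (hW j₀) p hp0 (xCm_ct hS.hom (hW j) O (hWy j) hc) hv⟩)
    · refine Finset.sum_eq_zero fun j _ => ?_
      rw [finsum_eq_zero_of_forall_eq_zero, mul_zero]
      intro O
      exact if_neg fun hc => hv (j.2 ▸ xCm_ct hS.hom (hW j) O (hWy j) hc)

end Pool.Agent.MP_a9d3bd_gx
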