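import Pool.Agent.MP_a9d3bd_gx.St

namespace Pool.Agent.MP_a9d3bd_gx

open MvPolynomial Pool.Agent.MP_a9d3bd_q
open Pool.Agent.MP_a9d3bd_h (NZ lv EtL lv_smul)
open Pool.Agent.MP_a9d3bd_yy (Near)

section
variable {K ι E : Type} [Field K] [Fintype ι] [Field E] [Algebra K E] {d : ℕ}

theorem xDeg_near (O : DV K E) {z : E} {a : K} (h : Near O.O z a) :
    z ∈ O.O ∧ O.res z = algebraMap K O.K a := by
  have h1 : z - algebraMap K E a ∈ O.O.nonunits := (ValuationSubring.mem_nonunits_iff _).2 h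
  have h2 : z - algebraMap K E a ∈ O.O := O.O.nonunits_subset h1
  have h3 : z ∈ O.O := by simpa using add_mem h2 (O.const a)
  refine ⟨h3, ?_⟩
  have h4 := (O.res_eq_zero_iff' h2).2 h1
  rwa [O.res_sub h3 (O.const a), O.res_algebraMap, sub_eq_zero] at h4

theorem xDeg_red (O : DV K E) (l : Fin (d + 1) × ι → K) (y : ι → E) (i : Fin (d + 1)) :
    O.pi ^ (-O.mu y) * lv l y i ∈ O.O ∧
      lv l (O.red y) i = O.res (O.pi ^ (-O.mu y) * lv l y i) := by
  have e : O.pi ^ (-O.mu y) * lv l y i =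
      ∑ b, algebraMap K E (l (i, b)) * (y b * O.pi ^ (-O.mu y)) := by
    rw [lv, Finset.mul_sum]
    exact Finset.sum_congr rfl fun b _ => by ring
  have m : ∀ b, algebraMap K E (l (i, b)) * (y b * O.pi ^ (-O.mu y)) ∈ O.O :=
    fun b => mul_mem (O.const _) (O.norm_mem y b)
  rw [e]
  refine ⟨sum_mem fun b _ => m b, ?_⟩
  rw [O.res_sum _ _ fun b _ => m b, lv]
  exact Finset.sum_congr rfl fun b _ => by
    rw [O.res_mul (O.const _) (O.norm_mem y b), O.res_algebraMap, O.red_def]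

theorem xDeg_alg {S : Set (MvPolynomial ι K)} {l : Fin (d + 1) × ι → K} (hS : Homog S)
    (hZ : NZ S l) (hE : FF K E 1) {z : ι → E} (hz : On S z) {v : Fin (d + 1) → K}
    (h : ∀ i, lv l z i = algebraMap K E (v i)) (b : ι) : IsAlgebraic K (z b) := by
  by_contra hb
  have hb' : Transcendental K (z b)⁻¹ := fun h => hb (IsAlgebraic.inv_iff.1 h)
  obtain ⟨V, hV⟩ := exists_ord_pos hE hb'
  have h0 : z b ≠ 0 := fun h => hb (h ▸ isAlgebraic_zero)
  have h1 := V.mu_le h0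
  rw [V.ord_inv] at hV
  refine V.red_ne (Function.ne_iff.2 ⟨b, h0⟩) (hZ _ _ (V.on_red hS hz) (funext fun i => ?_))
  have h2 : 0 < V.ord (V.pi ^ (-V.mu z)) := by rw [V.ord_pi_zpow]; omega
  rw [(xDeg_red V l z i).2, h, V.res_mul ((V.ord_nonneg_iff _).1 h2.le) (V.const _),
    V.res_eq_zero_of_pos h2, zero_mul]
  rfl

end

theorem xDeg {K : Type} [Field K] [IsAlgClosed K] : XDeg K := by
  intro ι _ _ S d l hS hZ F _ _ hF y O c v hy hv h
  have hE := O.ff_K hF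
  obtain ⟨i₀, hi₀⟩ := Function.ne_iff.1 hv
  have hr : O.res (c * lv l y i₀) ≠ 0 := by
    rw [(xDeg_near O (h i₀)).2]
    exact (map_ne_zero _).2 hi₀
  obtain ⟨h1, h2⟩ := (O.res_ne_zero_iff _).1 hr
  have hc : c ≠ 0 := left_ne_zero_of_mul h1
  have hy0 : y ≠ 0 := by
    rintro rfl
    exact right_ne_zero_of_mul h1 (by simp [lv])
  have e : ∀ i, O.pi ^ (-O.mu y) * lv l y i = O.pi ^ (-O.mu y) / c * (c * lv l y i) :=
    fun i => by field_simp
  have hu0 : O.pi ^ (-O.mu y) / c ≠ 0 := div_ne_zero (zpow_ne_zero _ O.pi_ne) hc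
  have hu : O.pi ^ (-O.mu y) / c ∈ O.O := by
    have h3 := (O.ord_nonneg_iff _).2 (xDeg_red O l y i₀).1
    rw [e, O.ord_mul hu0 h1, h2, add_zero] at h3
    exact (O.ord_nonneg_iff _).1 h3
  have h3 : ∀ i, lv l (O.red y) i = O.res (O.pi ^ (-O.mu y) / c) * algebraMap K O.K (v i) :=
    fun i => by
      rw [(xDeg_red O l y i).2, e, O.res_mul hu (xDeg_near O (h i)).1, (xDeg_near O (h i)).2]
  have h4 : O.res (O.pi ^ (-O.mu y) / c) ≠ 0 := fun h0 =>
    O.red_ne hy0 (hZ _ _ (O.on_red hS hy) (funext fun i => by rw [h3, h0, zero_mul]; rfl))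
  have h5 := xDeg_alg hS hZ hE ((on_smul hS (inv_ne_zero h4) _).2 (O.on_red hS hy)) (v := v)
    fun i => by rw [lv_smul, Pi.smul_apply, h3, smul_eq_mul, inv_mul_cancel_left₀ h4]
  rw [← nd_smul (inv_ne_zero h4)]
  refine not_nd_of_le hE (F := ⊥) (kf_le_of fun b => ?_) (by rw [td_bot]; exact one_pos)
  exact IntermediateField.mem_bot.2 (minpoly.mem_range_of_degree_eq_one K _
    (IsAlgClosed.degree_eq_one_of_irreducible K (minpoly.irreducible (h5 b).isIntegral)))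

end Pool.Agent.MP_a9d3bd_gx
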