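import Pool.Agent.MP_a9d3bd_gx.St

/-! The linear forms. -/

namespace Pool.Agent.MP_a9d3bd_gx

open MvPolynomial Pool.Agent.MP_a9d3bd_q
open Pool.Agent.MP_a9d3bd_h (NZ lv EtL)

section
variable {K ι : Type} [Field K]

theorem xFor_hom {B : Type} [CommRing B] [Algebra K B] (c : B) (y : ι → B)
    {f : MvPolynomial ι K} {n : ℕ} (hf : f.IsHomogeneous n) :
    aeval (fun b => c * y b) f = c ^ n * aeval y f := by
  rw [f.as_sum, map_sum, map_sum, Finset.mul_sum]
  refine Finset.sum_congr rfl fun m hm => ?_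
  have h := hf (mem_support_iff.1 hm)
  rw [aeval_monomial, aeval_monomial, ← h]
  simp only [mul_pow, Finsupp.prod, Finset.prod_mul_distrib, Finset.prod_pow_eq_pow_sum,
    Finsupp.weight_apply, Finsupp.sum, Pi.one_apply, smul_eq_mul, mul_one]
  ring

theorem xFor_der [DecidableEq ι] (s : K) (b : ι) (f : MvPolynomial ι K) :
    pderiv b (aeval (fun a => C s * X a) f : MvPolynomial ι K) =
      C s * aeval (fun a => C s * X a) (pderiv b f) := by
  induction f using MvPolynomial.induction_on with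
  | C a => simp
  | add p q hp hq => simp only [map_add, hp, hq, mul_add]
  | mul_X p a hp =>
    rw [map_mul, Derivation.leibniz, Derivation.leibniz, hp]
    by_cases h : a = b
    · subst h
      simp
      ring
    · simp [h]
      ring

theorem xFor_ev (s : K) (hs : s ≠ 0) (p : ι → K) (f : MvPolynomial ι K) :
    aeval (s⁻¹ • p) (aeval (fun a => C s * X a) f : MvPolynomial ι K) = aeval p f := by
  rw [← AlgHom.comp_apply, comp_aeval]
  congr 2
  funext a
  simp [hs]

end

theorem xFor_et {K ι : Type} [Field K] [Fintype ι] [DecidableEq ι] {S : Set (MvPolynomial ι K)}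
    (hS : Homog S) {d : ℕ} (l : Fin (d + 1) × ι → K) (p : ι → K) (s : K) (hs : s ≠ 0)
    (h : EtL S (MP_a9d3bd_h.lin l) (ak K p).asIdeal) :
    EtL S (MP_a9d3bd_h.lin l) (ak K (s⁻¹ • p)).asIdeal := by
  obtain ⟨G, hG, hd⟩ := h
  let σ : MvPolynomial ι K →ₐ[K] MvPolynomial ι K := aeval fun a => C s * X a
  have hc : (C s⁻¹ * C s : MvPolynomial ι K) = 1 := by
    rw [← C_mul, inv_mul_cancel₀ hs, C_1]
  refine ⟨fun c => C s⁻¹ * σ (G c), fun c => ?_, fun h => hd ?_⟩
  · rcases hG c with h | ⟨i, h⟩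
    · left
      refine Ideal.mul_mem_left _ _ ?_
      have h1 : (Ideal.span S).map σ ≤ Ideal.span S := by
        rw [Ideal.map_span, Ideal.span_le]
        rintro _ ⟨f, hf, rfl⟩
        obtain ⟨n, hn⟩ := hS f hf
        change aeval (fun a => C s * X a) f ∈ Ideal.span S
        rw [xFor_hom _ _ hn, aeval_X_left_apply]
        exact Ideal.mul_mem_left _ _ (Ideal.subset_span hf)
      exact h1 (Ideal.mem_map_of_mem σ h)
    · refine Or.inr ⟨i, ?_⟩
      beta_reduce
      rw [h, MP_a9d3bd_h.lin, map_sum, Finset.mul_sum]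
      refine Finset.sum_congr rfl fun b _ => ?_
      rw [map_mul, aeval_X, aeval_C, algebraMap_eq]
      linear_combination (C (l (i, b)) * X b) * hc
  · have e : (Matrix.of fun c b => pderiv b (C s⁻¹ * σ (G c))) =
        σ.toRingHom.mapMatrix (Matrix.of fun c b => pderiv b (G c)) := by
      ext1 c b
      change pderiv b (C s⁻¹ * σ (G c)) = σ (pderiv b (G c))
      rw [pderiv_C_mul, xFor_der, ← mul_assoc, hc, one_mul]
    rw [e, ← RingHom.map_det, mem_ak] at h
    rw [mem_ak, ← xFor_ev s hs]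
    exact h

theorem xFor {K : Type} [Field K] [IsAlgClosed K] : XFor K := by
  intro ι _ _ S d hS T hT hp
  have := MP_a9d3bd_h.gnr_neBot (K := K) (Fin (d + 1) × ι)
  have h1 : ∀ p ∈ T, ∀ᶠ l in MP_a9d3bd_h.gnr K (Fin (d + 1) × ι), lv l p 0 ≠ 0 ∧
      EtL S (MP_a9d3bd_h.lin l) (ak K ((lv l p 0)⁻¹ • p)).asIdeal := by
    intro p hpT
    obtain ⟨h0, hon⟩ := hp p hpT
    obtain ⟨b, hb⟩ := Function.ne_iff.1 h0
    obtain ⟨a, ha⟩ := (hS.sm (ak K p) fun f hf => hon f hf).2
      ⟨b, fun h => hb (by simpa [mem_ak] using h)⟩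
    have hG : (∑ c, C (p c) * X (0, c) : MvPolynomial (Fin (d + 1) × ι) K) ≠ 0 := by
      intro h
      have h2 := congrArg (eval fun x : Fin (d + 1) × ι => if x.2 = b then (1 : K) else 0) h
      simp at h2
      exact hb h2
    filter_upwards [MP_a9d3bd_h.gen_et ha, MP_a9d3bd_h.gnr_ne hG] with l hl hl'
    have h3 : lv l p 0 ≠ 0 := by
      intro h
      apply hl'
      rw [← h]
      simp [lv, mul_comm]
    exact ⟨h3, xFor_et hS.hom l p _ h3 hl⟩
  obtain ⟨l, hl, hl'⟩ := ((MP_a9d3bd_h.gen_NZ hS).and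
    ((Filter.eventually_all_finite hT).2 h1)).exists
  exact ⟨l, hl, hl'⟩

end Pool.Agent.MP_a9d3bd_gx
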