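import Pool.Agent.MP_a9d3bd_gx.St
import Pool.Agent.MP_a9d3bd_y.TLe

namespace Pool.Agent.MP_a9d3bd_gx

open MvPolynomial Pool.Agent.MP_a9d3bd_q
open Pool.Agent.MP_a9d3bd_h (NZ lv EtL)
open Pool.Agent.MP_a9d3bd_yy (xA xL Dvs Pl Gal Near)
open Pool.Agent.MP_a9d3bd_x (LF GF Core)
open Pool.Agent.MP_a9d3bd_y (oe ev Bnd It Ur)

theorem xGen_le {A F : Type} [CommRing A] [Field F] (i : A →+* F) (V : ValuationSubring F) (T : F)
    (g : V.ValueGroup) (hT : 1 ≤ V.valuation T) (f : Polynomial A) (D : ℕ) (hf : f.natDegree ≤ D)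
    (hg : ∀ n, V.valuation (i (f.coeff n)) ≤ g) :
    V.valuation (f.eval₂ i T) ≤ g * V.valuation T ^ D := by
  rw [Polynomial.eval₂_eq_sum_range]
  refine Valuation.map_sum_le _ fun n hn => ?_
  rw [map_mul, map_pow]
  exact mul_le_mul' (hg n) (pow_le_pow_right₀ hT (by have := Finset.mem_range.1 hn; omega))

theorem xGen_int {K A : Type} [Field K] [CommRing A] [Algebra K A] [Algebra (Polynomial K) A]
    [IsScalarTower K (Polynomial K) A] [Module.Finite (Polynomial K) A] (b : A) :
    IsIntegral (Algebra.adjoin K (Set.range fun _ : Unit => xA K A)) b := by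
  have h : IsIntegral (Polynomial K) b := Algebra.IsIntegral.isIntegral b
  refine h.map_of_comp_eq (Polynomial.aeval (⟨xA K A, Algebra.subset_adjoin ⟨(), rfl⟩⟩ :
    Algebra.adjoin K (Set.range fun _ : Unit => xA K A))).toRingHom (RingHom.id A) ?_
  refine Polynomial.ringHom_ext (fun c => ?_) (by simp)
  simpa using IsScalarTower.algebraMap_apply K (Polynomial K) A c

theorem xGen {K : Type} [Field K] [IsAlgClosed K] (h1 : XDeg K) (h2 : XInd K) (h3 : XSb K) :
    XGen K := by
  intro ι _ _ S d l a H Y hM A _ _ _ _ _ _ _ c i₁ i₂ D m1 d1 d2 l2 d3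
  choose n hn using fun (k : Fin d) (j : ℕ) => MP_a9d3bd_y.tle_int (xGen_int (K := K) ((c k).coeff j))
  have hD : ∀ k, (c k).natDegree ≤ D + 1 := fun k => by
    by_cases h : k = i₁
    · rw [h, d1]
    · exact (d3 k h).trans (Nat.le_succ _)
  set N := (Finset.univ ×ˢ Finset.range (D + 2)).sup fun z : Fin d × ℕ => n z.1 z.2 with hN
  refine ⟨N, fun F _ _ i T Θ hF hT hP _ hd => ?_⟩
  obtain ⟨-, s2, -, s4⟩ := h3 d A c
  rw [s2, s4] at hd
  rw [s4] at hP
  simp only [s4]
  set q : Option (Fin d) → F := oe Θ fun k => (c k).eval₂ (i : A →+* F) T with hq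
  set δ := aeval q (pderiv none H) with hδ
  obtain ⟨on, l0, ls⟩ := hM.h2 F q hP
  set y : ι → F := fun b => aeval q (Y b) with hy
  have y0 : y ≠ 0 := fun h => hd (by rw [hδ, ← l0, h]; simp [lv])
  have bnd : ∀ (O : DV K F) (g : O.O.ValueGroup), 1 ≤ g → O.O.valuation (i (xA K A)) ≤ g →
      ∀ k j, O.O.valuation (i ((c k).coeff j)) ≤ g ^ N := by
    intro O g g1 g2 k j
    by_cases hj : j < D + 2
    · refine (hn k j F i O.O (fun κ => ?_) g g1 fun _ => g2).trans (pow_le_pow_right₀ g1 ?_)
      · exact (i.commutes κ).symm ▸ O.alg_mem (isAlgebraic_algebraMap κ)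
      · exact Finset.le_sup (f := fun z : Fin d × ℕ => n z.1 z.2) (b := (k, j)) (by simpa using hj)
    · rw [Polynomial.coeff_eq_zero_of_natDegree_lt (by have := hD k; omega)]
      simp
  have big : ∀ (O : DV K F) (g : O.O.ValueGroup), 1 ≤ g → O.O.valuation (i (xA K A)) ≤ g →
      g ^ N < O.O.valuation T → ¬ ND K (O.red y) := by
    intro O g g1 g2 hg
    have t1 : 1 < O.O.valuation T := (one_le_pow₀ g1).trans_lt hg
    have t0 : 0 < O.O.valuation T ^ D := pow_pos (zero_lt_one.trans t1) _
    have lt : g ^ N * O.O.valuation T ^ D < O.O.valuation T ^ (D + 1) := by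
      rw [pow_succ']
      exact mul_lt_mul_of_pos_right hg t0
    have e1 : O.O.valuation (q (some i₁)) = O.O.valuation T ^ (D + 1) := by
      have h4 := xGen_le (i : A →+* F) O.O T _ t1.le (c i₁).eraseLead D
        ((Polynomial.eraseLead_natDegree_le _).trans (by omega)) fun j => by
          rw [Polynomial.eraseLead_coeff]
          split_ifs
          · simp
          · exact bnd O g g1 g2 i₁ j
      change O.O.valuation ((c i₁).eval₂ (i : A →+* F) T) = _
      rw [← Polynomial.eraseLead_add_C_mul_X_pow (c i₁), m1.leadingCoeff, d1, Polynomial.C_1, one_mul,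
        Polynomial.eval₂_add, Polynomial.eval₂_X_pow, Valuation.map_add_eq_of_lt_right, map_pow]
      rw [map_pow]
      exact h4.trans_lt lt
    have p1 : 1 < O.O.valuation T ^ (D + 1) := one_lt_pow₀ t1 (Nat.succ_ne_zero _)
    have q0 : q (some i₁) ≠ 0 := fun h => by
      rw [h, map_zero] at e1
      exact (zero_lt_one.trans p1).ne e1
    refine h1 ι S d l hM.hom hM.nz F hF y O (δ * q (some i₁))⁻¹ (Pi.single i₁.succ 1) on
      (by simp) fun j => ?_
    refine Fin.cases ?_ (fun k => ?_) j
    · rw [Near, l0, Pi.single_eq_of_ne (Fin.succ_ne_zero _).symm, map_zero, sub_zero,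
        show (δ * q (some i₁))⁻¹ * δ = (q (some i₁))⁻¹ by field_simp, map_inv₀, e1]
      exact inv_lt_one_of_one_lt₀ p1
    · rw [Near, ls, show (δ * q (some i₁))⁻¹ * (q (some k) * δ) = q (some k) / q (some i₁) by
        field_simp]
      by_cases h : k = i₁
      · simp [h, q0]
      · rw [Pi.single_eq_of_ne (fun e => h (Fin.succ_injective _ e)), map_zero, sub_zero, map_div₀,
          e1, div_lt_one₀ (zero_lt_one.trans p1)]
        exact (xGen_le (i : A →+* F) O.O T _ t1.le (c k) D (d3 k h) (bnd O g g1 g2 k)).trans_lt lt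
  refine ⟨y0, on, ?_, fun O hO => ?_⟩
  · obtain ⟨b, hb⟩ := Function.ne_iff.1 y0
    have mem : ∀ j, lv l y j / y b ∈ kf K y := fun j => by
      rw [lv, Finset.sum_div]
      refine sum_mem fun b' _ => ?_
      rw [mul_div_assoc]
      exact mul_mem (IntermediateField.algebraMap_mem _ _) (div_mem_kf y b' b)
    have mq : ∀ k, q (some k) ∈ kf K y := fun k => by
      have := div_mem (mem k.succ) (mem 0)
      rwa [div_div_div_cancel_right₀ hb, ls, l0, mul_div_cancel_right₀ _ hd] at this
    have tx : Transcendental K (xA K A) := by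
      rw [transcendental_iff_injective]
      convert FaithfulSMul.algebraMap_injective (Polynomial K) A using 1
      ext f
      exact Polynomial.aeval_algebraMap_apply A Polynomial.X f |>.trans (by simp)
    have ind := h2 A F i T _ _ _ D tx hT m1 d1 d2 l2
    refine alg_of_le ((af_le_iff _ _).2 ?_) ((nda_iff hF _).2 ((tr_indep_iff hF.tr _).1 ind))
    exact Fin.forall_fin_two.2 ⟨mq i₁, mq i₂⟩
  by_cases hx : i (xA K A) ∈ O.O
  · have hx' := (O.O.valuation_le_one_iff _).2 hx
    have hT' : T ∈ O.O := by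
      by_contra h
      refine big O 1 le_rfl hx' ?_ hO
      rw [one_pow]
      exact lt_of_not_ge fun h' => h ((O.O.valuation_le_one_iff _).1 h')
    refine Or.inl ⟨hx, hT', ?_⟩
    by_contra h
    push Not at h
    choose κ hκ using fun k => h (Polynomial.C (c k))
    refine h1 ι S d l hM.hom hM.nz F hF y O δ⁻¹ (Fin.cons 1 κ) on
      (fun e => one_ne_zero (congrFun e 0)) (fun j => ?_) hO
    refine Fin.cases ?_ (fun k => ?_) j
    · simp [Near, l0, ← hδ, inv_mul_cancel₀ hd]
    · have e : ev i T Θ (Polynomial.C (c k)) = q (some k) := by simp [ev, hq, oe]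
      have m : q (some k) ∈ O.O := by
        change (c k).eval₂ (i : A →+* F) T ∈ O.O
        rw [Polynomial.eval₂_eq_sum_range]
        refine sum_mem fun j _ => mul_mem ((O.O.valuation_le_one_iff _).1 ?_) (pow_mem hT' _)
        simpa using bnd O 1 le_rfl hx' k j
      have m2 : algebraMap K F (κ k) ∈ O.O := O.alg_mem (isAlgebraic_algebraMap _)
      rw [Near, ls, show δ⁻¹ * (q (some k) * δ) = q (some k) by field_simp, Fin.cons_succ,
        ← ValuationSubring.mem_nonunits_iff, ← O.res_eq_zero_iff' (sub_mem m m2), O.res_sub m m2,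
        O.res_algebraMap, ← hκ, e, sub_self]
  · refine Or.inr ⟨hx, le_of_not_gt fun h => big O _ ?_ le_rfl h hO⟩
    exact (lt_of_not_ge fun h' => hx ((O.O.valuation_le_one_iff _).1 h')).le

end Pool.Agent.MP_a9d3bd_gx
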