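import Pool.Agent.MP_a9d3bd_gx.St

/-! A Galois cover of the line is separable. -/

namespace Pool.Agent.MP_a9d3bd_gx

open MvPolynomial Pool.Agent.MP_a9d3bd_q
open Pool.Agent.MP_a9d3bd_h (NZ lv EtL)
open Pool.Agent.MP_a9d3bd_yy (xA xL Dvs Pl Gal Near)
open Pool.Agent.MP_a9d3bd_x (LF GF Core)
open Pool.Agent.MP_a9d3bd_y (oe ev Bnd It Ur)

theorem xGs {K : Type} [Field K] [IsAlgClosed K] : XGs K := by
  classical
  intro A _ _ _ _ _ hG a
  have := hG.fin
  have := Fintype.ofFinite (A ≃ₐ[Polynomial K] A)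
  let s : Finset A := Finset.univ.image fun g : A ≃ₐ[Polynomial K] A => g a
  have ha : a ∈ s := Finset.mem_image.2 ⟨1, Finset.mem_univ _, rfl⟩
  have hs : ∀ g : A ≃ₐ[Polynomial K] A, s.image g = s := by
    intro g
    refine Finset.eq_of_subset_of_card_le (fun b hb => ?_)
      (Finset.card_image_of_injective s g.injective).ge
    obtain ⟨c, hc, rfl⟩ := Finset.mem_image.1 hb
    obtain ⟨h, -, rfl⟩ := Finset.mem_image.1 hc
    exact Finset.mem_image.2 ⟨g * h, Finset.mem_univ _, rfl⟩
  have hF : (∏ b ∈ s, (Polynomial.X - Polynomial.C b)) ∈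
      Polynomial.lifts (algebraMap (Polynomial K) A) := by
    refine (Polynomial.lifts_iff_coeff_lifts _).2 fun n => hG.inv _ fun g => ?_
    have e : (∏ b ∈ s, (Polynomial.X - Polynomial.C b)).map (g : A →+* A) =
        ∏ b ∈ s, (Polynomial.X - Polynomial.C b) := by
      conv_rhs => rw [← hs g, Finset.prod_image g.injective.injOn]
      simp [Polynomial.map_prod]
    conv_rhs => rw [← e, Polynomial.coeff_map]
    rfl
  obtain ⟨Φ, hΦ⟩ := (Polynomial.mem_lifts _).1 hF
  rw [← Finset.mul_prod_erase s _ ha] at hΦ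
  refine ⟨Φ, ?_, ?_⟩
  · rw [← Polynomial.eval_map_algebraMap, hΦ]
    simp
  · rw [← Polynomial.eval_map_algebraMap, ← Polynomial.derivative_map, hΦ,
      Polynomial.derivative_mul]
    simp only [Polynomial.eval_add, Polynomial.eval_mul, Polynomial.eval_sub, Polynomial.eval_X,
      Polynomial.eval_C, sub_self, zero_mul, add_zero, Polynomial.derivative_X_sub_C,
      one_mul, Polynomial.eval_prod]
    exact Finset.prod_ne_zero_iff.2 fun b hb => sub_ne_zero.2 (Finset.ne_of_mem_erase hb).symm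

end Pool.Agent.MP_a9d3bd_gx
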