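import Pool.Agent.MP_a9d3bd_gx.St
import Pool.Agent.MP_a9d3bd_y.Fib
import Pool.Agent.MP_a9d3bd_y.Eta
import Pool.Agent.MP_a9d3bd_y.Min
import Pool.Agent.MP_a9d3bd_y.Cond
import Pool.Agent.MP_a9d3bd_y.TSim

/-! The hypersurface model. -/

namespace Pool.Agent.MP_a9d3bd_gx

open MvPolynomial Pool.Agent.MP_a9d3bd_q
open Pool.Agent.MP_a9d3bd_h (NZ lv EtL)
open Pool.Agent.MP_a9d3bd_y (oe Bnd It Ur)

section
variable {K ι : Type} [Field K]

theorem xHM_map {A E : Type} [CommRing A] [Algebra K A] [CommRing E] [Algebra K E]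
    (τ : A →ₐ[K] E) (x : ι → A) (G : MvPolynomial ι K) :
    aeval (fun b => τ (x b)) G = τ (aeval x G) := by
  have : aeval (fun b => τ (x b)) = τ.comp (aeval x) := by
    ext k; simp
  exact DFunLike.congr_fun this G

theorem xHM_hom {E : Type} [CommRing E] [Algebra K E] {G : MvPolynomial ι K} {n : ℕ}
    (hG : G.IsHomogeneous n) (c : E) (y : ι → E) :
    aeval (fun b => c * y b) G = c ^ n * aeval y G := by
  rw [aeval_def, aeval_def, eval₂_eq, eval₂_eq, Finset.mul_sum]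
  refine Finset.sum_congr rfl fun m hm => ?_
  have h : ∑ i ∈ m.support, m i = n := by
    have := hG (mem_support_iff.1 hm)
    rw [← this, Finsupp.weight_apply]
    simp [Finsupp.sum]
  simp only [mul_pow, Finset.prod_mul_distrib, Finset.prod_pow_eq_pow_sum, h]
  ring

end

theorem xHM {K : Type} [Field K] [IsAlgClosed K] (h1 : XFor K) (h2 : XRg K) (h3 : XBd K) :
    XHM K := by
  intro ι _ _ S d hS hP T hT hne hTS
  classical
  obtain ⟨l, hnz, hl⟩ := h1 ι S d hS T hT hTS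
  obtain ⟨B, _, _, _, y, hsur, hy, hl0, hind, hpt⟩ := h2 ι S d l hS hP hnz
  obtain ⟨hit, hbd, hur⟩ := h3 ι S d l hS.hom hnz B y hsur hy hl0
  set v : Fin d → B := fun i => aeval y (MP_a9d3bd_h.lin l i.succ) with hv
  have hft : Algebra.FiniteType K B := Algebra.FiniteType.of_surjective _ hsur
  let Φ : Set (B →ₐ[K] K) := ⋃ p ∈ T, {τ | ∀ k, τ (v k) = lv l ((lv l p 0)⁻¹ • p) k.succ}
  have hΦ : Φ.Finite := hT.biUnion fun p _ => MP_a9d3bd_y.sFib K B (Fin d) K v _ hft hit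
  have hG : ((Finset.univ.image y : Finset B) : Set B) = Set.range y := by simp
  obtain ⟨θ, hθ, hsep⟩ := MP_a9d3bd_y.sEta K B K Φ (Finset.univ.image y) inferInstance hΦ (by
    rw [hG, Algebra.adjoin_range_eq_range_aeval]
    exact (AlgHom.range_eq_top _).2 hsur)
  rw [hG] at hθ
  obtain ⟨H, hH⟩ := MP_a9d3bd_y.sMin K B (Fin d) v θ hind (hbd θ hθ)
  obtain ⟨a, ha⟩ := (Submodule.mem_span_range_iff_exists_fun K).1 hθ
  have hw : ∀ o, aeval y (qq a l o) = oe θ v o := by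
    rintro (_ | i)
    · simp [qq, oe, ← ha, Algebra.smul_def]
    · rfl
  have hq : ∀ (E : Type) [Field E] [Algebra K E] (σ : ι → E) (ξ : B →ₐ[K] E),
      (∀ b, ξ (y b) = σ b) → ∀ G : MvPolynomial (Option (Fin d)) K,
      aeval (fun o => aeval σ (qq a l o)) G =
        ξ (aeval (oe θ v) G) := by
    intro E _ _ σ ξ hξ G
    obtain rfl : (fun b => ξ (y b)) = σ := funext hξ
    rw [← xHM_map ξ]
    simp only [xHM_map, hw]
  have hsim : ∀ p ∈ T, ∃ ξ : B →ₐ[K] K, (∀ b, ξ (y b) = ((lv l p 0)⁻¹ • p) b) ∧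
      ξ (aeval (oe θ v) (pderiv none H)) ≠ 0 ∧ MP_a9d3bd_y.Bir K (oe θ v) := by
    intro p hp
    obtain ⟨ξ, hξ⟩ := hpt K ((lv l p 0)⁻¹ • p) (fun G hG => by
      obtain ⟨n, hn⟩ := hS.hom G hG
      have := xHM_hom hn (lv l p 0)⁻¹ p
      rw [(hTS p hp).2 G hG, mul_zero] at this
      exact this) (by
      rw [MP_a9d3bd_h.lv_smul, Pi.smul_apply, smul_eq_mul, inv_mul_cancel₀ (hl p hp).1])
    have e : (fun b => ξ (y b)) = (lv l p 0)⁻¹ • p := funext hξ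
    have hξv : ∀ k, ξ (v k) = lv l ((lv l p 0)⁻¹ • p) k.succ := fun k => by
      rw [← e, ← MP_a9d3bd_h.aeval_lin, xHM_map]
    refine ⟨ξ, hξ, MP_a9d3bd_y.tSim K B (Fin d) v θ H ξ hft hind hit hH
      (hur ξ (e ▸ (hl p hp).2)) fun ξ' k1 k2 => ?_⟩
    exact hsep ξ' (Set.mem_biUnion hp fun k => (k1 k).trans (hξv k)) ξ (Set.mem_biUnion hp hξv) k2
  obtain ⟨p₀, hp₀⟩ := hne
  obtain ⟨-, -, -, hbir⟩ := hsim p₀ hp₀
  choose Y hY using fun b => MP_a9d3bd_y.sCon K B (Fin d) v θ H hind hit hH hbir (y b)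
  have hH0 : aeval (oe θ v) H = 0 := (hH.2.2.2 H).2 dvd_rfl
  have hYG : ∀ G : MvPolynomial ι K, aeval (oe θ v) (aeval Y G) =
      aeval (fun b => aeval (oe θ v) (pderiv none H) * y b) G := fun G => by
    rw [← xHM_map]
    simp only [hY]
  have hYl : ∀ i, aeval (oe θ v) (aeval Y (MP_a9d3bd_h.lin l i)) =
      aeval (oe θ v) (pderiv none H) * aeval y (MP_a9d3bd_h.lin l i) := fun i => by
    rw [hYG]
    simp [MP_a9d3bd_h.lin, Finset.mul_sum, mul_left_comm]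
  refine ⟨l, a, H, Y, ⟨hS.hom, hnz, hH.2.1, fun E _ _ σ hσ h0 => ?_, fun E _ _ q hq0 => ?_⟩,
    fun p hp => ⟨(hl p hp).1, ?_⟩⟩
  · obtain ⟨ξ, hξ⟩ := hpt E σ hσ h0
    refine ⟨by rw [hq E σ ξ hξ, hH0, map_zero], fun b => ?_⟩
    rw [hq E σ ξ hξ, hq E σ ξ hξ, hY, map_mul, hξ]
  · have hz : ∀ F F' : MvPolynomial (Option (Fin d)) K, aeval (oe θ v) F = aeval (oe θ v) F' →
        aeval q F = aeval q F' := fun F F' hF => by
      obtain ⟨u, hu⟩ := (hH.2.2.2 (F - F')).1 (by rw [map_sub, hF, sub_self])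
      rw [← sub_eq_zero, ← map_sub, hu, map_mul, hq0, zero_mul]
    refine ⟨fun G hG => ?_, ?_, fun i => ?_⟩
    · obtain ⟨n, hn⟩ := hS.hom G hG
      rw [xHM_map (aeval q) Y G, hz _ 0 (by rw [hYG, xHM_hom hn, hy G hG, mul_zero, map_zero]),
        map_zero]
    · rw [← MP_a9d3bd_h.aeval_lin, xHM_map (aeval q) Y]
      exact hz _ _ (by rw [hYl, hl0, mul_one])
    · rw [← MP_a9d3bd_h.aeval_lin, xHM_map (aeval q) Y, hz _ (X (some i) * pderiv none H) (by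
        rw [hYl, map_mul, aeval_X, mul_comm]; rfl), map_mul, aeval_X]
  · obtain ⟨ξ, hξ, hne, -⟩ := hsim p hp
    rw [← coe_aeval_eq_eval]
    change aeval ((lv l p 0)⁻¹ • p) (aeval (qq a l) (pderiv none H)) ≠ 0
    rw [← xHM_map (aeval ((lv l p 0)⁻¹ • p)) (qq a l), hq K _ ξ hξ]
    exact hne

end Pool.Agent.MP_a9d3bd_gx
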