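import Pool.Agent.MP_a9d3bd_gx.St

namespace Pool.Agent.MP_a9d3bd_gx

open MvPolynomial Pool.Agent.MP_a9d3bd_q
open Pool.Agent.MP_a9d3bd_h (NZ lv EtL)
open Pool.Agent.MP_a9d3bd_yy (xA xL Dvs Pl Gal Near)
open Pool.Agent.MP_a9d3bd_x (LF GF Core)
open Pool.Agent.MP_a9d3bd_y (oe ev Bnd It Ur)

theorem xInd_poly {K A : Type} [Field K] [CommRing A] [Algebra K A] {x : A} {f g : Polynomial A}
    {D : ℕ} (hx : Transcendental K x) (hf : f.Monic) (hfd : f.natDegree = D + 1)
    (hgd : g.natDegree = D) (hg : g.leadingCoeff = x) (Q : MvPolynomial (Fin 2) K)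
    (h : aeval ![f, g] Q = 0) : Q = 0 := by
  classical
  by_contra h0
  obtain ⟨t, ht, hm⟩ := Finset.exists_max_image Q.support (fun s => s 0 * (D + 1) + s 1 * D)
    (support_nonempty.2 h0)
  have hc : ∀ s ∈ Q.support, (aeval ![f, g] (monomial s (coeff s Q))).coeff
      (t 0 * (D + 1) + t 1 * D) = if s 0 * (D + 1) + s 1 * D = t 0 * (D + 1) + t 1 * D then
        Polynomial.aeval x (Polynomial.monomial (s 1) (coeff s Q)) else 0 := by
    intro s hs
    have a1 : (f ^ s 0).natDegree ≤ s 0 * (D + 1) := Polynomial.natDegree_pow_le_of_le _ hfd.le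
    have a2 : (g ^ s 1).natDegree ≤ s 1 * D := Polynomial.natDegree_pow_le_of_le _ hgd.le
    have e : aeval ![f, g] (monomial s (coeff s Q)) =
        Polynomial.C (algebraMap K A (coeff s Q)) * (f ^ s 0 * g ^ s 1) := by
      rw [aeval_monomial, Finsupp.prod_fintype _ _ (by simp), Fin.prod_univ_two,
        Polynomial.algebraMap_apply]
      rfl
    rw [e, Polynomial.coeff_C_mul]
    split_ifs with c
    · rw [← c, Polynomial.coeff_mul_add_eq_of_natDegree_le a1 a2,
        Polynomial.coeff_pow_of_natDegree_le hfd.le, Polynomial.coeff_pow_of_natDegree_le hgd.le,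
        ← hfd, hf.coeff_natDegree, one_pow, one_mul, Polynomial.aeval_monomial, ← hg,
        Polynomial.leadingCoeff, hgd]
    · rw [Polynomial.coeff_eq_zero_of_natDegree_lt, mul_zero]
      exact lt_of_le_of_lt (Polynomial.natDegree_mul_le.trans (add_le_add a1 a2))
        (lt_of_le_of_ne (hm s hs) c)
  have e1 := congrArg (fun p => Polynomial.coeff p (t 0 * (D + 1) + t 1 * D)) h
  rw [Q.as_sum, map_sum] at e1
  simp only [Polynomial.finsetSum_coeff, Polynomial.coeff_zero] at e1
  rw [Finset.sum_congr rfl hc, ← Finset.sum_filter, ← map_sum] at e1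
  have e2 := congrArg (fun p => Polynomial.coeff p (t 1)) (transcendental_iff.1 hx _ e1)
  simp only [Polynomial.finsetSum_coeff, Polynomial.coeff_zero, Polynomial.coeff_monomial] at e2
  rw [Finset.sum_eq_single t, if_pos rfl] at e2
  · exact mem_support_iff.1 ht e2
  · intro s hs hne
    refine if_neg fun c => hne ?_
    have c2 := (Finset.mem_filter.1 hs).2
    rw [c] at c2
    have c3 : s 0 = t 0 := Nat.eq_of_mul_eq_mul_right (Nat.succ_pos D) (Nat.add_right_cancel c2)
    ext i
    fin_cases i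
    · exact c3
    · exact c
  · intro c
    exact (c (Finset.mem_filter.2 ⟨ht, rfl⟩)).elim

theorem xInd {K : Type} [Field K] [IsAlgClosed K] : XInd K := by
  intro A F _ _ _ _ _ i T x f g D hx hT hf hfd hgd hg
  rw [algebraicIndependent_iff]
  intro Q hQ
  refine xInd_poly hx hf hfd hgd hg Q (hT _ ?_)
  have e : ∀ Q : MvPolynomial (Fin 2) K, (aeval ![f, g] Q : Polynomial A).eval₂ (i : A →+* F) T =
      aeval ![f.eval₂ (i : A →+* F) T, g.eval₂ (i : A →+* F) T] Q := fun Q => by
    induction Q using MvPolynomial.induction_on with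
    | C a =>
      rw [aeval_C, aeval_C, Polynomial.algebraMap_apply, Polynomial.eval₂_C]
      exact i.commutes a
    | add p q hp hq => rw [map_add, map_add, Polynomial.eval₂_add, hp, hq]
    | mul_X p j hp =>
      rw [map_mul, map_mul, Polynomial.eval₂_mul, hp, aeval_X, aeval_X]
      fin_cases j <;> rfl
  rw [e, hQ]

end Pool.Agent.MP_a9d3bd_gx
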