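import Pool.Agent.MP_a9d3bd_gx.St

namespace Pool.Agent.MP_a9d3bd_gx

open MvPolynomial Pool.Agent.MP_a9d3bd_q
open Pool.Agent.MP_a9d3bd_h (NZ lv EtL)
open Pool.Agent.MP_a9d3bd_yy (xA xL Dvs Pl Gal Near)
open Pool.Agent.MP_a9d3bd_x (LF GF Core)
open Pool.Agent.MP_a9d3bd_y (oe ev Bnd It Ur)

theorem xLW_lt {K L : Type} [Field K] [Field L] [Algebra K L] (O : DV K L) {z : L} (h0 : z ≠ 0) :
    O.O.valuation z < 1 ↔ 0 < O.ord z := by
  rw [← not_le, ← not_le, ← neg_nonneg, ← O.ord_inv, O.ord_nonneg_iff,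
    ← O.O.valuation_le_one_iff, map_inv₀,
    inv_le_one₀ (zero_lt_iff.2 ((Valuation.ne_zero_iff _).2 h0))]

theorem xLW_ext {K L : Type} [Field K] [Field L] [Algebra K L] (h : FF K L 1) (x : L) {N : ℕ}
    (hN : 0 < N) : ∃ (L' : Type) (_ : Field L') (_ : Algebra K L') (ψ : L →ₐ[K] L') (w : L'),
      FF K L' 1 ∧ w ^ N = ψ x := by
  obtain ⟨ω, hω⟩ := IsAlgClosed.exists_pow_nat_eq (algebraMap L (AlgebraicClosure L) x) hN
  have hfin : FiniteDimensional L (IntermediateField.adjoin L {ω}) :=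
    IntermediateField.adjoin.finiteDimensional (Algebra.IsIntegral.isIntegral ω)
  refine ⟨IntermediateField.adjoin L {ω}, inferInstance, inferInstance,
    IsScalarTower.toAlgHom K L _, ⟨ω, IntermediateField.mem_adjoin_simple_self L ω⟩,
    FF.of_tower (b := 0) h ⟨inferInstance, by simpa using trdeg_eq_zero⟩, Subtype.ext hω⟩

theorem xLW {K : Type} [Field K] [IsAlgClosed K] (h1 : XAp K) (h2 : XUp K) : XLW K := by
  intro ι _ S e δ Λ hΛ hW L J _ _ _ σ u r hD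
  have hfin : {O : DV K L | ∃ j, O.ord (u j) ≠ 0}.Finite := by
    refine (Set.finite_iUnion fun j => fs_one hD.ff (u j)).subset fun O hO => ?_
    obtain ⟨j, hj⟩ := hO
    exact Set.mem_iUnion.2 ⟨j, hj⟩
  obtain ⟨x, x1, -, x2, -⟩ := h1 L hD.ff _ ∅ hfin Set.finite_empty (Set.disjoint_empty _)
  have x0 : x ≠ 0 := fun h => x1 (h ▸ isAlgebraic_zero)
  obtain ⟨L', _, _, ψ, w, hL', hw⟩ := xLW_ext hD.ff x (N := Fintype.card J + 2) (by omega)
  obtain ⟨d1, d2, d3⟩ := h2 ι S e δ L L' J σ u r ψ hL' hD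
  have ψ0 : ψ x ≠ 0 := (map_ne_zero ψ).2 x0
  have key := hW L' J _ _ r w d1 ⟨fun h => ψ0 (by rw [← hw, h, zero_pow (by omega)]),
    fun j O' hO' => ?_⟩
  · simp only [hΛ.ext L L' hD.ff hL' ψ, mul_left_comm (r _), ← Finset.mul_sum] at key
    exact (mul_eq_zero.1 key).resolve_left (by exact_mod_cast d2)
  obtain ⟨O, o1, o2, o3⟩ := d3 O'
  have a1 : O.ord x = 1 := x2 O ⟨j, fun h => hO' ((o2 _).2 h)⟩
  have a2 : Near O'.O (ψ x) (0 : K) := (o3 x 0).2 (by
    unfold Near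
    rw [map_zero, sub_zero, xLW_lt O x0, a1]
    exact one_pos)
  unfold Near at a2
  rw [map_zero, sub_zero, ← hw, map_pow] at a2
  refine ⟨(pow_lt_one_iff_of_nonneg zero_le (by omega)).1 a2, fun k p hp b => ?_⟩
  have a3 : O.O.valuation (σ k b - algebraMap K L (p b)) < 1 := (o3 _ _).1 (hp b)
  have a4 : (σ k b - algebraMap K L (p b)) / x ∈ O.O := by
    by_cases h0 : σ k b - algebraMap K L (p b) = 0
    · rw [h0, zero_div]
      exact zero_mem _
    · rw [← O.ord_nonneg_iff, O.ord_div h0 x0, a1]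
      have := (xLW_lt O h0).1 a3
      omega
  have a5 := (O'.O.valuation_le_one_iff _).2 ((o1 _).2 a4)
  rw [map_div₀, map_sub, AlgHom.commutes, map_div₀,
    div_le_one₀ (zero_lt_iff.2 ((Valuation.ne_zero_iff _).2 ψ0)), ← hw, map_pow] at a5
  exact a5

end Pool.Agent.MP_a9d3bd_gx
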