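import Pool.Agent.MP_a9d3bd_gx.St

namespace Pool.Agent.MP_a9d3bd_gx

open Polynomial in
theorem xLag_crt {K J : Type} [Field K] [Finite J] (κ α : J → K) (h : ∀ j k, κ j = κ k → α j = α k)
    (m : ℕ) : ∃ c : K[X], ∀ j, (Polynomial.X - Polynomial.C (κ j)) ^ m ∣ c - Polynomial.C (α j) := by
  obtain ⟨c, hc⟩ := Ideal.exists_forall_sub_mem_ideal (ι := Set.range κ)
    (I := fun k => Ideal.span {(Polynomial.X - Polynomial.C k.1 : K[X]) ^ m})
    (fun k l hkl => (Ideal.isCoprime_span_singleton_iff _ _).2
      (isCoprime_X_sub_C_of_isUnit_sub (sub_ne_zero.2 fun e => hkl (Subtype.ext e)).isUnit).pow)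
    fun k => Polynomial.C (α k.2.choose)
  refine ⟨c, fun j => ?_⟩
  have h1 := Ideal.mem_span_singleton.1 (hc ⟨κ j, j, rfl⟩)
  rwa [h _ j (Exists.choose_spec (⟨j, rfl⟩ : ∃ y, κ y = κ j))] at h1

open Polynomial in
theorem xLag_main {K : Type} [Field K] (L J : Type) [Field L] [Algebra K L] [Fintype J]
    [DecidableEq J] (V : ValuationSubring L) (hK : ∀ c : K, algebraMap K L c ∈ V) (w : L)
    (t a : J → L) (κ α : J → K) (hw : w ≠ 0) (hw1 : V.valuation w < 1)
    (hα : ∀ j k, κ j = κ k → α j = α k)
    (ht : ∀ j, V.valuation (t j - algebraMap K L (κ j)) ≤ V.valuation w)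
    (ha : ∀ j, V.valuation (a j - algebraMap K L (α j)) ≤ V.valuation w ^ Fintype.card J)
    (hd : ∀ j k, j ≠ k → V.valuation w ≤ V.valuation (t j - t k)) (n : ℕ) :
    (Lagrange.interpolate Finset.univ t a).coeff n ∈ V := by
  have w0 : 0 < V.valuation w := (Valuation.pos_iff _).2 hw
  have hne : ∀ j k, j ≠ k → t j - t k ≠ 0 := fun j k h e => by
    have := hd j k h
    rw [e, map_zero] at this
    exact w0.not_ge this
  have inj : Set.InjOn t (Finset.univ : Finset J) := fun j _ k _ e => by
    by_contra h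
    exact hne j k h (sub_eq_zero.2 e)
  have tV : ∀ j, t j ∈ V := fun j => by
    have := V.add_mem _ _ ((V.valuation_le_one_iff _).1 ((ht j).trans hw1.le)) (hK (κ j))
    rwa [sub_add_cancel] at this
  let G : Subring L[X] := (mapRingHom V.subtype).range
  have GC : ∀ z ∈ V, Polynomial.C z ∈ G := fun z hz => ⟨Polynomial.C ⟨z, hz⟩, by simp⟩
  have GX : Polynomial.X ∈ G := ⟨Polynomial.X, by simp⟩
  have eV : ∀ (q : K[X]) j, Polynomial.aeval (t j) q ∈ V := fun q j => by
    rw [Polynomial.aeval_eq_sum_range]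
    exact V.toSubring.sum_mem fun i _ => by
      rw [Algebra.smul_def]
      exact V.toSubring.mul_mem (hK _) (V.toSubring.pow_mem (tV j) _)
  obtain ⟨c, hc⟩ := xLag_crt κ α hα (Fintype.card J)
  have hb : ∀ j, V.valuation (a j - Polynomial.aeval (t j) c) ≤ V.valuation w ^ Fintype.card J := by
    intro j
    obtain ⟨q, hq⟩ := hc j
    have e := congrArg (Polynomial.aeval (t j)) hq
    simp only [map_sub, map_mul, map_pow, Polynomial.aeval_X, Polynomial.aeval_C] at e
    have e2 : a j - Polynomial.aeval (t j) c = (a j - algebraMap K L (α j)) -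
        (t j - algebraMap K L (κ j)) ^ Fintype.card J * Polynomial.aeval (t j) q := by
      linear_combination -e
    rw [e2]
    refine Valuation.map_sub_le _ (ha j) ?_
    rw [map_mul, map_pow]
    exact (mul_le_of_le_one_right' ((V.valuation_le_one_iff _).2 (eV q j))).trans
      (pow_le_pow_left' (ht j) _)
  have G1 : Lagrange.interpolate Finset.univ t (fun j => a j - Polynomial.aeval (t j) c) ∈ G := by
    rw [Lagrange.interpolate_apply]
    refine G.sum_mem fun j _ => ?_
    have hcard : Fintype.card J = (Finset.univ.erase j).card + 1 := by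
      rw [Finset.card_erase_add_one (Finset.mem_univ j), Finset.card_univ]
    have e : Polynomial.C (a j - Polynomial.aeval (t j) c) * Lagrange.basis Finset.univ t j =
        Polynomial.C ((a j - Polynomial.aeval (t j) c) / w ^ (Finset.univ.erase j).card) *
          ∏ k ∈ Finset.univ.erase j,
            (Polynomial.C (w / (t j - t k)) * (Polynomial.X - Polynomial.C (t k))) := by
      simp only [Lagrange.basis, Lagrange.basisDivisor, Finset.prod_mul_distrib, ← map_prod,
        ← mul_assoc, ← map_mul, div_eq_mul_inv, Finset.prod_const]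
      rw [mul_assoc _ _ (w ^ _), inv_mul_cancel₀ (pow_ne_zero _ hw), mul_one]
    rw [e]
    refine G.mul_mem (GC _ ?_) (G.prod_mem fun k hk =>
      G.mul_mem (GC _ ?_) (G.sub_mem GX (GC _ (tV k))))
    · rw [← V.valuation_le_one_iff, map_div₀, map_pow, div_le_one₀ (pow_pos w0 _)]
      refine (hb j).trans ?_
      rw [hcard, pow_succ]
      exact mul_le_of_le_one_right' hw1.le
    · have h := (Finset.mem_erase.1 hk).1.symm
      rw [← V.valuation_le_one_iff, map_div₀, div_le_one₀ (w0.trans_le (hd j k h))]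
      exact hd j k h
  have G2 : Lagrange.interpolate Finset.univ t (fun j => Polynomial.aeval (t j) c) ∈ G := by
    let φ : K →+* V := (algebraMap K L).codRestrict V hK
    have hm : (Lagrange.nodal Finset.univ fun j => (⟨t j, tV j⟩ : V)).Monic := Lagrange.nodal_monic
    have e1 : (Lagrange.nodal Finset.univ fun j => (⟨t j, tV j⟩ : V)).map V.subtype =
        Lagrange.nodal Finset.univ t := by
      simp [Lagrange.nodal, Polynomial.map_prod]
    refine ⟨c.map φ %ₘ Lagrange.nodal Finset.univ fun j => (⟨t j, tV j⟩ : V), ?_⟩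
    rw [coe_mapRingHom, map_modByMonic _ hm, e1, Polynomial.map_map]
    refine Lagrange.eq_interpolate_of_eval_eq _ inj ?_ fun j _ => ?_
    · rw [← Lagrange.degree_nodal (v := t)]
      exact degree_modByMonic_lt _ Lagrange.nodal_monic
    · rw [modByMonic_eq_sub_mul_div, Polynomial.eval_sub, Polynomial.eval_mul,
        Lagrange.eval_nodal_at_node (Finset.mem_univ j), zero_mul, sub_zero,
        Polynomial.eval_map, Polynomial.aeval_def]
      rfl
  have e : a = (fun j => a j - Polynomial.aeval (t j) c) + fun j => Polynomial.aeval (t j) c := by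
    funext j
    simp
  rw [e, map_add]
  obtain ⟨g, hg⟩ := G.add_mem G1 G2
  rw [← hg, coe_mapRingHom, Polynomial.coeff_map]
  exact (g.coeff n).2

theorem xLag {K : Type} [Field K] [IsAlgClosed K] : XLag K :=
  fun L J _ _ _ _ V hK w t a κ α hw hw1 hα ht ha hd n =>
    xLag_main L J V hK w t a κ α hw hw1 hα ht ha hd n

end Pool.Agent.MP_a9d3bd_gx
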