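import Pool.Agent.MP_a9d3bd_gx.St

namespace Pool.Agent.MP_a9d3bd_gx

open MvPolynomial Pool.Agent.MP_a9d3bd_q
open Pool.Agent.MP_a9d3bd_h (NZ lv EtL)
open Pool.Agent.MP_a9d3bd_yy (xA xL Dvs Pl Gal Near)
open Pool.Agent.MP_a9d3bd_x (LF GF Core)
open Pool.Agent.MP_a9d3bd_y (oe ev Bnd It Ur)

theorem xLam_one {K L : Type} [Field K] [Field L] [Algebra K L] (V : ValuationSubring L)
    (hV : ∀ c : K, algebraMap K L c ∈ V) {c : K} (hc : c ≠ 0) :
    V.valuation (algebraMap K L c) = 1 := by
  have h1 := (V.valuation_le_one_iff _).2 (hV c)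
  have h2 := (V.valuation_le_one_iff _).2 (hV c⁻¹)
  refine le_antisymm h1 ?_
  have h3 : V.valuation (algebraMap K L c) * V.valuation (algebraMap K L c⁻¹) = 1 := by
    rw [← map_mul, ← map_mul, mul_inv_cancel₀ hc, map_one, map_one]
  calc 1 = _ := h3.symm
    _ ≤ V.valuation (algebraMap K L c) * 1 := mul_le_mul_right h2 _
    _ = _ := mul_one _

theorem xLam_uniq {K L : Type} [Field K] [Field L] [Algebra K L] (V : ValuationSubring L)
    (hV : ∀ c : K, algebraMap K L c ∈ V) {z : L} {a b : K} (h1 : Near V z a) (h2 : Near V z b) :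
    a = b := by
  by_contra hne
  have h3 := xLam_one V hV (sub_ne_zero.2 hne)
  have h4 : algebraMap K L (a - b) = (z - algebraMap K L b) - (z - algebraMap K L a) := by
    rw [map_sub]
    ring
  rw [h4] at h3
  exact (Valuation.map_sub_lt _ h2 h1).ne h3

theorem xLam_loc {K L J : Type} [Field K] [Field L] [Algebra K L] (V : ValuationSubring L)
    (hV : ∀ c : K, algebraMap K L c ∈ V) {w : L} (hw : V.valuation w < 1) {t s : J → L}
    {κ c : J → K} (hc : Function.Injective c) (hs : ∀ k, V.valuation (s k) < V.valuation w)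
    (ht : ∀ k, t k = algebraMap K L (κ k) + (algebraMap K L (c k) * w + s k)) :
    (∀ k, V.valuation (t k - algebraMap K L (κ k)) ≤ V.valuation w) ∧
      ∀ j k, j ≠ k → V.valuation w ≤ V.valuation (t j - t k) := by
  have h1 : ∀ k, V.valuation (t k - algebraMap K L (κ k)) ≤ V.valuation w := fun k => by
    rw [ht, add_sub_cancel_left]
    refine Valuation.map_add_le _ ?_ (hs k).le
    rw [map_mul]
    exact mul_le_of_le_one_left' ((V.valuation_le_one_iff _).2 (hV _))
  refine ⟨h1, fun j k hjk => ?_⟩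
  by_cases h2 : κ j = κ k
  · have h3 : t j - t k = algebraMap K L (c j - c k) * w + (s j - s k) := by
      rw [ht, ht, h2, map_sub]
      ring
    have h4 : V.valuation (algebraMap K L (c j - c k) * w) = V.valuation w := by
      rw [map_mul, xLam_one V hV (sub_ne_zero.2 (hc.ne hjk)), one_mul]
    rw [h3, Valuation.map_add_eq_of_lt_left _ (by
      rw [h4]
      exact Valuation.map_sub_lt _ (hs j) (hs k)), h4]
  · have h3 : t j - t k = algebraMap K L (κ j - κ k) +
        ((t j - algebraMap K L (κ j)) - (t k - algebraMap K L (κ k))) := by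
      rw [map_sub]
      ring
    have h4 := xLam_one V hV (sub_ne_zero.2 h2)
    rw [h3, Valuation.map_add_eq_of_lt_left _ (by
      rw [h4]
      exact Valuation.map_sub_lt _ ((h1 j).trans_lt hw) ((h1 k).trans_lt hw)), h4]
    exact hw.le

theorem xLam {K : Type} [Field K] [IsAlgClosed K] (h1 : XLag K) : XLam K := by
  intro ι _ S e δ L J _ _ _ σ u r w hD hT hne
  classical
  let T : Set (DV K L) := {O | ∃ j, O.ord (u j) ≠ 0}
  have hfin : T.Finite := by
    refine (Set.finite_iUnion fun j => fs_one hD.ff (u j)).subset fun O hO => ?_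
    obtain ⟨j, hj⟩ := hO
    exact Set.mem_iUnion.2 ⟨j, hj⟩
  have : Finite T := hfin.to_subtype
  have hP : ∀ (O : T) (k : J), ∃ p, Nr O.1 (σ k) p := fun O k => by
    obtain ⟨j, hj⟩ := O.2
    exact hD.reg j k O.1 hj
  choose P hP using hP
  obtain ⟨f, hf⟩ := Module.exists_dual_forall_apply_ne_zero (K := K)
    (fun x : {x : T × J × J // P x.1 x.2.1 ≠ P x.1 x.2.2} => P x.1.1 x.1.2.1 - P x.1.1 x.1.2.2)
    fun x => sub_ne_zero.2 x.2
  let h : ι → K := fun b => f fun j => if b = j then 1 else 0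
  have hh : ∀ p, f p = ∑ b, p b * h b := fun p => by
    rw [LinearMap.pi_apply_eq_sum_univ]
    rfl
  let c : J ↪ K :=
    (Fintype.equivFin J).toEmbedding.trans (Fin.valEmbedding.trans (Infinite.natEmbedding K))
  let t : J → L := fun k => ∑ b, σ k b * algebraMap K L (h b) + algebraMap K L (c k) * w
  have hw0 : ∀ O : DV K L, O.O.valuation w ≠ 0 := fun O => (Valuation.ne_zero_iff _).2 hT.1
  have key : ∀ O : T, O.1.O.valuation w < 1 ∧
      (∀ k b, O.1.O.valuation (σ k b - algebraMap K L (P O k b)) ≤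
        O.1.O.valuation w ^ (Fintype.card J + 2)) ∧
      (∀ k, O.1.O.valuation (t k - algebraMap K L (f (P O k))) ≤ O.1.O.valuation w) ∧
      ∀ j k, j ≠ k → O.1.O.valuation w ≤ O.1.O.valuation (t j - t k) := by
    intro O
    obtain ⟨j, hj⟩ := O.2
    obtain ⟨a1, a2⟩ := hT.2 j O.1 hj
    refine ⟨a1, fun k => a2 k _ (hP O k), xLam_loc O.1.O O.1.const a1
      (s := fun k => ∑ b, (σ k b - algebraMap K L (P O k b)) * algebraMap K L (h b))
      c.injective (fun k => ?_) fun k => ?_⟩
    · refine Valuation.map_sum_lt _ (hw0 _) fun b _ => ?_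
      rw [map_mul]
      refine (mul_le_of_le_one_right' ((O.1.O.valuation_le_one_iff _).2 (O.1.const _))).trans_lt
        ((a2 k _ (hP O k) b).trans_lt ?_)
      exact pow_lt_self_of_lt_one₀ (zero_lt_iff.2 (hw0 _)) a1 (by omega)
    · simp only [t, hh, map_sum, map_mul, sub_mul, Finset.sum_sub_distrib]
      ring
  have hinj : Function.Injective t := by
    obtain ⟨j, O, hO⟩ := hne
    intro a b hab
    by_contra hc
    have := (key ⟨O, j, hO⟩).2.2.2 a b hc
    rw [hab, sub_self, map_zero] at this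
    exact hw0 O (le_zero_iff.1 this)
  refine ⟨t, fun b => Lagrange.interpolate Finset.univ t fun k => σ k b, fun j b =>
    Lagrange.eval_interpolate_at_node _ hinj.injOn (Finset.mem_univ j), fun j O hO => ?_⟩
  obtain ⟨a1, a2, a3, a4⟩ := key ⟨O, j, hO⟩
  refine ⟨fun k => ?_, fun b n => ?_, fun k k' p b1 b2 => ?_⟩
  · have h2 := (O.O.valuation_le_one_iff _).1 ((a3 k).trans a1.le)
    simpa using add_mem h2 (O.const (f (P ⟨O, j, hO⟩ k)))
  · refine h1 L J O.O O.const w t _ (fun k => f (P ⟨O, j, hO⟩ k)) (fun k => P ⟨O, j, hO⟩ k b) hT.1 a1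
      (fun k k' hk => ?_) a3 (fun k => (a2 k b).trans ?_) a4 n
    · by_contra hc
      refine hf ⟨(⟨O, j, hO⟩, k, k'), fun h2 => hc (congrFun h2 b)⟩ ?_
      rw [map_sub]
      exact sub_eq_zero.2 hk
    · exact pow_le_pow_right_of_le_one' a1.le (by omega)
  · have e1 : P ⟨O, j, hO⟩ k = p := funext fun b => xLam_uniq O.O O.const (hP ⟨O, j, hO⟩ k b) (b1 b)
    have e2 : P ⟨O, j, hO⟩ k' = p :=
      funext fun b => xLam_uniq O.O O.const (hP ⟨O, j, hO⟩ k' b) (b2 b)
    have b3 := a3 k
    have b4 := a3 k'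
    rw [e1] at b3
    rw [e2] at b4
    have h2 : t k - t k' = (t k - algebraMap K L (f p)) - (t k' - algebraMap K L (f p)) := by ring
    rw [h2]
    exact Valuation.map_sub_lt _ (b3.trans_lt a1) (b4.trans_lt a1)

end Pool.Agent.MP_a9d3bd_gx
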