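import Pool.Agent.MP_a9d3bd_gx.St
import Pool.Agent.MP_a9d3bd_yy.Ctr

/-! From the chart to projective coordinates. -/

namespace Pool.Agent.MP_a9d3bd_gx

open MvPolynomial Pool.Agent.MP_a9d3bd_q
open Pool.Agent.MP_a9d3bd_yy (Near sCtr_res sCtr_uniq sCtr_const sCtr_aeval sCtr_div)
open Pool.Agent.MP_a9d3bd_x (LF GF)

section
variable {K E ι : Type} [Field K] [Field E] [Algebra K E]

theorem xPF_ctr [IsAlgClosed K] [Fintype ι] (hE : FF K E 1) (O : DV K E) {y : ι → E}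
    (hy : y ≠ 0) : ∃ p : ι → K, p ≠ 0 ∧ Ct O y p := by
  obtain ⟨i₀, -⟩ := Function.ne_iff.1 hy
  have : Nonempty ι := ⟨i₀⟩
  obtain ⟨i, hi⟩ := Finite.exists_max fun i => O.O.valuation (y i)
  have hi0 : y i ≠ 0 := by
    intro h
    apply hy
    funext j
    have h1 := hi j
    rw [h, map_zero, le_zero_iff] at h1
    exact (Valuation.zero_iff _).1 h1
  have hv : O.O.valuation (y i) ≠ 0 := (Valuation.ne_zero_iff _).2 hi0
  have hm : ∀ j, (y i)⁻¹ * y j ∈ O.O := by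
    intro j
    rw [← O.O.valuation_le_one_iff, map_mul, map_inv₀, inv_mul_le_one₀ (zero_lt_iff.2 hv)]
    exact hi j
  choose p hp using fun j => sCtr_res hE O _ (hm j)
  refine ⟨p, fun h => ?_, (y i)⁻¹, hp⟩
  have h1 := hp i
  rw [inv_mul_cancel₀ hi0, ← map_one (algebraMap K E)] at h1
  have h2 := sCtr_uniq O.const h1 (sCtr_const 1)
  rw [h] at h2
  exact zero_ne_one h2

theorem xPF_on {S : Set (MvPolynomial ι K)} (hS : Homog S) {y : ι → E} (hy : On S y) (c : E) :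
    On S (c • y) := fun G hG => by
  obtain ⟨d, hd⟩ := hS G hG
  rw [aeval_smul_hom hd, hy G hG, mul_zero]

theorem xPF_onp {S : Set (MvPolynomial ι K)} (hS : Homog S) {O : DV K E} {y : ι → E}
    (hy : On S y) {p : ι → K} (h : Ct O y p) : On S p := fun G hG => by
  obtain ⟨c, hc⟩ := h
  have h1 := sCtr_aeval O.const _ p G hc
  rw [xPF_on hS hy c G hG, ← map_zero (algebraMap K E)] at h1
  exact sCtr_uniq O.const h1 (sCtr_const 0)

theorem xPF_nr {e : MvPolynomial ι K} (he : e.IsHomogeneous 1) {O : DV K E} {y : ι → E}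
    {p : ι → K} (h : Ct O y p) (hp : eval p e ≠ 0) :
    aeval y e ≠ 0 ∧ Nr O ((aeval y e)⁻¹ • y) ((eval p e)⁻¹ • p) := by
  obtain ⟨c, hc⟩ := h
  have h1 := sCtr_aeval O.const _ p e hc
  rw [aeval_smul_hom he, pow_one] at h1
  have h0 := (sCtr_div O.const h1 h1 hp).1
  refine ⟨right_ne_zero_of_mul h0, fun b => ?_⟩
  have h2 := (sCtr_div O.const (hc b) h1 hp).2
  rw [Pi.smul_apply, smul_eq_mul, mul_div_mul_left _ _ (left_ne_zero_of_mul h0),
    div_eq_inv_mul, div_eq_inv_mul] at h2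
  exact h2

end

theorem xPF {K : Type} [Field K] [IsAlgClosed K] : XPF K := by
  intro ι _ S Λ hS hΛ h J _ E _ _ y u r hE hcl
  rcases isEmpty_or_nonempty J with hJ | ⟨⟨j₀⟩⟩
  · exact Fintype.sum_empty _
  choose p hp0 hpC using fun j (O : DV K (E j)) => xPF_ctr (hE j).1 O (hE j).2.1
  have O₀ : ∀ j, DV K (E j) := fun j => (nonempty_dv (hE j).1).some
  obtain ⟨e, δ, he, hF, hT⟩ := h (⋃ j, p j '' insert (O₀ j) {O | O.ord (u j) ≠ 0})
    (Set.finite_iUnion fun j => ((fs_one (hE j).1 (u j)).insert _).image _)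
    ⟨_, Set.mem_iUnion.2 ⟨j₀, O₀ j₀, Set.mem_insert _ _, rfl⟩⟩ (by
      intro q hq
      obtain ⟨j, O, -, rfl⟩ := Set.mem_iUnion.1 hq
      exact ⟨hp0 j O, xPF_onp hS (hE j).2.2.1 (hpC j O)⟩)
  have h0 := fun j => hT _ (Set.mem_iUnion.2 ⟨j, O₀ j, Set.mem_insert _ _, rfl⟩)
  have h1 := fun j => xPF_nr he (hpC j (O₀ j)) (h0 j).1
  have h2 : ∀ j, aeval ((aeval (y j) e)⁻¹ • y j) e = 1 := fun j => by
    rw [aeval_smul_hom he, pow_one, inv_mul_cancel₀ (h1 j).1]
  have key := hF J E (fun j => (aeval (y j) e)⁻¹ • y j) u r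
    (fun j => ⟨(hE j).1, ⟨xPF_on hS (hE j).2.2.1 _, h2 j, ?_⟩, (hE j).2.2.2⟩)
    (fun j O hO => ?_) fun q => ?_
  · refine Eq.trans (Finset.sum_congr rfl fun j _ => ?_) key
    rw [hΛ.scale _ (hE j).1 _ _ _ (inv_ne_zero (h1 j).1)]
  · have h3 := sCtr_aeval (O₀ j).const _ _ δ (h1 j).2
    exact (sCtr_div (O₀ j).const h3 h3 (h0 j).2).1
  · have h3 := hT _ (Set.mem_iUnion.2 ⟨j, O, Set.mem_insert_of_mem _ hO, rfl⟩)
    exact ⟨_, (xPF_nr he (hpC j O) h3.1).2, h3.2⟩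
  · by_cases hq : eval q e = 1
    · have hq0 : q ≠ 0 := fun c => by
        have h3 : aeval ((0 : K) • q) e = 0 ^ 1 * aeval q e := aeval_smul_hom he 0 q
        rw [zero_smul, ← c, pow_one, zero_mul] at h3
        exact zero_ne_one (h3.symm.trans hq)
      refine Eq.trans (Finset.sum_congr rfl fun j _ => ?_) (hcl q hq0)
      congr 1
      refine finsum_congr fun O => ?_
      have h3 : Nr O ((aeval (y j) e)⁻¹ • y j) q ↔ Ct O (y j) q := ⟨fun c => ⟨_, c⟩, fun c => by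
        have h4 := (xPF_nr he c (by rw [hq]; exact one_ne_zero)).2
        rwa [hq, inv_one, one_smul] at h4⟩
      rw [h3]
    · refine Finset.sum_eq_zero fun j _ => ?_
      rw [finsum_eq_zero_of_forall_eq_zero, mul_zero]
      refine fun O => if_neg fun c => hq ?_
      have h3 := sCtr_aeval O.const _ _ e c
      rw [h2, ← map_one (algebraMap K (E j))] at h3
      exact sCtr_uniq O.const h3 (sCtr_const 1)

end Pool.Agent.MP_a9d3bd_gx
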