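import Pool.Agent.MP_a9d3bd_gx.St
import Pool.Agent.MP_a9d3bd_yy.Ctr
import Pool.Agent.MP_a9d3bd_yy.Ring
import Pool.Agent.MP_a9d3bd_yy.Pl
import Pool.Agent.MP_a9d3bd_yy.Dv

namespace Pool.Agent.MP_a9d3bd_gx

open MvPolynomial Pool.Agent.MP_a9d3bd_q
open Pool.Agent.MP_a9d3bd_yy (xA xL Dvs Pl Gal Near)
open Pool.Agent.MP_a9d3bd_x (LF GF Core)

theorem xWS_grp {J P T : Type} [Fintype J] [DecidableEq T] (f : J → P) (g : J → T) (c : J → ℚ)
    (h : ∀ j k, f j = f k → g j = g k)
    (h0 : ∀ p, ∑ j, (open Classical in if f j = p then c j else 0) = 0) (t0 : T) :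
    ∑ j, (if g j = t0 then c j else 0) = 0 := by
  classical
  rw [← Finset.sum_fiberwise_of_maps_to (s := Finset.univ) (t := Finset.univ.image f) (g := f)
    (fun j hj => Finset.mem_image_of_mem _ hj)]
  refine Finset.sum_eq_zero fun p hp => ?_
  obtain ⟨k, -, rfl⟩ := Finset.mem_image.1 hp
  by_cases hk : g k = t0
  · refine Eq.trans ?_ (h0 (f k))
    rw [Finset.sum_filter]
    refine Finset.sum_congr rfl fun j _ => ?_
    by_cases hj : f j = f k
    · simp [hj, (h j k hj).trans hk]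
    · simp [hj]
  · refine Finset.sum_eq_zero fun j hj => if_neg fun h1 => hk ?_
    rw [← h j k (Finset.mem_filter.1 hj).2, h1]

variable {K ι : Type} [Field K]

theorem xWS_const {S : Set (MvPolynomial ι K)} {Λ : LF K ι} {E : Type} [Field E] [Algebra K E]
    {y : ι → E} (h : GF S Λ) (halg : ∀ c : K, c ≠ 0 → ∃ n, 0 < n ∧ c ^ n = 1) (hE : FF K E 1)
    (hy : y ≠ 0) (hO : On S y) {c : K} (hc : c ≠ 0) : Λ E y (algebraMap K E c) = 0 := by
  have hk : algebraMap K E c ≠ 0 := (_root_.map_ne_zero _).2 hc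
  have h1 : ∀ n : ℕ, Λ E y (algebraMap K E c ^ (n + 1)) = (n + 1) * Λ E y (algebraMap K E c) := by
    intro n
    induction n with
    | zero => simp
    | succ n ih => rw [pow_succ, h.mul E hE y _ _ hy hO (pow_ne_zero _ hk) hk, ih]; push_cast; ring
  obtain ⟨n, hn, h2⟩ := halg c hc
  have h4 := h1 n
  rw [pow_succ, ← map_pow, h2, map_one, one_mul] at h4
  have h5 : (n : ℚ) * Λ E y (algebraMap K E c) = 0 := by linarith
  exact (mul_eq_zero.1 h5).resolve_left (by exact_mod_cast hn.ne')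

theorem xWS_pole {L : Type} [Field L] [Algebra K L] (hL : FF K L 1) (z : L) :
    {O : DV K L | z ∉ O.O}.Finite :=
  (fs_one hL z).subset fun O hO => ((O.ord_neg_iff z).2 hO).ne

theorem xWS [IsAlgClosed K] (h1 : XAp K) (h2 : XUp K) (h3 : XLam K) : XWS K := by
  classical
  intro halg ι _ S e δ Λ he hΛ hS L J _ _ _ σ u r w hD hT
  by_cases hsup : ∃ j, ∃ O : DV K L, O.ord (u j) ≠ 0
  swap
  · refine Finset.sum_eq_zero fun j _ => ?_
    have ha : IsAlgebraic K (u j) := by
      by_contra hn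
      obtain ⟨O, hO⟩ := exists_ord_pos hD.ff hn
      exact hsup ⟨j, O, hO.ne'⟩
    obtain ⟨c, hc⟩ := minpoly.mem_range_of_degree_eq_one K (u j)
      (IsAlgClosed.degree_eq_one_of_irreducible K (minpoly.irreducible ha.isIntegral))
    have hσ : σ j ≠ 0 := fun h0 => by
      have e1 := (hD.ok j).1.2.1
      have e2 := aeval_smul_hom he (0 : L) (σ j)
      rw [h0, smul_zero, ← h0, e1] at e2
      simp at e2
    rw [← hc, xWS_const hΛ halg hD.ff hσ (hD.ok j).1.1 (fun h0 => (hD.ok j).2 (by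
      rw [← hc, h0, map_zero])), mul_zero]
  obtain ⟨t, C, hC, hO⟩ := h3 ι S e δ L J σ u r w hD hT hsup
  have f0 : {O : DV K L | ∃ j, O.ord (u j) ≠ 0}.Finite := by
    simpa only [Set.ofPred_exists] using Set.finite_iUnion fun j => fs_one hD.ff (u j)
  have f1 : {O : DV K L | (∃ k, t k ∉ O.O) ∨ ∃ b n, (C b).coeff n ∉ O.O}.Finite := by
    refine ((Set.finite_iUnion fun k => xWS_pole hD.ff (t k)).union
      (Set.finite_iUnion fun b => (C b).support.finite_toSet.biUnion
        fun n _ => xWS_pole hD.ff ((C b).coeff n))).subset ?_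
    rintro O (⟨k, hk⟩ | ⟨b, n, hn⟩)
    · exact Or.inl (Set.mem_iUnion.2 ⟨k, hk⟩)
    · refine Or.inr (Set.mem_iUnion.2 ⟨b, Set.mem_biUnion (x := n) ?_ hn⟩)
      exact Finset.mem_coe.2 (Polynomial.mem_support_iff.2 fun h0 => hn (h0 ▸ zero_mem _))
  obtain ⟨x, x1, x2, x3, x4⟩ := h1 L hD.ff _ _ f0 f1 (Set.disjoint_left.2 (by
    rintro O ⟨j, hj⟩ (⟨k, hk⟩ | ⟨b, n, hn⟩)
    · exact hk ((hO j O hj).1 k)
    · exact hn ((hO j O hj).2.1 b n)))
  obtain ⟨A, _, _, _, _, _, _, _, hG, hF, ψ', hψ'⟩ := MP_a9d3bd_yy.sRing (K := K) Unit (fun _ => L)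
    (fun _ => x) (fun _ => hD.ff) (fun _ => x1) (fun _ => x2)
  obtain ⟨ψ, hψ⟩ : ∃ ψ : L →ₐ[K] FractionRing A, ψ x = xL K A := ⟨ψ' (), hψ' ()⟩
  obtain ⟨hD', hd, hup⟩ := h2 ι S e δ L (FractionRing A) J σ u r ψ hF hD
  have hc := MP_a9d3bd_yy.sCtr (K := K)
  obtain ⟨p1, -, -, -, -, p6⟩ := MP_a9d3bd_yy.sPl hc A hF
  have inj : Function.Injective (algebraMap A (FractionRing A)) := IsFractionRing.injective _ _
  have lift : ∀ z : L, (∀ O : DV K L, x ∈ O.O → z ∈ O.O) → ∃ a : A, algebraMap A _ a = ψ z := by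
    intro z hz
    refine p6 _ fun O' hO' => ?_
    obtain ⟨O, q1, -⟩ := hup O'
    exact (q1 z).2 (hz O ((q1 x).1 (hψ ▸ hO')))
  choose tA htA using fun k => lift (t k) fun O hx => by
    by_contra hn
    exact x4 O (Or.inl ⟨k, hn⟩) hx
  have lC : ∀ b, ∃ D : Polynomial A, D.map (algebraMap A (FractionRing A)) =
      (C b).map (ψ : L →+* FractionRing A) := fun b => by
    refine (Polynomial.mem_lifts _).1 ((Polynomial.lifts_iff_coeff_lifts _).2 fun n => ?_)
    rw [Polynomial.coeff_map]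
    exact lift _ fun O hx => by
      by_contra hn
      exact x4 O (Or.inr ⟨b, n, hn⟩) hx
  choose CA hCA using lC
  have e1 : ∀ j b, algebraMap A (FractionRing A) ((CA b).eval (tA j)) = ψ (σ j b) := by
    intro j b
    rw [← Polynomial.eval₂_at_apply, ← Polynomial.eval_map, hCA, htA, ← hC j b, Polynomial.eval_map]
    exact Polynomial.eval₂_at_apply (ψ : L →+* FractionRing A) (t j)
  have e2 : ∀ j (G : MvPolynomial ι K), algebraMap A (FractionRing A)
      (aeval (fun b => (CA b).eval (tA j)) G) = aeval (fun b => ψ (σ j b)) G := by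
    intro j G
    have := congrArg (fun φ => φ G) (comp_aeval (R := K) (fun b => (CA b).eval (tA j))
      (IsScalarTower.toAlgHom K A (FractionRing A)))
    simpa only [AlgHom.comp_apply, IsScalarTower.toAlgHom_apply, e1] using this
  choose ν hν using fun j => MP_a9d3bd_yy.sDv (MP_a9d3bd_yy.sPl hc) hc A hF (ψ (u j))
    (hD'.ok j).2 fun O' hO' => by
      obtain ⟨O, q1, q2, -⟩ := hup O'
      refine (q2 _).2 ?_
      by_contra hn
      exact hO' (hψ ▸ (q1 x).2 ((O.ord_nonneg_iff x).1 (by rw [x3 O ⟨j, hn⟩]; exact zero_le_one)))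
  have nr : ∀ (β : A →ₐ[K] K) O', Pl β O' → ∀ j,
      Nr O' (fun b => ψ (σ j b)) fun b => β ((CA b).eval (tA j)) := fun β O' h j b => by
    have := h ((CA b).eval (tA j))
    rwa [e1] at this
  have key := hS A hG hF J CA tA (fun j => ψ (u j)) ν r
    (fun j => ⟨⟨fun G hG => inj (by rw [e2, map_zero]; exact (hD'.ok j).1.1 G hG),
      inj (by rw [e2, map_one]; exact (hD'.ok j).1.2.1),
      fun h0 => (hD'.ok j).1.2.2 (by rw [← e2, h0, map_zero])⟩, (hν j).1⟩)
    (fun j β hβ => by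
      obtain ⟨O', hp⟩ := p1 β
      have q := hD'.good j O' _ (by
        rw [← (hν j).2.2.1 β O' hp]; exact Finsupp.mem_support_iff.1 hβ) (nr β O' hp j)
      have := congrArg (fun φ => φ δ) (comp_aeval (R := K) (fun b => (CA b).eval (tA j)) β)
      simp only [AlgHom.comp_apply] at this
      rw [this]
      exact q)
    (fun β t0 => by
      obtain ⟨O', hp⟩ := p1 β
      obtain ⟨-, -, un, -⟩ := hc _ hF O'
      by_cases hz : ∀ j, O'.ord (ψ (u j)) = 0
      · exact Finset.sum_eq_zero fun j _ => by simp [(hν j).2.2.1 β O' hp, hz j]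
      obtain ⟨j0, hj0⟩ := not_forall.1 hz
      obtain ⟨O, -, q2, q3⟩ := hup O'
      refine xWS_grp (fun j b => β ((CA b).eval (tA j))) (fun j => β (tA j))
        (fun j => r j * (ν j β : ℚ)) (fun k k' hk => ?_) (fun p => ?_) t0
      · have a1 : Near O.O (t k - t k') (0 : K) := by
          have := (hO j0 O fun h0 => hj0 ((q2 _).2 h0)).2.2 k k' _
            (fun b => (q3 _ _).1 (nr β O' hp k b))
            (fun b => (q3 _ _).1 (by rw [congrFun hk b]; exact nr β O' hp k' b))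
          simpa [Near] using this
        have a2 := hp (tA k - tA k')
        rw [map_sub, htA, htA, ← map_sub] at a2
        have := un _ _ _ a2 ((q3 _ _).2 a1)
        rwa [map_sub, sub_eq_zero] at this
      · refine Eq.trans (Finset.sum_congr rfl fun j _ => ?_) (hD'.cl O' p)
        rw [(hν j).2.2.1 β O' hp]
        have q : ((fun b => β ((CA b).eval (tA j))) = p) ↔ Nr O' (fun b => ψ (σ j b)) p := by
          refine ⟨fun h b => ?_, fun h => funext fun b => ?_⟩
          · rw [← congrFun h b]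
            exact nr β O' hp j b
          · exact un (ψ (σ j b)) _ _ (nr β O' hp j b) (h b)
        simp only [q])
  simp only [e1, hΛ.ext L _ hD.ff hF ψ] at key
  have e3 : (hdeg ψ : ℚ) * ∑ j, r j * Λ L (σ j) (u j) = 0 := by
    rw [Finset.mul_sum, ← key]
    exact Finset.sum_congr rfl fun j _ => by ring
  exact (mul_eq_zero.1 e3).resolve_left (by exact_mod_cast hd)

end Pool.Agent.MP_a9d3bd_gx
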