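import Pool.Agent.MP_a9d3bd_gx.LoSt
import Pool.Agent.MP_a9d3bd_gx.PF
import Pool.Agent.MP_a9d3bd_gx.Cl
import Pool.Agent.MP_a9d3bd_gx.WS

namespace Pool.Agent.MP_a9d3bd_gx

open MvPolynomial Pool.Agent.MP_a9d3bd_q
open Pool.Agent.MP_a9d3bd_x (LF GF Core)

variable {K : Type} [Field K] {ι : Type} [Fintype ι] [DecidableEq ι]
  {S : Set (MvPolynomial ι K)} {d : ℕ}

theorem loA_uniq (h3 : LU1 K) (h4 : LU2 K) (hd : d ≤ 1) (hS : MP_a9d3bd_h.Sm S d) {E : Type}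
    [Field E] [Algebra K E] (hE : FF K E 1) {y : ι → E} (hy : On S y) (ht : kf K y = ⊤)
    {p : ι → K} (hp : p ≠ 0) {O O' : DV K E} (h : Ct O y p) (h' : Ct O' y p) : O = O' := by
  obtain ⟨b₀, i, hb, hs⟩ := h3 ι S d hS hd p hp (xPF_onp hS.hom hy h)
  have he : eval p (X b₀ : MvPolynomial ι K) ≠ 0 := by simpa using hb
  have h0 : y b₀ ≠ 0 := by simpa using (xPF_nr (isHomogeneous_X K b₀) h he).1
  have hc : algebraMap K E (p b₀) * (y b₀)⁻¹ ≠ 0 :=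
    mul_ne_zero ((_root_.map_ne_zero _).2 hb) (inv_ne_zero h0)
  have nr : ∀ O : DV K E, Ct O y p → Nr O ((algebraMap K E (p b₀) * (y b₀)⁻¹) • y) p := by
    intro O h b
    have := MP_a9d3bd_yy.sCtr_aeval O.const _ _ (C (p b₀) * X b)
      (xPF_nr (isHomogeneous_X K b₀) h he).2
    simpa [mul_assoc, mul_inv_cancel_left₀ hb] using this
  refine h4 ι E hE _ p i (top_le_iff.1 ?_) (hs E _ (xPF_on hS.hom hy _) ?_) O O' (nr O h) (nr O' h')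
  · rw [← ht, ← kf_smul hc y]
    exact kf_le_af _
  · simp [mul_assoc, inv_mul_cancel₀ h0]

theorem loA [IsAlgClosed K] (h1 : LNm K) (h2 : LGn K) (h3 : LU1 K) (h4 : LU2 K) (h5 : LFn K)
    (halg : ∀ c : K, c ≠ 0 → ∃ n, 0 < n ∧ c ^ n = 1) (hd : d ≤ 1) (hS : MP_a9d3bd_h.Sm S d)
    (hp : (Ideal.span S).radical.IsPrime) {Λ : LF K ι} (hΛ : GF S Λ) : CoreP S Λ := by
  classical
  intro J _ E _ _ y u r hE hcl
  by_cases hn : ∃ j, ND K (y j)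
  swap
  · exact Finset.sum_eq_zero fun j _ => by
      rw [hΛ.degen _ (hE j).1 _ _ fun h => hn ⟨j, h⟩, mul_zero]
  obtain ⟨j₀, hj₀⟩ := hn
  obtain ⟨a, ha⟩ := Function.ne_iff.1 (hE j₀).2.1
  obtain ⟨y₀, t₀, a₀, e₀⟩ := exists_kf_top (k := K) (y := y j₀) (i := a) ha
  have hF : FF K (kf K (y j₀)) 1 := by
    have := (hE j₀).1.sub _ (kf_fg (k := K) (y j₀))
    rwa [(nd_iff (hE j₀).1 _).1 hj₀] at this
  have n₀ : y₀ ≠ 0 := fun h => by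
    rw [h] at a₀
    exact zero_ne_one a₀
  have o₀ : On S y₀ := (on_map (kf K (y j₀)).val S y₀).1
    ((on_smul hS.hom ha _).1 (by have := (hE j₀).2.2.1; rwa [e₀] at this))
  have key : ∀ j, ∃ (v : kf K (y j₀)) (c : ℚ), v ≠ 0 ∧ ∀ Ψ : LF K ι, EM Ψ y₀ →
      (∀ (c : E j) (z : ι → E j), c ≠ 0 → Ψ (E j) (c • z) (u j) = Ψ (E j) z (u j)) →
      (¬ ND K (y j) → Ψ (E j) (y j) (u j) = 0) → Ψ (E j) (y j) (u j) = c * Ψ _ y₀ v := by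
    intro j
    by_cases hj : ND K (y j)
    · obtain ⟨ψ, c, hc, e⟩ := exists_hom_p n₀ t₀
        (h2 ι S d hS hd hp _ _ hF (hE j).1 y₀ (y j) o₀ (hE j).2.2.1 (nd_of_top t₀) hj)
      obtain ⟨v, γ, hv, h⟩ := h1 ι _ _ hF (hE j).1 ψ y₀ (u j) (hE j).2.2.2
      exact ⟨v, γ, hv, fun Ψ b1 b2 _ => by rw [e, b2 _ _ hc, h Ψ b1]⟩
    · exact ⟨1, 0, one_ne_zero, fun Ψ _ _ b3 => by rw [b3 hj, zero_mul]⟩
  choose v c hv hk using key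
  have em : EM Λ y₀ := ⟨hΛ.ext, fun L _ _ hL χ s t hs ht =>
    hΛ.mul L hL _ s t ((map_ne_zero_pt χ y₀).2 n₀) ((on_map χ S y₀).2 o₀) hs ht⟩
  rw [Finset.sum_congr rfl fun j _ => by
    rw [hk j Λ em (fun c z hc => hΛ.scale _ (hE j).1 c z _ hc) (hΛ.degen _ (hE j).1 _ _),
      ← mul_assoc]]
  refine h5 _ J hF _ (fun s t hs ht => hΛ.mul _ hF _ s t n₀ o₀ hs ht)
    (fun c hc => xWS_const hΛ halg hF n₀ o₀ hc) v _ hv fun O => ?_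
  obtain ⟨p, hp0, hO⟩ := xPF_ctr hF O n₀
  obtain ⟨Φ, hΦ, hD⟩ : ∃ Φ : Raw K ι, IsPre 0 Φ ∧ ∀ (L : Type) [Field L] [Algebra K L]
      (z : ι → L) (w : L), z ≠ 0 →
      Dv Φ L z w = ∑ᶠ O : DV K L, if Ct O z p then (O.ord w : ℚ) else 0 :=
    ⟨_, xCl_pre p, fun L _ _ z w hz => finsum_congr fun O => by
      rw [mul_ite, mul_one, mul_zero]
      exact if_congr (xCl_ctr O hz p) rfl rfl⟩
  refine Eq.trans (Finset.sum_congr rfl fun j _ => ?_) (hcl p hp0)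
  rw [← hD _ _ _ (hE j).2.1, hk j (fun L _ _ z w => Dv Φ L z w)
    ⟨fun _ _ _ _ _ _ b1 b2 ψ z w => Dv_ext hΦ b1 b2 ψ z w,
      fun _ _ _ hL χ s t hs ht => Dv_mul hΦ hL _ hs ht⟩
    (fun c z hc => Dv_smul hΦ (hE j).1 hc z _) (fun h => dv_degen hΦ (hE j).1 h _),
    hD _ _ _ n₀, finsum_eq_single _ O fun O' hO' =>
      if_neg fun h => hO' (loA_uniq h3 h4 hd hS hF o₀ t₀ hp0 h hO), if_pos hO, mul_assoc]

end Pool.Agent.MP_a9d3bd_gx
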