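import Pool.Agent.MP_a9d3bd_gx.LoSt

/-! Functions with trivial divisor. -/

namespace Pool.Agent.MP_a9d3bd_gx

open MvPolynomial Pool.Agent.MP_a9d3bd_q
open Pool.Agent.MP_a9d3bd_x (LF GF Core)

section
variable {E : Type} [Field E] {φ : E → ℚ}
  (h : ∀ u v, u ≠ 0 → v ≠ 0 → φ (u * v) = φ u + φ v)
include h

theorem lFn_one : φ 1 = 0 := by
  have := h 1 1 one_ne_zero one_ne_zero
  rw [one_mul] at this
  linarith

theorem lFn_pow {u : E} (hu : u ≠ 0) (n : ℕ) : φ (u ^ n) = n * φ u := by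
  induction n with
  | zero => simp [lFn_one h]
  | succ n ih =>
    rw [pow_succ, h _ _ (pow_ne_zero n hu) hu, ih]
    push_cast
    ring

theorem lFn_zpow {u : E} (hu : u ≠ 0) (n : ℤ) : φ (u ^ n) = n * φ u := by
  obtain ⟨m, rfl | rfl⟩ := Int.eq_nat_or_neg n
  · rw [zpow_natCast, lFn_pow h hu, Int.cast_natCast]
  · have e := h _ _ (pow_ne_zero m hu) (inv_ne_zero (pow_ne_zero m hu))
    rw [mul_inv_cancel₀ (pow_ne_zero m hu), lFn_one h, lFn_pow h hu] at e
    rw [zpow_neg, zpow_natCast, Int.cast_neg, Int.cast_natCast]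
    linarith

theorem lFn_prod {J : Type} (s : Finset J) (f : J → E) (hf : ∀ j, f j ≠ 0) :
    φ (∏ j ∈ s, f j) = ∑ j ∈ s, φ (f j) := by
  classical
  induction s using Finset.induction_on with
  | empty => simp [lFn_one h]
  | insert a s ha ih =>
    rw [Finset.prod_insert ha, Finset.sum_insert ha,
      h _ _ (hf a) (Finset.prod_ne_zero_iff.2 fun j _ => hf j), ih]

end

theorem lFn_den {J : Type} [Fintype J] (s : J → ℚ) :
    ∃ (m : ℚ) (n : J → ℤ), m ≠ 0 ∧ ∀ j, (n j : ℚ) = m * s j := by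
  classical
  refine ⟨∏ j, ((s j).den : ℚ), fun j => (∏ k ∈ Finset.univ.erase j, ((s k).den : ℤ)) * (s j).num,
    Finset.prod_ne_zero_iff.2 fun j _ => Nat.cast_ne_zero.2 (s j).den_nz, fun j => ?_⟩
  rw [← Finset.prod_erase_mul _ _ (Finset.mem_univ j), mul_assoc, Rat.den_mul_eq_num]
  push_cast
  rfl

theorem lFn {K : Type} [Field K] [IsAlgClosed K] : LFn K := by
  intro E J _ _ _ hE φ h hc v s hv h0
  obtain ⟨m, n, hm, hn⟩ := lFn_den s
  have hv' : ∀ j, v j ^ n j ≠ 0 := fun j => zpow_ne_zero _ (hv j)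
  have hV : ∏ j, v j ^ n j ≠ 0 := Finset.prod_ne_zero_iff.2 fun j _ => hv' j
  have ha : IsAlgebraic K (∏ j, v j ^ n j) := by
    by_contra ht
    obtain ⟨O, hO⟩ := exists_ord_pos hE ht
    rw [O.ord_prod _ _ fun j _ => hv' j] at hO
    have e : ((∑ j, O.ord (v j ^ n j) : ℤ) : ℚ) = m * ∑ j, s j * (O.ord (v j) : ℚ) := by
      rw [Finset.mul_sum, Int.cast_sum]
      refine Finset.sum_congr rfl fun j _ => ?_
      rw [O.ord_zpow, Int.cast_mul, hn, mul_assoc]
    rw [h0 O, mul_zero] at e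
    exact hO.ne' (Int.cast_eq_zero.1 e)
  obtain ⟨c, hc'⟩ := minpoly.mem_range_of_degree_eq_one K _
    (IsAlgClosed.degree_eq_one_of_irreducible K (minpoly.irreducible ha.isIntegral))
  have hc0 : c ≠ 0 := fun e => hV (by rw [← hc', e, map_zero])
  have e := hc c hc0
  rw [hc', lFn_prod h _ _ hv'] at e
  refine (mul_eq_zero.1 ?_).resolve_left hm
  rw [Finset.mul_sum, ← e]
  refine Finset.sum_congr rfl fun j _ => ?_
  rw [lFn_zpow h (hv j), hn, mul_assoc]

end Pool.Agent.MP_a9d3bd_gx
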