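import Pool.Agent.MP_a9d3bd_gx.LoSt

/-! One generic point. -/

namespace Pool.Agent.MP_a9d3bd_gx

open MvPolynomial Pool.Agent.MP_a9d3bd_q
open Pool.Agent.MP_a9d3bd_x (LF GF Core)

theorem lGn_ne {K ι E : Type} [Field K] [Field E] [Algebra K E] (hE : FF K E 1) {y : ι → E}
    (hy : ND K y) : y ≠ 0 := by
  rintro rfl
  have h1 := (nd_iff hE _).1 hy
  rw [kf_zero, td_bot] at h1
  exact absurd h1 (by omega)

theorem lGn_eq {K ι : Type} [Field K] [Fintype ι] [DecidableEq ι] {S : Set (MvPolynomial ι K)}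
    {d : ℕ} (hS : MP_a9d3bd_h.Sm S d) (hd : d ≤ 1) (hp : (Ideal.span S).radical.IsPrime)
    {E : Type} [Field E] [Algebra K E] (hE : FF K E 1) {y : ι → E} (ho : On S y) (hy : ND K y) :
    hk K y = ⟨(Ideal.span S).radical, hp⟩ := by
  have h1 : (⟨(Ideal.span S).radical, hp⟩ : PrimeSpectrum (MvPolynomial ι K)) ≤ hk K y :=
    (hk K y).isPrime.radical_le_iff.2 (Ideal.span_le.2 ((on_iff_hk hS.hom y).1 ho))
  have h2 : ptd (hk K y) = 2 := by rw [ptd_hk (lGn_ne hE hy), (nd_iff hE y).1 hy]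
  have h3 : ptd (⟨(Ideal.span S).radical, hp⟩ : PrimeSpectrum (MvPolynomial ι K)) ≤ d + 1 :=
    hS.le (MP_a9d3bd_h.Smo_on.2 fun f hf => Ideal.le_radical (Ideal.subset_span hf))
  exact (eq_of_ptd h1 (by omega)).symm

theorem lGn {K : Type} [Field K] [IsAlgClosed K] : LGn K := by
  intro ι _ _ S d hS hd hp E E' _ _ _ _ hE hE' y y' ho ho' hy hy'
  rw [lGn_eq hS hd hp hE ho hy, lGn_eq hS hd hp hE' ho' hy']

end Pool.Agent.MP_a9d3bd_gx
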