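import Pool.Agent.MP_a9d3bd_gx.LoSt

namespace Pool.Agent.MP_a9d3bd_gx

open MvPolynomial Pool.Agent.MP_a9d3bd_q
open Pool.Agent.MP_a9d3bd_x (LF GF Core)

theorem lNm_prod {L : Type} [Field L] (φ : L → ℚ)
    (h : ∀ u v, u ≠ 0 → v ≠ 0 → φ (u * v) = φ u + φ v) (c : ℚ) (s : Multiset L)
    (hs : ∀ r ∈ s, r ≠ 0 ∧ φ r = c) : φ s.prod = s.card * c := by
  induction s using Multiset.induction_on with
  | empty =>
    have := h 1 1 one_ne_zero one_ne_zero
    rw [mul_one] at this
    simp only [Multiset.prod_zero, Multiset.card_zero, Nat.cast_zero, zero_mul]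
    linarith
  | cons a s ih =>
    have h1 := hs a (Multiset.mem_cons_self _ _)
    have h2 : ∀ r ∈ s, r ≠ 0 ∧ φ r = c := fun r hr => hs r (Multiset.mem_cons_of_mem hr)
    rw [Multiset.prod_cons, h _ _ h1.1 (Multiset.prod_ne_zero fun h0 => (h2 0 h0).1 rfl), h1.2,
      ih h2, Multiset.card_cons]
    push_cast
    ring

theorem lNm_normal {K ι E L : Type} [Field K] [Field E] [Algebra K E] [Field L] [Algebra K L]
    (hE : FF K E 1) [Algebra E L] [IsScalarTower K E L] [FiniteDimensional E L] [Normal E L]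
    (y : ι → E) {g : L} (hg : g ≠ 0) : ∃ (v : E) (c : ℚ), v ≠ 0 ∧ ∀ Ψ : LF K ι, EM Ψ y →
      Ψ L (fun i => algebraMap E L (y i)) g = c * Ψ E y v := by
  have hL : FF K L 1 := hE.of_finite (IsScalarTower.toAlgHom K E L)
    (by rw [hdeg_tower]; exact Module.finrank_pos.ne')
  have hi : IsIntegral E g := IsIntegral.of_finite E g
  have hm : ((minpoly E g).map (algebraMap E L)).Monic := (minpoly.monic hi).map _
  have hs : ((minpoly E g).map (algebraMap E L)).Splits := Normal.splits inferInstance g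
  have hroot : ∀ r ∈ ((minpoly E g).map (algebraMap E L)).roots, ∃ σ : L ≃ₐ[E] L, σ g = r := by
    intro r hr
    refine minpoly.exists_algEquiv_of_root' hi.isAlgebraic ?_
    have h1 := (Polynomial.mem_roots hm.ne_zero).1 hr
    rwa [Polynomial.IsRoot.def, Polynomial.eval_map_algebraMap] at h1
  have hn : ((minpoly E g).natDegree : ℚ) ≠ 0 := Nat.cast_ne_zero.2 (minpoly.natDegree_pos hi).ne'
  have hv : algebraMap E L ((-1) ^ (minpoly E g).natDegree * (minpoly E g).coeff 0) =
      ((minpoly E g).map (algebraMap E L)).roots.prod := by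
    rw [map_mul, ← Polynomial.coeff_map, hs.coeff_zero_eq_prod_roots_of_monic hm,
      (minpoly.monic hi).natDegree_map, map_pow, map_neg, map_one, ← mul_assoc, ← mul_pow]
    simp
  refine ⟨(-1) ^ (minpoly E g).natDegree * (minpoly E g).coeff 0,
    hdeg (IsScalarTower.toAlgHom K E L) / (minpoly E g).natDegree,
    mul_ne_zero (pow_ne_zero _ (neg_ne_zero.2 one_ne_zero)) (minpoly.coeff_zero_ne_zero hi hg),
    fun Ψ hΨ => ?_⟩
  have hσ : ∀ σ : L ≃ₐ[E] L, Ψ L (fun i => algebraMap E L (y i)) (σ g) =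
      Ψ L (fun i => algebraMap E L (y i)) g := by
    intro σ
    have h1 := hΨ.ext L L hL hL ((σ : L →ₐ[E] L).restrictScalars K)
      (fun i => algebraMap E L (y i)) g
    rw [hdeg_eq_one (AlgHom.fieldRange_eq_top.2 σ.surjective)] at h1
    simpa using h1
  have h0 := hΨ.ext E L hE hL (IsScalarTower.toAlgHom K E L) y
    ((-1) ^ (minpoly E g).natDegree * (minpoly E g).coeff 0)
  simp only [IsScalarTower.coe_toAlgHom'] at h0
  rw [hv, lNm_prod (Ψ L fun i => algebraMap E L (y i))
    (hΨ.mul L hL (IsScalarTower.toAlgHom K E L)) (Ψ L (fun i => algebraMap E L (y i)) g) _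
    (fun r hr => by
      obtain ⟨σ, rfl⟩ := hroot r hr
      exact ⟨(map_ne_zero σ).2 hg, hσ σ⟩), ← hs.natDegree_eq_card_roots,
    (minpoly.monic hi).natDegree_map] at h0
  rw [div_mul_eq_mul_div, eq_div_iff hn, ← h0, mul_comm]

theorem lNm_alg {K ι E L : Type} [Field K] [Field E] [Algebra K E] [Field L] [Algebra K L]
    (hE : FF K E 1) (hL : FF K L 1) [Algebra E L] [IsScalarTower K E L]
    (N : Type) [Field N] [Algebra K N] [Algebra E N] [IsScalarTower K E N] [FiniteDimensional E N]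
    [Normal E N] (χ : L →ₐ[E] N) (y : ι → E) {g : L} (hg : g ≠ 0) :
    ∃ (v : E) (c : ℚ), v ≠ 0 ∧ ∀ Ψ : LF K ι, EM Ψ y →
      Ψ L (fun i => algebraMap E L (y i)) g = c * Ψ E y v := by
  have hN : FF K N 1 := hE.of_finite (IsScalarTower.toAlgHom K E N)
    (by rw [hdeg_tower]; exact Module.finrank_pos.ne')
  obtain ⟨v, c, hv, h⟩ := lNm_normal (K := K) hE y ((map_ne_zero χ).2 hg)
  have hd : (hdeg (χ.restrictScalars K) : ℚ) ≠ 0 :=
    Nat.cast_ne_zero.2 (hdeg_pos hL hN (χ.restrictScalars K)).ne'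
  refine ⟨v, c / hdeg (χ.restrictScalars K), hv, fun Ψ hΨ => ?_⟩
  have h1 := hΨ.ext L N hL hN (χ.restrictScalars K) (fun i => algebraMap E L (y i)) g
  simp only [AlgHom.coe_restrictScalars', AlgHom.commutes] at h1
  rw [h Ψ hΨ] at h1
  rw [div_mul_eq_mul_div, eq_div_iff hd, h1, mul_comm]

theorem lNm {K : Type} [Field K] [IsAlgClosed K] : LNm K := by
  intro ι E L _ _ _ _ hE hL ψ y g hg
  let _ : Algebra E L := (ψ : E →+* L).toAlgebra
  have : IsScalarTower K E L := IsScalarTower.of_algebraMap_eq fun c => (ψ.commutes c).symm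
  have : FiniteDimensional E L := by
    refine FiniteDimensional.of_finrank_pos ?_
    rw [← hdeg_tower (k := K)]
    exact hdeg_pos hE hL _
  exact lNm_alg hE hL (IntermediateField.normalClosure E L (AlgebraicClosure L))
    (IsScalarTower.toAlgHom E L _) y hg

end Pool.Agent.MP_a9d3bd_gx
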