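import Pool.Agent.MP_a9d3bd_gx.St

/-! Curves and points. -/

namespace Pool.Agent.MP_a9d3bd_gx

open MvPolynomial Pool.Agent.MP_a9d3bd_q
open Pool.Agent.MP_a9d3bd_x (LF GF Core)

/-- Compatible with field extensions, and additive over the extensions of the point `y`. -/
structure EM {K ι : Type} [Field K] (Ψ : LF K ι) {E₀ : Type} [Field E₀] [Algebra K E₀]
    (y : ι → E₀) : Prop where
  ext : ∀ (E L : Type) [Field E] [Algebra K E] [Field L] [Algebra K L], FF K E 1 → FF K L 1 →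
    ∀ (ψ : E →ₐ[K] L) (z : ι → E) (u : E), Ψ L (fun a => ψ (z a)) (ψ u) = hdeg ψ * Ψ E z u
  mul : ∀ (L : Type) [Field L] [Algebra K L], FF K L 1 → ∀ (χ : E₀ →ₐ[K] L) (u v : L), u ≠ 0 →
    v ≠ 0 → Ψ L (fun a => χ (y a)) (u * v) =
      Ψ L (fun a => χ (y a)) u + Ψ L (fun a => χ (y a)) v

variable (K : Type) [Field K]

/-- norms -/
def LNm : Prop := ∀ (ι E₀ E : Type) [Field E₀] [Algebra K E₀] [Field E] [Algebra K E],
  FF K E₀ 1 → FF K E 1 → ∀ (ψ : E₀ →ₐ[K] E) (y : ι → E₀) (u : E), u ≠ 0 →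
  ∃ (v : E₀) (c : ℚ), v ≠ 0 ∧ ∀ Ψ : LF K ι, EM Ψ y → Ψ E (fun a => ψ (y a)) u = c * Ψ E₀ y v

/-- one generic point -/
def LGn : Prop := ∀ (ι : Type) [Fintype ι] [DecidableEq ι] (S : Set (MvPolynomial ι K)) (d : ℕ),
  MP_a9d3bd_h.Sm S d → d ≤ 1 → (Ideal.span S).radical.IsPrime →
  ∀ (E E' : Type) [Field E] [Algebra K E] [Field E'] [Algebra K E'], FF K E 1 → FF K E' 1 →
  ∀ (y : ι → E) (y' : ι → E'), On S y → On S y' → ND K y → ND K y' → hk K y = hk K y'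

/-- the cotangent space has one generator -/
def LU1 : Prop := ∀ (ι : Type) [Fintype ι] [DecidableEq ι] (S : Set (MvPolynomial ι K)) (d : ℕ),
  MP_a9d3bd_h.Sm S d → d ≤ 1 → ∀ p : ι → K, p ≠ 0 → On S p → ∃ b₀ i : ι, p b₀ ≠ 0 ∧
    ∀ (E : Type) [Field E] [Algebra K E] (σ : ι → E), On S σ → σ b₀ = algebraMap K E (p b₀) →
    ∀ b, ∃ (α : K) (F : MvPolynomial ι K), F ∈ RingHom.ker (eval p) ^ 2 ∧
      σ b - algebraMap K E (p b) = algebraMap K E α * (σ i - algebraMap K E (p i)) + aeval σ F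

/-- one place over a smooth point -/
def LU2 : Prop := ∀ (ι : Type) [Fintype ι] (E : Type) [Field E] [Algebra K E], FF K E 1 →
  ∀ (σ : ι → E) (p : ι → K) (i : ι), af K σ = ⊤ →
  (∀ b, ∃ (α : K) (F : MvPolynomial ι K), F ∈ RingHom.ker (eval p) ^ 2 ∧
    σ b - algebraMap K E (p b) = algebraMap K E α * (σ i - algebraMap K E (p i)) + aeval σ F) →
  ∀ O O' : DV K E, Nr O σ p → Nr O' σ p → O = O'

/-- functions with trivial divisor -/
def LFn : Prop := ∀ (E J : Type) [Field E] [Algebra K E] [Fintype J], FF K E 1 → ∀ φ : E → ℚ,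
  (∀ u v, u ≠ 0 → v ≠ 0 → φ (u * v) = φ u + φ v) → (∀ c : K, c ≠ 0 → φ (algebraMap K E c) = 0) →
  ∀ (v : J → E) (s : J → ℚ), (∀ j, v j ≠ 0) →
  (∀ O : DV K E, ∑ j, s j * (O.ord (v j) : ℚ) = 0) → ∑ j, s j * φ (v j) = 0

end Pool.Agent.MP_a9d3bd_gx
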