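import Pool.Agent.MP_a9d3bd_gx.LoSt

namespace Pool.Agent.MP_a9d3bd_gx

open MvPolynomial Pool.Agent.MP_a9d3bd_q
open Pool.Agent.MP_a9d3bd_x (LF GF Core)

section
variable {K ι : Type} [Field K] [Fintype ι] [DecidableEq ι]

theorem lU1_X (p : ι → K) (j : ι) {E : Type} [CommRing E] [Algebra K E] (w : ι → E) :
    ∑ b, algebraMap K E (eval p (pderiv b (X j : MvPolynomial ι K))) * w b = w j := by
  rw [Finset.sum_eq_single j]
  · simp
  · intro b _ hb
    simp [pderiv_X_of_ne hb.symm]
  · simp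

theorem lU1_tay (p : ι → K) (G : MvPolynomial ι K) :
    G - C (eval p G) - ∑ b, C (eval p (pderiv b G)) * (X b - C (p b)) ∈
      RingHom.ker (eval p) ^ 2 := by
  induction G using MvPolynomial.induction_on with
  | C a => simp
  | add f g hf hg =>
    convert add_mem hf hg using 1
    simp only [map_add, add_mul, Finset.sum_add_distrib]
    ring
  | mul_X f j hf =>
    have h1 : ∀ b, (X b - C (p b) : MvPolynomial ι K) ∈ RingHom.ker (eval p) := fun b => by
      simp [RingHom.mem_ker]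
    have h2 : ∑ b, C (eval p (pderiv b f)) * (X b - C (p b)) ∈ RingHom.ker (eval p) :=
      sum_mem fun b _ => Ideal.mul_mem_left _ _ (h1 b)
    have h3 := lU1_X p j fun b => (X b - C (p b) : MvPolynomial ι K)
    rw [algebraMap_eq] at h3
    have h4 : ∑ b, C (eval p (pderiv b (f * X j))) * (X b - C (p b)) =
        C (eval p f) * (X j - C (p j)) +
          C (p j) * ∑ b, C (eval p (pderiv b f)) * (X b - C (p b)) := by
      rw [← h3, Finset.mul_sum, Finset.mul_sum, ← Finset.sum_add_distrib]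
      refine Finset.sum_congr rfl fun b _ => ?_
      rw [Derivation.leibniz, smul_eq_mul, smul_eq_mul, map_add, map_mul, map_mul, eval_X, map_add,
        map_mul, map_mul]
      ring
    have h5 := add_mem (Ideal.mul_mem_right (X j) _ hf)
      ((pow_two (RingHom.ker (eval p))).ge (Ideal.mul_mem_mul h2 (h1 j)))
    rw [h4, map_mul, eval_X, map_mul]
    refine (congrArg (· ∈ _) ?_).mp h5
    ring

theorem lU1_eul {S : Set (MvPolynomial ι K)} (hS : Homog S) {p : ι → K} (hp : On S p)
    {G : MvPolynomial ι K} (hG : G ∈ Ideal.span S) :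
    eval p G = 0 ∧ ∑ b, eval p (pderiv b G) * p b = 0 := by
  induction hG using Submodule.span_induction with
  | mem f hf =>
    obtain ⟨d, hd⟩ := hS f hf
    have h0 : eval p f = 0 := hp f hf
    have h1 := congrArg (eval p) hd.sum_X_mul_pderiv
    rw [map_sum, map_nsmul, h0, smul_zero] at h1
    refine ⟨h0, Eq.trans (Finset.sum_congr rfl fun b _ => ?_) h1⟩
    rw [map_mul, eval_X, mul_comm]
  | zero => simp
  | add f g _ _ hf hg =>
    refine ⟨by rw [map_add, hf.1, hg.1, add_zero], ?_⟩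
    simp only [map_add, add_mul, Finset.sum_add_distrib, hf.2, hg.2, add_zero]
  | smul a f _ hf =>
    refine ⟨by rw [smul_eq_mul, map_mul, hf.1, mul_zero], ?_⟩
    simp only [smul_eq_mul, Derivation.leibniz, map_add, map_mul, hf.1, zero_mul, add_zero,
      mul_assoc, ← Finset.mul_sum, hf.2, mul_zero]

end

theorem lU1 {K : Type} [Field K] [IsAlgClosed K] : LU1 K := by
  intro ι _ _ S d hS hd p hp hon
  obtain ⟨b1, hb1⟩ := Function.ne_iff.1 hp
  obtain ⟨a, G, hG, hJ⟩ := (hS.sm (ak K p) fun f hf => hon f hf).2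
    ⟨b1, fun h => hb1 (by simpa using (mem_ak p _).1 h)⟩
  obtain ⟨J, hJ'⟩ : ∃ J : Matrix ι ι K, ∀ c b, J c b = eval p (pderiv b (G c)) :=
    ⟨Matrix.of fun c b => eval p (pderiv b (G c)), fun _ _ => rfl⟩
  have hdet : J.det ≠ 0 := fun h => hJ (by
    have e : J = (eval p).mapMatrix (Matrix.of fun c b => pderiv b (G c)) :=
      Matrix.ext fun c b => hJ' c b
    rw [e, ← RingHom.map_det] at h
    exact h)
  obtain ⟨i0, h0⟩ : ∃ i, p (a i) ≠ 0 := by
    by_contra hn
    refine hp (Matrix.eq_zero_of_mulVec_eq_zero hdet (funext fun c => ?_))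
    simp only [Matrix.mulVec, dotProduct, hJ', Pi.zero_apply]
    rcases hG c with h | ⟨i, h⟩
    · exact (lU1_eul hS.hom hon h).2
    · rw [h]
      exact (lU1_X p (a i) p).trans (not_not.1 fun h => hn ⟨i, h⟩)
  obtain ⟨i1, h1⟩ : ∃ i1 : Fin (d + 1), ∀ i, i = i0 ∨ i = i1 := by
    refine ⟨⟨d - i0, by omega⟩, fun i => ?_⟩
    have := i.2
    have := i0.2
    simp only [Fin.ext_iff]
    omega
  refine ⟨a i0, a i1, h0, fun E _ _ σ hσ h2 b => ?_⟩
  have key : ∀ c, ∃ (β : K) (F : MvPolynomial ι K), F ∈ RingHom.ker (eval p) ^ 2 ∧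
      ∑ b, algebraMap K E (J c b) * (σ b - algebraMap K E (p b)) =
        algebraMap K E β * (σ (a i1) - algebraMap K E (p (a i1))) + aeval σ F := fun c => by
    simp only [hJ']
    rcases hG c with h | ⟨i, h⟩
    · have h3 : aeval σ (G c) = 0 :=
        (Ideal.span_le (I := (ak K σ).asIdeal)).2 (fun f hf => hσ f hf) h
      refine ⟨0, _, neg_mem (lU1_tay p (G c)), ?_⟩
      simp [h3, (lU1_eul hS.hom hon h).1]
    · rw [h, lU1_X p (a i) fun b => σ b - algebraMap K E (p b)]
      rcases h1 i with rfl | rfl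
      · exact ⟨0, 0, zero_mem _, by simp [h2]⟩
      · exact ⟨1, 0, zero_mem _, by simp⟩
  choose β F hF hk using key
  refine ⟨∑ c, J⁻¹ b c * β c, ∑ c, C (J⁻¹ b c) * F c,
    sum_mem fun c _ => Ideal.mul_mem_left _ _ (hF c), ?_⟩
  have hN := Matrix.nonsing_inv_mul J (Ne.isUnit hdet)
  have e : ∑ c, algebraMap K E (J⁻¹ b c) *
      ∑ b', algebraMap K E (J c b') * (σ b' - algebraMap K E (p b')) =
      σ b - algebraMap K E (p b) := by
    simp only [Finset.mul_sum, ← mul_assoc, ← map_mul]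
    rw [Finset.sum_comm]
    simp only [← Finset.sum_mul, ← map_sum, ← Matrix.mul_apply, hN]
    rw [Finset.sum_eq_single b]
    · simp
    · intro c _ hc
      simp [Matrix.one_apply_ne hc.symm]
    · simp
  rw [← e, map_sum, map_sum, Finset.sum_mul, ← Finset.sum_add_distrib]
  refine Finset.sum_congr rfl fun c _ => ?_
  rw [hk, map_mul, map_mul, aeval_C]
  ring

end Pool.Agent.MP_a9d3bd_gx
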