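import Pool.Agent.MP_a9d3bd_gx.LoSt
import Pool.Agent.MP_a9d3bd_yy.Ctr

namespace Pool.Agent.MP_a9d3bd_gx

open MvPolynomial Pool.Agent.MP_a9d3bd_q
open Pool.Agent.MP_a9d3bd_yy (Near sCtr_aeval sCtr_le sCtr_unit)

theorem lU2_nak {K ι E : Type} [Field K] [Fintype ι] [Field E] [Algebra K E] (σ : ι → E)
    (p : ι → K) (i : ι)
    (h : ∀ b, ∃ (α : K) (F : MvPolynomial ι K), F ∈ RingHom.ker (eval p) ^ 2 ∧
      σ b - algebraMap K E (p b) = algebraMap K E α * (σ i - algebraMap K E (p i)) + aeval σ F) :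
    ∃ D : MvPolynomial ι K, eval p D = 1 ∧ ∀ F, eval p F = 0 → ∃ r : MvPolynomial ι K,
      aeval σ D * aeval σ F = (σ i - algebraMap K E (p i)) * aeval σ r := by
  let J : Ideal (MvPolynomial ι K) := Ideal.span {X i - C (p i)} ⊔ RingHom.ker (aeval σ)
  have h1 : ∀ F : MvPolynomial ι K,
      F - C (eval p F) ∈ J ⊔ RingHom.ker (eval p) • RingHom.ker (eval p) := fun F => by
    induction F using MvPolynomial.induction_on with
    | C c => simp
    | add f g hf hg =>
      have e : f + g - C (eval p (f + g)) = (f - C (eval p f)) + (g - C (eval p g)) := by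
        rw [map_add, map_add]
        ring
      rw [e]
      exact add_mem hf hg
    | mul_X f b hf =>
      obtain ⟨α, G, hG, e1⟩ := h b
      have e : f * X b - C (eval p (f * X b)) = (f - C (eval p f)) * X b + C (eval p f) *
          (C α * (X i - C (p i)) + (X b - C (p b) - C α * (X i - C (p i)) - G) + G) := by
        rw [map_mul, map_mul, eval_X]
        ring
      rw [e]
      refine add_mem (Ideal.mul_mem_right _ _ hf) (Ideal.mul_mem_left _ _ (add_mem
        (Ideal.mem_sup_left (add_mem (Ideal.mem_sup_left (Ideal.mul_mem_left _ _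
          (Ideal.mem_span_singleton_self _))) (Ideal.mem_sup_right ?_))) (Ideal.mem_sup_right ?_)))
      · rw [RingHom.mem_ker]
        simp only [map_sub, map_mul, aeval_X, aeval_C]
        rw [e1]
        ring
      · rwa [smul_eq_mul, ← sq]
  obtain ⟨D, hD, h2⟩ := Submodule.exists_sub_one_mem_and_smul_le_of_fg_of_le_sup
    (I := RingHom.ker (eval p)) (N := J) (N' := RingHom.ker (eval p)) (P := RingHom.ker (eval p))
    (IsNoetherian.noetherian _) le_rfl fun F hF => by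
      have := h1 F
      rwa [RingHom.mem_ker.1 hF, map_zero, sub_zero] at this
  refine ⟨D, ?_, fun F hF => ?_⟩
  · have := RingHom.mem_ker.1 hD
    rwa [map_sub, map_one, sub_eq_zero] at this
  · have h3 : D * F ∈ J := h2 (Submodule.smul_mem_pointwise_smul F D _ hF)
    obtain ⟨u, hu, k, hk, e⟩ := Submodule.mem_sup.1 h3
    obtain ⟨r, rfl⟩ := Ideal.mem_span_singleton.1 hu
    refine ⟨r, ?_⟩
    rw [← map_mul, ← e, map_add, RingHom.mem_ker.1 hk, add_zero, map_mul, map_sub, aeval_X, aeval_C]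

theorem lU2_unit {K ι E : Type} [Field K] [Field E] [Algebra K E] {σ : ι → E} {p : ι → K}
    (O : DV K E) (h : ∀ b, Near O.O (σ b) (p b)) (F : MvPolynomial ι K) :
    0 ≤ O.ord (aeval σ F) ∧ (eval p F ≠ 0 → aeval σ F ≠ 0 ∧ O.ord (aeval σ F) = 0) := by
  have h1 := sCtr_aeval O.const σ p F h
  have h2 := (O.O.valuation_le_one_iff _).1 (sCtr_le O.const h1)
  refine ⟨(O.ord_nonneg_iff _).2 h2, fun h0 => ?_⟩
  have h3 := sCtr_unit O.const h1 h0
  refine ⟨fun e => ?_, (O.ord_eq_zero_iff _).2 ⟨h2, ?_⟩⟩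
  · rw [e, map_zero] at h3
    exact zero_ne_one h3
  · rw [← O.O.valuation_le_one_iff, map_inv₀, h3, inv_one]

theorem lU2_main {K ι E : Type} [Field K] [Fintype ι] [Field E] [Algebra K E] (σ : ι → E)
    (p : ι → K) (i : ι) (ht : af K σ = ⊤)
    (h : ∀ b, ∃ (α : K) (F : MvPolynomial ι K), F ∈ RingHom.ker (eval p) ^ 2 ∧
      σ b - algebraMap K E (p b) = algebraMap K E α * (σ i - algebraMap K E (p i)) + aeval σ F)
    (O O' : DV K E) (h1 : ∀ b, Near O.O (σ b) (p b)) (h2 : ∀ b, Near O'.O (σ b) (p b)) :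
    O = O' := by
  obtain ⟨D, hD, hr⟩ := lU2_nak σ p i h
  obtain ⟨s, hs⟩ : ∃ s, s = σ i - algebraMap K E (p i) := ⟨_, rfl⟩
  rw [← hs] at hr
  have pos : ∀ U : DV K E, (∀ b, Near U.O (σ b) (p b)) → s ≠ 0 → 0 < U.ord s := fun U hU s0 =>
    (U.ord_pos_iff s0).2 (U.O.mem_nonunits_iff.2 (hs ▸ hU i))
  have d1 := (lU2_unit O h1 D).2 (hD ▸ one_ne_zero)
  have d2 := (lU2_unit O' h2 D).2 (hD ▸ one_ne_zero)
  have key : ∀ (n : ℕ) (F : MvPolynomial ι K), aeval σ F ≠ 0 → O.ord (aeval σ F) < n →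
      ∃ m : ℤ, O.ord (aeval σ F) = m * O.ord s ∧ O'.ord (aeval σ F) = m * O'.ord s := by
    intro n
    induction n with
    | zero => exact fun F _ k => absurd (lU2_unit O h1 F).1 (by omega)
    | succ n ih =>
      intro F F0 k
      by_cases h0 : eval p F = 0
      · obtain ⟨r, e⟩ := hr F h0
        obtain ⟨s0, r0⟩ := mul_ne_zero_iff.1 (e ▸ mul_ne_zero d1.1 F0)
        have e1 := congrArg O.ord e
        have e2 := congrArg O'.ord e
        rw [O.ord_mul d1.1 F0, O.ord_mul s0 r0, d1.2] at e1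
        rw [O'.ord_mul d1.1 F0, O'.ord_mul s0 r0, d2.2] at e2
        have := pos O h1 s0
        obtain ⟨m, m1, m2⟩ := ih r r0 (by omega)
        exact ⟨m + 1, by linarith, by linarith⟩
      · exact ⟨0, by rw [((lU2_unit O h1 F).2 h0).2, zero_mul],
          by rw [((lU2_unit O' h2 F).2 h0).2, zero_mul]⟩
  refine DV.eq_of_le fun z hz => ?_
  obtain ⟨F, G, G0, rfl⟩ := (mem_af_iff σ z).1 (ht ▸ IntermediateField.mem_top)
  by_cases F0 : aeval σ F = 0
  · rw [F0, zero_div]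
    exact zero_mem _
  obtain ⟨m, m1, m2⟩ := key ((O.ord (aeval σ F)).toNat + 1) F F0 (by omega)
  obtain ⟨n, n1, n2⟩ := key ((O.ord (aeval σ G)).toNat + 1) G G0 (by omega)
  rw [← O.ord_nonneg_iff, O.ord_div F0 G0, m1, n1, ← sub_mul] at hz
  rw [← O'.ord_nonneg_iff, O'.ord_div F0 G0, m2, n2, ← sub_mul]
  by_cases s0 : s = 0
  · rw [s0, O'.ord_zero, mul_zero]
  · exact mul_nonneg (nonneg_of_mul_nonneg_left hz (pos O h1 s0)) (pos O' h2 s0).le

theorem lU2 {K : Type} [Field K] [IsAlgClosed K] : LU2 K :=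
  fun _ _ _ _ _ _ σ p i ht h O O' h1 h2 => lU2_main σ p i ht h O O' h1 h2

end Pool.Agent.MP_a9d3bd_gx
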