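import Pool.Agent.MP_a9d3bd_gx.LoSt
import Pool.Agent.MP_a9d3bd_yy.Ctr

/-! One place over a smooth point. -/

namespace Pool.Agent.MP_a9d3bd_gx

open MvPolynomial Pool.Agent.MP_a9d3bd_q
open Pool.Agent.MP_a9d3bd_yy (Near sCtr_aeval sCtr_unit sCtr_le)

section
variable {K ι E : Type} [Field K] [Field E] [Algebra K E]

theorem lU2_sub (p : ι → K) (J : Ideal (MvPolynomial ι K)) (h : ∀ b, X b - C (p b) ∈ J)
    (G : MvPolynomial ι K) : G - C (eval p G) ∈ J := by
  induction G using MvPolynomial.induction_on with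
  | C a => simp
  | add f g hf hg =>
    rw [map_add, map_add, add_sub_add_comm]
    exact J.add_mem hf hg
  | mul_X f b hf =>
    have e : f * X b - C (eval p (f * X b)) =
        f * (X b - C (p b)) + (f - C (eval p f)) * C (p b) := by
      rw [map_mul, eval_X, map_mul]
      ring
    rw [e]
    exact J.add_mem (J.mul_mem_left _ (h b)) (J.mul_mem_right _ hf)

theorem lU2_nak [Fintype ι] (σ : ι → E) (p : ι → K) (i : ι)
    (h : ∀ b, ∃ (α : K) (F : MvPolynomial ι K), F ∈ RingHom.ker (eval p) ^ 2 ∧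
      σ b - algebraMap K E (p b) = algebraMap K E α * (σ i - algebraMap K E (p i)) + aeval σ F) :
    ∃ D : MvPolynomial ι K, eval p D ≠ 0 ∧ ∀ G, eval p G = 0 → ∃ r : MvPolynomial ι K,
      aeval σ D * aeval σ G = aeval σ (X i - C (p i)) * aeval σ r := by
  obtain ⟨D, hD, hD'⟩ := Submodule.exists_sub_one_mem_and_smul_le_of_fg_of_le_sup
    (I := RingHom.ker (eval p)) (N := RingHom.ker (aeval σ : MvPolynomial ι K →ₐ[K] E) ⊔
      Ideal.span {X i - C (p i)}) (IsNoetherian.noetherian (RingHom.ker (eval p))) le_rfl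
    fun G hG => by
      have h1 := lU2_sub p ((RingHom.ker (aeval σ : MvPolynomial ι K →ₐ[K] E) ⊔
          Ideal.span {X i - C (p i)}) ⊔ RingHom.ker (eval p) • RingHom.ker (eval p)) (fun b => by
        obtain ⟨α, F, hF, e⟩ := h b
        have e2 : X b - C (p b) = (X b - C (p b) - C α * (X i - C (p i)) - F) +
          C α * (X i - C (p i)) + F := by ring
        rw [e2]
        refine Submodule.add_mem_sup (Submodule.add_mem_sup ?_
          (Ideal.mul_mem_left _ _ (Ideal.mem_span_singleton_self _))) (by rwa [pow_two] at hF)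
        rw [RingHom.mem_ker]
        simp only [map_sub, map_mul, aeval_X, aeval_C, e]
        ring) G
      rwa [(RingHom.mem_ker).1 hG, map_zero, sub_zero] at h1
  refine ⟨D, fun e => ?_, fun G hG => ?_⟩
  · rw [RingHom.mem_ker, map_sub, e] at hD
    simp at hD
  · obtain ⟨a, ha, b, hb, e⟩ := Submodule.mem_sup.1
      (hD' (Submodule.smul_mem_pointwise_smul G D _ hG))
    obtain ⟨r, rfl⟩ := Ideal.mem_span_singleton'.1 hb
    refine ⟨r, ?_⟩
    rw [← map_mul, ← smul_eq_mul, ← e, map_add, (RingHom.mem_ker).1 ha, zero_add, map_mul, mul_comm]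

theorem lU2_unit (O : DV K E) {σ : ι → E} {p : ι → K} (h : Nr O σ p) {G : MvPolynomial ι K}
    (hG : eval p G ≠ 0) : aeval σ G ≠ 0 ∧ O.ord (aeval σ G) = 0 := by
  have h1 := sCtr_unit O.const (sCtr_aeval O.const σ p G h) hG
  refine ⟨fun e => by simp [e] at h1, (O.ord_eq_zero_iff _).2 ⟨?_, ?_⟩⟩
  · exact (O.O.valuation_le_one_iff _).1 h1.le
  · rw [← O.O.valuation_le_one_iff, map_inv₀, h1, inv_one]

theorem lU2_pos (O : DV K E) {σ : ι → E} {p : ι → K} (h : Nr O σ p) (i : ι)
    (hs : aeval σ (X i - C (p i) : MvPolynomial ι K) ≠ 0) :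
    0 < O.ord (aeval σ (X i - C (p i) : MvPolynomial ι K)) := by
  rw [O.ord_pos_iff hs, ValuationSubring.mem_nonunits_iff, map_sub, aeval_X, aeval_C]
  exact h i

end

theorem lU2 {K : Type} [Field K] [IsAlgClosed K] : LU2 K := by
  intro ι _ E _ _ _ σ p i htop h O O' hO hO'
  obtain ⟨D, hD, hD'⟩ := lU2_nak σ p i h
  generalize hs : aeval σ (X i - C (p i) : MvPolynomial ι K) = s at hD'
  have key : ∀ (n : ℕ) (G : MvPolynomial ι K), aeval σ G ≠ 0 → O.ord (aeval σ G) < n →
      ∃ k : ℤ, O.ord (aeval σ G) = k * O.ord s ∧ O'.ord (aeval σ G) = k * O'.ord s := by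
    intro n
    induction n with
    | zero =>
      intro G _ h1
      have := (O.ord_nonneg_iff _).2 ((O.O.valuation_le_one_iff _).1
        (sCtr_le O.const (sCtr_aeval O.const σ p G hO)))
      omega
    | succ n ih =>
      intro G h0 h1
      by_cases hG : eval p G = 0
      · obtain ⟨r, hr⟩ := hD' G hG
        have h2 := mul_ne_zero (lU2_unit O hO hD).1 h0
        rw [hr] at h2
        have s0 := left_ne_zero_of_mul h2
        have r0 := right_ne_zero_of_mul h2
        have e1 := congrArg O.ord hr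
        have e2 := congrArg O'.ord hr
        rw [O.ord_mul (lU2_unit O hO hD).1 h0, O.ord_mul s0 r0, (lU2_unit O hO hD).2] at e1
        rw [O'.ord_mul (lU2_unit O hO hD).1 h0, O'.ord_mul s0 r0, (lU2_unit O' hO' hD).2] at e2
        have h3 := lU2_pos O hO i (hs ▸ s0)
        rw [hs] at h3
        obtain ⟨k, hk, hk'⟩ := ih r r0 (by omega)
        exact ⟨k + 1, by linear_combination e1 + hk, by linear_combination e2 + hk'⟩
      · exact ⟨0, by rw [(lU2_unit O hO hG).2, zero_mul], by rw [(lU2_unit O' hO' hG).2, zero_mul]⟩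
  refine DV.ext (ValuationSubring.ext _ _ fun z => ?_)
  obtain ⟨F, G, hG, rfl⟩ := (mem_af_iff σ z).1 (htop ▸ IntermediateField.mem_top)
  by_cases hF : aeval σ F = 0
  · simp [hF]
  obtain ⟨k, hk, hk'⟩ := key ((O.ord (aeval σ F)).toNat + 1) F hF (by omega)
  obtain ⟨l, hl, hl'⟩ := key ((O.ord (aeval σ G)).toNat + 1) G hG (by omega)
  rw [← O.ord_nonneg_iff, ← O'.ord_nonneg_iff, O.ord_div hF hG, O'.ord_div hF hG, hk, hk', hl,
    hl', ← sub_mul, ← sub_mul]
  by_cases s0 : s = 0
  · simp [s0, DV.ord_zero]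
  · have h1 := lU2_pos O hO i (hs ▸ s0)
    have h2 := lU2_pos O' hO' i (hs ▸ s0)
    rw [hs] at h1 h2
    rw [mul_nonneg_iff_of_pos_right h1, mul_nonneg_iff_of_pos_right h2]

end Pool.Agent.MP_a9d3bd_gx
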