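import Pool.Agent.MP_a9d3bd_gx.LowA
import Pool.Agent.MP_a9d3bd_gx.Cl
import Pool.Agent.MP_a9d3bd_x.AX

/-! Points and curves. -/

namespace Pool.Agent.MP_a9d3bd_gx

open MvPolynomial Pool.Agent.MP_a9d3bd_q Pool.Agent.MP_a9d3bd_h Sum
open Pool.Agent.MP_a9d3bd_yy (Near sCtr_const sCtr_aeval)
open Pool.Agent.MP_a9d3bd_x (LF GF)

variable {K E ι : Type} [Field K] [IsAlgClosed K] [Field E] [Algebra K E] [Fintype ι]
  [DecidableEq ι] {S : Set (MvPolynomial ι K)}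

theorem xLow_uq (hS : MP_a9d3bd_h.Sm S 1) {y : ι → E} (hy : On S y) (ht : kf K y = ⊤) {p : ι → K}
    (hp : p ≠ 0) {O O' : DV K E} (h1 : Ct O y p) (h2 : Ct O' y p) : O = O' := by
  obtain ⟨l, -, hl⟩ := xFor ι S 1 hS {p} (Set.finite_singleton p) fun q hq =>
    hq ▸ ⟨hp, xPF_onp hS.hom hy h1⟩
  obtain ⟨l0, l1⟩ := hl p rfl
  have he : (MP_a9d3bd_h.lin l 0).IsHomogeneous 1 :=
    IsHomogeneous.sum _ _ _ fun b _ => (isHomogeneous_X K b).C_mul _
  have e : eval p (MP_a9d3bd_h.lin l 0) = lv l p 0 := by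
    simp [MP_a9d3bd_h.lin, lv]
  rw [← e] at l0 l1
  obtain ⟨n0, n1⟩ := xPF_nr he h1 l0
  obtain ⟨-, n2⟩ := xPF_nr he h2 l0
  have o1 := xPF_on hS.hom hy (aeval y (MP_a9d3bd_h.lin l 0))⁻¹
  have o2 := xPF_on hS.hom (xPF_onp hS.hom hy h1) (eval p (MP_a9d3bd_h.lin l 0))⁻¹
  have k1 : kf K ((aeval y (MP_a9d3bd_h.lin l 0))⁻¹ • y) = ⊤ := by
    rw [kf_smul (inv_ne_zero n0), ht]
  have s1 : aeval ((aeval y (MP_a9d3bd_h.lin l 0))⁻¹ • y) (MP_a9d3bd_h.lin l 0) = 1 := by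
    rw [aeval_smul_hom he, pow_one, inv_mul_cancel₀ n0]
  have s2 : aeval ((eval p (MP_a9d3bd_h.lin l 0))⁻¹ • p) (MP_a9d3bd_h.lin l 0) = 1 := by
    rw [aeval_smul_hom he, pow_one]
    exact inv_mul_cancel₀ l0
  generalize (aeval y (MP_a9d3bd_h.lin l 0))⁻¹ • y = σ at n1 n2 o1 k1 s1
  generalize (eval p (MP_a9d3bd_h.lin l 0))⁻¹ • p = q at n1 n2 o2 l1 s2
  have hσ : σ ≠ 0 := fun h0 => by
    have := aeval_smul_hom he (0 : E) σ
    rw [zero_smul, ← h0, s1] at this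
    simp at this
  let φ : MvPolynomial (ι ⊕ ι) K →ₐ[K] E := aeval (Sum.elim σ fun b => algebraMap K E (q b))
  have f1 : ∀ f, φ (rename inl f) = aeval σ f := fun f => aeval_rename _ _ _
  have f2 : ∀ f, φ (rename inr f) = algebraMap K E (aeval q f) := fun f => by
    rw [← MvPolynomial.aeval_algebraMap_apply]
    exact aeval_rename _ _ _
  let π : MvPolynomial (ι ⊕ ι) K :=
    rename inl (MP_a9d3bd_h.lin l 1) - rename inr (MP_a9d3bd_h.lin l 1)
  let I : Ideal (MvPolynomial (ι ⊕ ι) K) :=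
    { carrier := {m | ∃ s a, eval (Sum.elim q q) s ≠ 0 ∧ φ s * φ m = φ π * φ a}
      add_mem' := by
        rintro m m' ⟨s, a, h, k⟩ ⟨s', a', h', k'⟩
        refine ⟨s * s', s' * a + s * a', by rw [map_mul]; exact mul_ne_zero h h', ?_⟩
        simp only [map_mul, map_add]
        linear_combination φ s' * k + φ s * k'
      zero_mem' := ⟨1, 0, by simp, by simp⟩
      smul_mem' := by
        rintro c m ⟨s, a, h, k⟩
        refine ⟨s, c * a, h, ?_⟩
        simp only [smul_eq_mul, map_mul]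
        linear_combination φ c * k }
  have i0 : ∀ m, φ m = 0 → m ∈ I := fun m hm => ⟨1, 0, by simp, by simp [hm]⟩
  have i1 : ∀ b, X (inl b) - X (inr b) ∈ I := fun b => by
    obtain ⟨w, w1, w2⟩ := lm_diag (i := inl) (i' := inr) (Q := ak K (Sum.elim q q))
      (l := MP_a9d3bd_h.lin l) (S := S) (fun b => (mem_ak _ _).2 (by simp))
      (by rw [← cmp_rn_ideal, cmp_rn_ak]; exact l1) (J := I)
      (fun f hf => i0 _ (by rw [f1, o1 f hf])) (fun f hf => i0 _ (by rw [f2, o2 f hf, map_zero])) b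
    have : I ⊔ Ideal.ofList (dfs inl inr (MP_a9d3bd_h.lin l)) ≤ I :=
      sup_le le_rfl (Ideal.span_le.2 fun f hf => by
        obtain ⟨j, rfl⟩ := mem_dfs.1 hf
        fin_cases j
        · exact i0 _ (by
            rw [map_sub, f1, f2]
            exact sub_eq_zero.2 (s1.trans (by rw [← map_one (algebraMap K E), ← s2]; rfl)))
        · exact ⟨1, 1, by simp, by simp [π]⟩)
    obtain ⟨s, a, h, k⟩ := this w2
    refine ⟨s * w, a, ?_, by rw [← k, map_mul, map_mul, mul_assoc]⟩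
    rw [map_mul]
    exact mul_ne_zero h fun h0 => w1 ((mem_ak _ _).2 h0)
  have i2 : ∀ m, m - C (eval (Sum.elim q q) m) ∈ I := fun m => by
    induction m using MvPolynomial.induction_on with
    | C a => simp
    | add f g hf hg =>
      rw [map_add, map_add, add_sub_add_comm]
      exact I.add_mem hf hg
    | mul_X f s hf =>
      have i3 : X s - C (Sum.elim q q s) ∈ I := by
        rcases s with b | b
        · have := I.add_mem (i1 b) (i0 (X (inr b) - C (q b)) (by simp [φ]))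
          rwa [sub_add_sub_cancel] at this
        · exact i0 _ (by simp [φ])
      have := I.add_mem (I.mul_mem_right (X s) hf)
        (I.mul_mem_left (C (eval (Sum.elim q q) f)) i3)
      rw [map_mul, eval_X, map_mul]
      exact (congrArg (· ∈ I) (by ring)).mp this
  have nn : ∀ {V : DV K E}, Nr V σ q → ∀ b, Near V.O (φ b) (eval (Sum.elim q q) b) :=
    fun {V} h b => sCtr_aeval V.const _ _ b (by
      rintro (a | a)
      exacts [h a, sCtr_const _])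
  refine xLow_loc (φ : _ →+* E) (eval (Sum.elim q q)) π ?_ (fun m hm => ?_) (fun z hz => ?_)
    (nn n1) (nn n2)
  · simp only [π, map_sub, eval_rename]
    exact sub_self _
  · have := i2 m
    rwa [hm, map_zero, sub_zero] at this
  · obtain ⟨d, F, G, -, -, a, b, c⟩ := exists_forms (k := K) hσ (g := z) (k1 ▸ trivial) hz
    rw [← f1] at a b c
    rw [← f1] at c
    exact ⟨_, _, a, b, c⟩

omit [DecidableEq ι] [Fintype ι] in
theorem xLow_fin (halg : ∀ c : K, c ≠ 0 → ∃ n, 0 < n ∧ c ^ n = 1) {Λ : LF K ι} (hΛ : GF S Λ)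
    (hE : FF K E 1) {y : ι → E} (hy : y ≠ 0) (ho : On S y) {J : Type} [Fintype J] (f : J → E)
    (hf : ∀ j, f j ≠ 0) (a : J → ℚ) (h : ∀ O : DV K E, ∑ j, a j * O.ord (f j) = 0) :
    ∑ j, a j * Λ E y (f j) = 0 := by
  classical
  obtain ⟨N, hN, n, hn⟩ : ∃ N : ℚ, N ≠ 0 ∧ ∃ n : J → ℤ, ∀ j, (n j : ℚ) = N * a j := by
    refine ⟨∏ j, ((a j).den : ℚ), Finset.prod_ne_zero_iff.2 fun j _ =>
      Nat.cast_ne_zero.2 (a j).den_nz, fun j => (∏ i ∈ Finset.univ.erase j, ((a i).den : ℤ)) *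
        (a j).num, fun j => ?_⟩
    rw [← Finset.prod_erase_mul _ _ (Finset.mem_univ j), mul_assoc, Rat.den_mul_eq_num]
    push_cast
    rfl
  have key : ∀ s : Finset J, ∏ j ∈ s, f j ^ n j ≠ 0 ∧
      Λ E y (∏ j ∈ s, f j ^ n j) = ∑ j ∈ s, n j * Λ E y (f j) ∧
      ∀ O : DV K E, (O.ord (∏ j ∈ s, f j ^ n j) : ℚ) = ∑ j ∈ s, (n j : ℚ) * O.ord (f j) := by
    intro s
    induction s using Finset.induction_on with
    | empty => exact ⟨by simp, by simpa using hΛ.one hE hy ho, fun O => by simp [O.ord_one]⟩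
    | insert j s hj ih =>
      have z := zpow_ne_zero (n j) (hf j)
      simp only [Finset.prod_insert hj, Finset.sum_insert hj]
      refine ⟨mul_ne_zero z ih.1, ?_, fun O => ?_⟩
      · rw [hΛ.mul E hE y _ _ hy ho z ih.1, hΛ.zpow hE hy ho (hf j), ih.2.1]
      · rw [O.ord_mul z ih.1, O.ord_zpow, Int.cast_add, ih.2.2, Int.cast_mul]
  obtain ⟨k0, k1, k2⟩ := key Finset.univ
  simp only [hn, mul_assoc, ← Finset.mul_sum, h, mul_zero] at k1 k2
  have ha : IsAlgebraic K (∏ j, f j ^ n j) := by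
    by_contra hc
    obtain ⟨O, hO⟩ := exists_ord_pos hE hc
    exact hO.ne' (by exact_mod_cast k2 O)
  obtain ⟨c, hc⟩ := minpoly.mem_range_of_degree_eq_one K _
    (IsAlgClosed.degree_eq_one_of_irreducible K (minpoly.irreducible ha.isIntegral))
  rw [← hc, hΛ.const halg hE hy ho fun h0 => k0 (by rw [← hc, h0, map_zero])] at k1
  exact (mul_eq_zero.1 k1.symm).resolve_left hN

theorem xLow {K : Type} [Field K] [IsAlgClosed K]
    (halg : ∀ c : K, c ≠ 0 → ∃ n, 0 < n ∧ c ^ n = 1) {ι : Type} [Fintype ι] [DecidableEq ι]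
    {S : Set (MvPolynomial ι K)} {d : ℕ} (hd : d ≤ 1) (hS : MP_a9d3bd_h.Sm S d)
    (hp : (Ideal.span S).radical.IsPrime) {Λ : LF K ι} (hΛ : GF S Λ) : CoreP S Λ := by
  classical
  intro J _ E _ _ y u r hE hcl
  by_cases h0 : ∃ j, ND K (y j)
  swap
  · exact Finset.sum_eq_zero fun j _ => by
      rw [hΛ.degen _ (hE j).1 _ _ fun h => h0 ⟨j, h⟩, mul_zero]
  obtain ⟨j0, h0⟩ := h0
  have c1 : ∀ j, ND K (y j) → OnS id S (hk K (y j)) ∧ ptd (hk K (y j)) = 1 + 1 := fun j hj =>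
    ⟨Smo_on.2 ((on_iff_hk hS.hom _).1 (hE j).2.2.1), by
      rw [ptd_hk (hE j).2.1, (nd_iff (hE j).1 _).1 hj]⟩
  obtain rfl : d = 1 := by
    have := hS.le (c1 j0 h0).1
    rw [(c1 j0 h0).2] at this
    omega
  have c2 : ∀ j, ND K (y j) → (hk K (y j)).asIdeal = (Ideal.span S).radical := fun j hj => by
    have m := Smo_top hS (c1 j hj).1 (c1 j hj).2
    have m1 := (Ideal.IsPrime.radical_le_iff m.1.1).2 m.1.2
    exact le_antisymm (m.2 ⟨hp, Ideal.le_radical⟩ m1) m1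
  obtain ⟨F, _, _, η, hF, e0, e1, e2⟩ := exists_gen _ (homP_hk (y j0)) (c1 j0 h0).2
  have e3 : On S η := (on_iff_hk hS.hom _).2 (e2 ▸ (on_iff_hk hS.hom _).1 (hE j0).2.2.1)
  have c3 : ∀ j, ∃ (f : F) (c : ℚ), f ≠ 0 ∧ Λ (E j) (y j) (u j) = c * Λ F η f ∧
      ∀ Φ : Raw K ι, IsPre 0 Φ → Dv Φ (E j) (y j) (u j) = c * Dv Φ F η f := fun j => by
    by_cases hj : ND K (y j)
    · obtain ⟨ψ, c, hc, e⟩ := exists_hom_p e0 e1
        (e2.trans (PrimeSpectrum.ext ((c2 j0 h0).trans (c2 j hj).symm)))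
      obtain ⟨f, a, hf, ha⟩ := xLow_norm (ι := ι) hF (hE j).1 ψ (hE j).2.2.2
      refine ⟨f, a, hf, ?_, fun Φ hΦ => ?_⟩
      · rw [e, hΛ.scale _ (hE j).1 _ _ _ hc]
        refine ha Λ η hΛ.ext fun M _ _ hM χ v w hv hw => hΛ.mul M hM _ v w (fun h => e0 ?_)
          (fun G hG => ?_) hv hw
        · exact funext fun b => (_root_.map_eq_zero χ).1 (congrFun h b)
        · rw [← comp_aeval_apply, e3 G hG, map_zero]
      · rw [e, Dv_smul hΦ (hE j).1 hc]
        exact ha (fun E _ _ y u => Dv Φ E y u) η (fun E L _ _ _ _ a b ψ y u => Dv_ext hΦ a b ψ y u)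
          fun M _ _ hM χ v w hv hw => Dv_mul hΦ hM _ hv hw
    · exact ⟨1, 0, one_ne_zero, by rw [hΛ.degen _ (hE j).1 _ _ hj, zero_mul],
        fun Φ hΦ => by rw [dv_degen hΦ (hE j).1 hj, zero_mul]⟩
  choose f c f0 f1 f2 using c3
  simp only [f1, ← mul_assoc]
  refine xLow_fin halg hΛ hF e0 e3 f f0 _ fun O => ?_
  obtain ⟨p, p0, p1⟩ := xPF_ctr hF O e0
  refine Eq.trans (Finset.sum_congr rfl fun j _ => ?_) (hcl p p0)
  have g := f2 j _ (xCl_pre p)
  simp only [Dv, mul_ite, mul_one, mul_zero, xCl_ctr _ (hE j).2.1, xCl_ctr _ e0] at g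
  rw [finsum_eq_single _ O fun O' h => if_neg fun k => h (xLow_uq hS e3 e1 p0 k p1),
    if_pos p1] at g
  rw [mul_assoc, ← g]

end Pool.Agent.MP_a9d3bd_gx
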