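import Pool.Agent.MP_a9d3bd_gx.PF
import Pool.Agent.MP_a9d3bd_gx.For

/-! Norms of functions and places at smooth points of a curve. -/

namespace Pool.Agent.MP_a9d3bd_gx

open MvPolynomial Pool.Agent.MP_a9d3bd_q Sum
open Pool.Agent.MP_a9d3bd_yy (Near sCtr_const sCtr_aeval sCtr_unit sCtr_le)
open Pool.Agent.MP_a9d3bd_x (LF GF)

variable {K E ι : Type} [Field K] [Field E] [Algebra K E]

theorem xLow_norm {L : Type} [Field L] [Algebra K L] (hE : FF K E 1) (hL : FF K L 1)
    (ψ : E →ₐ[K] L) {g : L} (hg : g ≠ 0) : ∃ (f : E) (c : ℚ), f ≠ 0 ∧ ∀ (T : LF K ι) (y : ι → E),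
      (∀ (E L : Type) [Field E] [Algebra K E] [Field L] [Algebra K L], FF K E 1 → FF K L 1 →
        ∀ (ψ : E →ₐ[K] L) (y : ι → E) (u : E),
          T L (fun a => ψ (y a)) (ψ u) = hdeg ψ * T E y u) →
      (∀ (M : Type) [Field M] [Algebra K M], FF K M 1 → ∀ (χ : E →ₐ[K] M) (u v : M), u ≠ 0 →
        v ≠ 0 → T M (fun a => χ (y a)) (u * v) =
          T M (fun a => χ (y a)) u + T M (fun a => χ (y a)) v) →
      T L (fun a => ψ (y a)) g = c * T E y f := by
  let _ : Algebra E L := (ψ : E →+* L).toAlgebra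
  have : IsScalarTower K E L := IsScalarTower.of_algebraMap_eq fun c => (ψ.commutes c).symm
  have : FiniteDimensional E L := by
    refine FiniteDimensional.of_finrank_pos ?_
    rw [← hdeg_tower (k := K)]
    exact hdeg_pos hE hL _
  obtain ⟨N, _, _, _, _, _, _, ⟨χ⟩⟩ : ∃ (N : Type) (_ : Field N) (_ : Algebra K N) (_ : Algebra E N)
      (_ : IsScalarTower K E N) (_ : FiniteDimensional E N) (_ : Normal E N),
      Nonempty (L →ₐ[E] N) :=
    ⟨IntermediateField.normalClosure E L (AlgebraicClosure L), inferInstance, inferInstance,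
      inferInstance, inferInstance, inferInstance, inferInstance, ⟨IsScalarTower.toAlgHom E L _⟩⟩
  have hN : FF K N 1 := hE.of_finite (IsScalarTower.toAlgHom K E N)
    (by rw [hdeg_tower]; exact Module.finrank_pos.ne')
  have hg' : χ g ≠ 0 := (map_ne_zero χ).2 hg
  have hi : IsIntegral E (χ g) := IsIntegral.of_finite E _
  have hm : ((minpoly E (χ g)).map (algebraMap E N)).Monic := (minpoly.monic hi).map _
  have hs : ((minpoly E (χ g)).map (algebraMap E N)).Splits := Normal.splits inferInstance _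
  have d1 : ((minpoly E (χ g)).natDegree : ℚ) ≠ 0 :=
    Nat.cast_ne_zero.2 (minpoly.natDegree_pos hi).ne'
  have d2 : (hdeg (χ.restrictScalars K) : ℚ) ≠ 0 := Nat.cast_ne_zero.2 (hdeg_pos hL hN _).ne'
  refine ⟨(minpoly E (χ g)).coeff 0, hdeg (IsScalarTower.toAlgHom K E N) /
    ((minpoly E (χ g)).natDegree * hdeg (χ.restrictScalars K)),
    minpoly.coeff_zero_ne_zero hi hg', fun T y hx hu => ?_⟩
  have mul := hu N hN (IsScalarTower.toAlgHom K E N)
  have h0 := hx E N hE hN (IsScalarTower.toAlgHom K E N) y ((minpoly E (χ g)).coeff 0)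
  have h1 := hx L N hL hN (χ.restrictScalars K) (fun a => ψ (y a)) g
  have hσ : ∀ σ : N ≃ₐ[E] N, T N (fun i => algebraMap E N (y i)) (σ (χ g)) =
      T N (fun i => algebraMap E N (y i)) (χ g) := by
    intro σ
    have h1 := hx N N hN hN ((σ : N →ₐ[E] N).restrictScalars K)
      (fun i => algebraMap E N (y i)) (χ g)
    rw [hdeg_eq_one (AlgHom.fieldRange_eq_top.2 σ.surjective)] at h1
    simpa using h1
  have e1 : (fun a => (χ.restrictScalars K) (ψ (y a))) = fun a => algebraMap E N (y a) :=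
    funext fun a => χ.commutes (y a)
  rw [e1] at h1
  simp only [IsScalarTower.coe_toAlgHom'] at h0 mul
  generalize T N (fun i => algebraMap E N (y i)) = t at h0 h1 mul hσ
  have t1 : t 1 = 0 := by
    have := mul 1 1 one_ne_zero one_ne_zero
    rw [mul_one] at this
    linarith
  have t2 : ∀ z, z ≠ 0 → t (-z) = t z := fun z hz => by
    have a := mul (-1) (-1) (by simp) (by simp)
    have b := mul (-1) z (by simp) hz
    rw [neg_mul_neg, mul_one] at a
    rw [neg_one_mul] at b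
    linarith
  have t3 : ∀ s : Multiset N, (∀ r ∈ s, ∃ σ : N ≃ₐ[E] N, σ (χ g) = r) →
      s.prod ≠ 0 ∧ t s.prod = s.card * t (χ g) := fun s => by
    induction s using Multiset.induction_on with
    | empty => simp [t1]
    | cons a s ih =>
      intro h
      obtain ⟨σ, rfl⟩ := h a (Multiset.mem_cons_self _ _)
      obtain ⟨b1, b2⟩ := ih fun r hr => h r (Multiset.mem_cons_of_mem hr)
      have b0 : σ (χ g) ≠ 0 := (map_ne_zero σ).2 hg'
      rw [Multiset.prod_cons, Multiset.card_cons, mul _ _ b0 b1, b2, hσ]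
      exact ⟨mul_ne_zero b0 b1, by push_cast; ring⟩
  obtain ⟨b1, b2⟩ := t3 ((minpoly E (χ g)).map (algebraMap E N)).roots fun r hr => by
    refine minpoly.exists_algEquiv_of_root' hi.isAlgebraic ?_
    have h1 := (Polynomial.mem_roots hm.ne_zero).1 hr
    rwa [Polynomial.IsRoot.def, Polynomial.eval_map_algebraMap] at h1
  rw [← hs.natDegree_eq_card_roots, (minpoly.monic hi).natDegree_map] at b2
  rw [← Polynomial.coeff_map, hs.coeff_zero_eq_prod_roots_of_monic hm] at h0
  have h2 : t ((minpoly E (χ g)).map (algebraMap E N)).roots.prod =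
      hdeg (IsScalarTower.toAlgHom K E N) * T E y ((minpoly E (χ g)).coeff 0) := by
    rcases neg_one_pow_eq_or N ((minpoly E (χ g)).map (algebraMap E N)).natDegree with h3 | h3
    · rwa [h3, one_mul] at h0
    · rwa [h3, neg_one_mul, t2 _ b1] at h0
  have h3 : t (χ g) = hdeg (χ.restrictScalars K) * T L (fun a => ψ (y a)) g := h1
  rw [b2, h3] at h2
  rw [div_mul_eq_mul_div, ← h2, eq_div_iff (mul_ne_zero d1 d2)]
  ring

theorem xLow_loc {B : Type} [CommRing B] (j : B →+* E) (ξ : B →+* K) (π : B) (hπ : ξ π = 0)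
    (h : ∀ m, ξ m = 0 → ∃ s a, ξ s ≠ 0 ∧ j s * j m = j π * j a)
    (hq : ∀ z : E, z ≠ 0 → ∃ a b, j a ≠ 0 ∧ j b ≠ 0 ∧ z = j a / j b) {O O' : DV K E}
    (h1 : ∀ b, Near O.O (j b) (ξ b)) (h2 : ∀ b, Near O'.O (j b) (ξ b)) : O = O' := by
  have u : ∀ {V : DV K E}, (∀ b, Near V.O (j b) (ξ b)) → (∀ b, 0 ≤ V.ord (j b)) ∧
      (∀ b, ξ b ≠ 0 → j b ≠ 0 ∧ V.ord (j b) = 0) ∧ (j π ≠ 0 → 0 < V.ord (j π)) := by
    intro V hV
    refine ⟨fun b => (V.ord_nonneg_iff _).2 ((V.O.valuation_le_one_iff _).1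
      (sCtr_le V.const (hV b))), fun b hb => ?_, fun h0 => (V.ord_pos_iff h0).2 ?_⟩
    · have e := sCtr_unit V.const (hV b) hb
      refine ⟨fun h0 => by simp [h0] at e, (V.ord_eq_zero_iff _).2
        ⟨(V.O.valuation_le_one_iff _).1 e.le, (V.O.valuation_le_one_iff _).1 ?_⟩⟩
      rw [map_inv₀, e, inv_one]
    · have e := hV π
      unfold Near at e
      rwa [hπ, map_zero, sub_zero, ← ValuationSubring.mem_nonunits_iff] at e
  obtain ⟨a1, a2, a3⟩ := u h1
  obtain ⟨b1, b2, -⟩ := u h2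
  have key : ∀ (n : ℕ) (b : B), j b ≠ 0 → O.ord (j b) < n →
      ∃ k : ℤ, O.ord (j b) = k * O.ord (j π) ∧ O'.ord (j b) = k * O'.ord (j π) := by
    intro n
    induction n with
    | zero => exact fun b _ hb => absurd (a1 b) (by simpa using hb)
    | succ n ih =>
      intro b hb hn
      by_cases h0 : ξ b = 0
      · obtain ⟨s, a, hs, e⟩ := h b h0
        have c1 := mul_ne_zero (a2 s hs).1 hb
        rw [e] at c1
        have c2 := left_ne_zero_of_mul c1
        have c3 := right_ne_zero_of_mul c1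
        have e1 := congrArg O.ord e
        have e2 := congrArg O'.ord e
        rw [O.ord_mul (a2 s hs).1 hb, O.ord_mul c2 c3, (a2 s hs).2, zero_add] at e1
        rw [O'.ord_mul (a2 s hs).1 hb, O'.ord_mul c2 c3, (b2 s hs).2, zero_add] at e2
        have := a3 c2
        obtain ⟨k, k1, k2⟩ := ih a c3 (by push_cast at hn; omega)
        exact ⟨k + 1, by rw [e1, k1]; ring, by rw [e2, k2]; ring⟩
      · exact ⟨0, by rw [(a2 b h0).2, zero_mul], by rw [(b2 b h0).2, zero_mul]⟩
  refine DV.eq_of_le fun z hz => ?_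
  by_cases h0 : z = 0
  · rw [h0]
    exact zero_mem _
  obtain ⟨a, b, ha, hb, rfl⟩ := hq z h0
  obtain ⟨k, k1, k2⟩ := key ((O.ord (j a)).toNat + 1) a ha (by push_cast; omega)
  obtain ⟨l, l1, l2⟩ := key ((O.ord (j b)).toNat + 1) b hb (by push_cast; omega)
  rw [← DV.ord_nonneg_iff, DV.ord_div _ ha hb] at hz ⊢
  rw [k1, l1, ← sub_mul] at hz
  rw [k2, l2, ← sub_mul]
  by_cases h3 : j π = 0
  · rw [h3, O'.ord_zero, mul_zero]
  · exact mul_nonneg (nonneg_of_mul_nonneg_left hz (a3 h3)) (b1 π)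

end Pool.Agent.MP_a9d3bd_gx
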