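import Pool.Agent.MP_a9d3bd_gx.St
import Pool.Agent.MP_a9d3bd_yy.Ring
import Pool.Agent.MP_a9d3bd_yy.Ctr
import Pool.Agent.MP_a9d3bd_yy.Pl
import Pool.Agent.MP_a9d3bd_yy.Dv
import Pool.Agent.MP_a9d3bd_yy.Ext

/-! From the Galois cover to the fields. -/

namespace Pool.Agent.MP_a9d3bd_gx

open MvPolynomial Pool.Agent.MP_a9d3bd_q
open Pool.Agent.MP_a9d3bd_h (NZ lv EtL)
open Pool.Agent.MP_a9d3bd_yy (xA xL Dvs Pl Gal Near)
open Pool.Agent.MP_a9d3bd_x (LF GF Core)

theorem xMB_ite (p : Prop) (i i' : Decidable p) (a b : ℚ) :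
    @ite _ p i a b = @ite _ p i' a b := by
  rw [Subsingleton.elim i i']

theorem xMB_sum {K E L ι : Type} [Field K] [IsAlgClosed K] [Field E] [Algebra K E] [Field L]
    [Algebra K L] (hE : FF K E 1) (hL : FF K L 1) (ψ : E →ₐ[K] L) (σ : ι → E) (u : E)
    (p : ι → K) :
    ∑ᶠ O : DV K L, (open Classical in
      if Nr O (fun b => ψ (σ b)) p then (O.ord (ψ u) : ℚ) else 0) =
    hdeg ψ * ∑ᶠ O : DV K E, (open Classical in if Nr O σ p then (O.ord u : ℚ) else 0) := by
  refine sum_ext (j := 0) hE hL ψ _ _ ((fs_one hE u).subset fun V hV => ?_) fun O V hO => ?_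
  · intro h0
    apply hV
    have h0' : V.ord u = 0 := h0
    simp [h0']
  · have e : Nr O (fun b => ψ (σ b)) p ↔ Nr V σ p :=
      forall_congr' fun b => MP_a9d3bd_yy.sExt_near hO _ _
    rw [MP_a9d3bd_yy.sExt_hdeg hL hO, hO.ord_eq]
    by_cases h : Nr V σ p
    · rw [if_pos h, if_pos (e.2 h)]
      push_cast
      ring
    · rw [if_neg h, if_neg fun k => h (e.1 k)]
      ring

theorem xMB {K : Type} [Field K] [IsAlgClosed K] (h1 : XAp K) (h2 : XUp K) : XMB K := by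
  have _h := h2
  intro ι _ S e δ Λ hΛ hB J _ E _ _ σ u r hE hg hC
  have hc := MP_a9d3bd_yy.sCtr (K := K)
  choose x hx hs h0 hi using fun j => h1 (E j) (hE j).1 {O | O.ord (u j) ≠ 0}
    {O | ¬ O.Int (σ j)} (fs_one (hE j).1 _)
    ((Set.finite_iUnion fun b => fs_one (hE j).1 (σ j b)).subset fun O hO => by
      obtain ⟨b, hb⟩ := not_forall.1 hO
      exact Set.mem_iUnion.2 ⟨b, ((O.ord_neg_iff _).2 hb).ne⟩)
    (Set.disjoint_left.2 fun O hO hO' => by
      obtain ⟨p, hp, -⟩ := hg j O hO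
      exact hO' fun b => (hc _ (hE j).1 O).2.1 _ _ (hp b))
  obtain ⟨A, _, _, _, _, _, _, _, hG, hA, ψ, hψ⟩ :=
    MP_a9d3bd_yy.sRing J E x (fun j => (hE j).1) hx hs
  obtain ⟨p1, p2, -, -, -, p6⟩ := MP_a9d3bd_yy.sPl hc A hA
  choose σ' hσ' using fun j b => p6 (ψ j (σ j b)) fun O hO => by
    obtain ⟨V, hV⟩ := exists_lies_alg (hE j).1 hA (ψ j) O
    by_contra hn
    rw [← hψ j] at hO
    exact hi j V (fun k => hn ((hV _).1 (k b))) ((hV _).2 hO)
  choose ν hν1 hν2 hν3 hν4 using fun j => MP_a9d3bd_yy.sDv (MP_a9d3bd_yy.sPl hc) hc A hA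
    (ψ j (u j)) ((map_ne_zero_iff _ (ψ j).toRingHom.injective).2 (hE j).2.2) fun O hO => by
    obtain ⟨V, hV⟩ := exists_lies_alg (hE j).1 hA (ψ j) O
    by_contra hn
    have h := h0 j V fun k => hn ((MP_a9d3bd_yy.sExt_ord hV _).2 k)
    rw [← hψ j] at hO
    exact hO ((hV _).1 ((V.ord_nonneg_iff _).1 (by rw [h]; exact zero_le_one)))
  have hd : ∀ j, (hdeg (ψ j) : ℚ) ≠ 0 := fun j =>
    Nat.cast_ne_zero.2 (hdeg_pos (hE j).1 hA (ψ j)).ne'
  have nr : ∀ (β : A →ₐ[K] K) (O : DV K (FractionRing A)), Pl β O → ∀ (a : A) (c : K),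
      β a = c ↔ Near O.O (algebraMap A (FractionRing A) a) c :=
    fun β O h a c => ⟨fun k => k ▸ h a, fun k => (hc _ hA O).2.2.1 _ _ _ (h a) k⟩
  have ae : ∀ j (G : MvPolynomial ι K), algebraMap A (FractionRing A) (aeval (σ' j) G) =
      ψ j (aeval (σ j) G) := fun j G => by
    rw [← MvPolynomial.aeval_algebraMap_apply, comp_aeval_apply]
    exact congrArg (fun z => aeval z G) (funext fun b => hσ' j b)
  have inj := IsFractionRing.injective A (FractionRing A)
  have key := hB A hG hA J σ' (fun j => ψ j (u j)) ν (fun j => r j / hdeg (ψ j))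
    (fun j => ⟨⟨fun G hG => inj ?_, inj ?_, fun k => (hE j).2.1.2.2 ?_⟩, hν1 j⟩)
    (fun j β hβ => ?_) (fun p => ?_)
  · refine Eq.trans (Finset.sum_congr rfl fun j _ => ?_) key
    have e : (fun b => algebraMap A (FractionRing A) (σ' j b)) = fun b => ψ j (σ j b) :=
      funext fun b => hσ' j b
    rw [e, hΛ.ext (E j) _ (hE j).1 hA (ψ j), ← mul_assoc, div_mul_cancel₀ _ (hd j)]
  · rw [ae, (hE j).2.1.1 G hG, map_zero, map_zero]
  · rw [ae, (hE j).2.1.2.1, map_one, map_one]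
  · refine (map_eq_zero_iff _ (ψ j).toRingHom.injective).1 ?_
    exact (ae j δ).symm.trans (by rw [k, map_zero])
  · obtain ⟨O, hO⟩ := p1 β
    obtain ⟨V, hV⟩ := exists_lies_alg (hE j).1 hA (ψ j) O
    have hu : V.ord (u j) ≠ 0 := fun k => Finsupp.mem_support_iff.1 hβ
      ((hν3 j β O hO).trans ((MP_a9d3bd_yy.sExt_ord hV _).2 k))
    obtain ⟨p, hp, hp'⟩ := hg j V hu
    refine ⟨(nr β O hO _ _).2 ?_, ?_⟩
    · have h := h0 j V hu
      have hx0 : x j ≠ 0 := fun k => hx j (k ▸ isAlgebraic_zero)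
      have h3 : Near V.O (x j) (0 : K) := by
        unfold Near
        rw [map_zero, sub_zero, ← ValuationSubring.mem_nonunits_iff]
        exact (V.ord_pos_iff hx0).1 (by rw [h]; exact zero_lt_one)
      have h4 := (MP_a9d3bd_yy.sExt_near hV _ _).2 h3
      rw [hψ j] at h4
      exact h4
    · have e : (fun b => β (σ' j b)) = p := funext fun b => (nr β O hO _ _).2 (by
        rw [hσ' j b]
        exact (MP_a9d3bd_yy.sExt_near hV _ _).2 (hp b))
      rw [comp_aeval_apply, e]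
      exact hp'
  · refine Eq.trans (Finset.sum_congr rfl fun j _ => ?_) (hC p)
    have e := hν4 j (fun β => (fun b => β (σ' j b)) = p)
      (fun O => Nr O (fun b => ψ j (σ j b)) p) fun β O hO => by
        rw [_root_.funext_iff]
        exact forall_congr' fun b => by
          rw [nr β O hO, hσ' j b]
    have e2 := e.trans ((finsum_congr fun O => xMB_ite _ _ _ _ _).trans
      (xMB_sum (hE j).1 hA (ψ j) (σ j) (u j) p))
    refine (congrArg (fun q => r j / (hdeg (ψ j) : ℚ) * q) ((congrArg (ν j).sum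
      (funext fun β => funext fun z => xMB_ite _ _ _ _ _)).trans e2)).trans ?_
    rw [← mul_assoc, div_mul_cancel₀ _ (hd j)]

end Pool.Agent.MP_a9d3bd_gx
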