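import Pool.Agent.MP_a9d3bd_gx.St

namespace Pool.Agent.MP_a9d3bd_gx

open MvPolynomial Pool.Agent.MP_a9d3bd_q
open Pool.Agent.MP_a9d3bd_h (NZ lv EtL)

theorem xRg_ind {K E : Type} [Field K] [Field E] [Algebra K E] {d : ℕ} (u : Fin d → E)
    (h : d ≤ MP_a9d3bd_h.tds K (Set.range u)) : AlgebraicIndependent K u := by
  have := T1_lift_alg (k := K) u
  have h1 : Cardinal.mk (Fin d) ≤ Algebra.trdeg K (af K u) := by
    rw [Cardinal.mk_fin]
    exact (Nat.cast_le.2 h).trans_eq (MP_a9d3bd_h.tds_tr (Set.finite_range u)).symm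
  exact (Algebra.IsAlgebraic.isTranscendenceBasis_of_le_trdeg_of_finite K (T1_lift K u)
    h1).1.map' (f := (af K u).val) Subtype.val_injective

theorem xRg_hom {K ι : Type} [Field K] (e f : MvPolynomial ι K) (he : e.IsHomogeneous 1) :
    ∃ (n : ℕ) (g : MvPolynomial ι K), g.IsHomogeneous n ∧
      ∀ (E : Type) [Field E] [Algebra K E] (z : ι → E), aeval z e = 1 → aeval z g = aeval z f := by
  refine ⟨f.totalDegree, ∑ k ∈ Finset.range (f.totalDegree + 1),
    homogeneousComponent k f * e ^ (f.totalDegree - k), IsHomogeneous.sum _ _ _ fun k hk => ?_,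
    fun E _ _ z hz => ?_⟩
  · have := (homogeneousComponent_isHomogeneous k f).mul (he.pow (f.totalDegree - k))
    rwa [one_mul, Nat.add_sub_cancel' (Nat.lt_succ_iff.1 (Finset.mem_range.1 hk))] at this
  · conv_rhs => rw [← sum_homogeneousComponent f]
    simp only [map_sum, map_mul, map_pow, hz, one_pow, mul_one]

theorem xRg_core {K ι : Type} [Field K] [Fintype ι] [DecidableEq ι] (S : Set (MvPolynomial ι K))
    (d : ℕ) (l : Fin (d + 1) × ι → K) (hS : MP_a9d3bd_h.Sm S d)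
    (hp : (Ideal.span S).radical.IsPrime) (hl : NZ S l) :
    ∃ (B : Type) (_ : CommRing B) (_ : IsDomain B) (_ : Algebra K B) (y : ι → B),
    Function.Surjective (aeval y : MvPolynomial ι K →ₐ[K] B) ∧ (∀ G ∈ S, aeval y G = 0) ∧
    aeval y (MP_a9d3bd_h.lin l 0) = 1 ∧
    AlgebraicIndependent K (fun i : Fin d => aeval y (MP_a9d3bd_h.lin l i.succ)) ∧
    ∀ (E : Type) [Field E] [Algebra K E] (σ : ι → E), On S σ → lv l σ 0 = 1 →
      ∃ ξ : B →ₐ[K] E, ∀ b, ξ (y b) = σ b := by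
  let Q : MP_a9d3bd_h.Pr K ι := ⟨_, hp⟩
  have hQ : ∀ f ∈ S, f ∈ Q.asIdeal := fun f hf => Ideal.le_radical (Ideal.subset_span hf)
  have hd : ptd Q = d + 1 := (hS.sm Q hQ).1 (by
    rw [← Ideal.radical_minimalPrimes, Ideal.minimalPrimes_eq_subsingleton_self]
    rfl)
  obtain ⟨E, _, _, x, -, -, hx⟩ := exists_gen_a Q
  have hon : On S x := fun G hG => (mem_ak x G).1 (hx ▸ hQ G hG)
  have h1 : d + 1 ≤ MP_a9d3bd_h.tds K (Set.range (lv l x)) := by
    rw [← hx, MP_a9d3bd_h.ptd_ak'] at hd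
    refine hd.ge.trans (MP_a9d3bd_h.tds_le_of_alg (Set.finite_range _) ?_)
    rintro _ ⟨a, rfl⟩
    exact hl.alg hS.hom hon a
  have h0 : lv l x 0 ≠ 0 := fun e => by
    have h2 : MP_a9d3bd_h.tds K (Set.range (lv l x)) ≤
        MP_a9d3bd_h.tds K (Set.range fun i : Fin d => lv l x i.succ) := by
      refine MP_a9d3bd_h.tds_le_of_mem (Set.finite_range _) ?_
      rintro _ ⟨i, rfl⟩
      refine Fin.cases ?_ (fun j => ?_) i
      · rw [e]
        exact zero_mem _
      · exact IntermediateField.subset_adjoin K _ ⟨j, rfl⟩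
    have h3 := MP_a9d3bd_h.tds_range_le (K := K) fun i : Fin d => lv l x i.succ
    rw [Fintype.card_fin] at h3
    omega
  let y : ι → E := (lv l x 0)⁻¹ • x
  have hy : ∀ i, aeval y (MP_a9d3bd_h.lin l i) = (lv l x 0)⁻¹ * lv l x i := fun i => by
    rw [MP_a9d3bd_h.aeval_lin, MP_a9d3bd_h.lv_smul]
    rfl
  have hy0 : aeval y (MP_a9d3bd_h.lin l 0) = 1 := by rw [hy, inv_mul_cancel₀ h0]
  have hind : AlgebraicIndependent K fun i : Fin d => aeval y (MP_a9d3bd_h.lin l i.succ) := by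
    refine xRg_ind _ ?_
    have h2 : MP_a9d3bd_h.tds K (Set.range (lv l x)) ≤ MP_a9d3bd_h.tds K (insert (lv l x 0)
        (Set.range fun i : Fin d => aeval y (MP_a9d3bd_h.lin l i.succ))) := by
      refine MP_a9d3bd_h.tds_le_of_mem ((Set.finite_range _).insert _) ?_
      rintro _ ⟨i, rfl⟩
      refine Fin.cases ?_ (fun j => ?_) i
      · exact IntermediateField.subset_adjoin K _ (Or.inl rfl)
      · have e : lv l x j.succ = lv l x 0 * aeval y (MP_a9d3bd_h.lin l j.succ) := by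
          rw [hy, mul_inv_cancel_left₀ h0]
        rw [e]
        exact mul_mem (IntermediateField.subset_adjoin K _ (Or.inl rfl))
          (IntermediateField.subset_adjoin K _ (Or.inr ⟨j, rfl⟩))
    have h3 := MP_a9d3bd_h.tds_ins_le (K := K)
      (Set.finite_range fun i : Fin d => aeval y (MP_a9d3bd_h.lin l i.succ)) (lv l x 0)
    omega
  let φ : MvPolynomial ι K →ₐ[K] E := aeval y
  have ev : (aeval fun b => φ.rangeRestrict (X b)) = φ.rangeRestrict :=
    (aeval_unique φ.rangeRestrict).symm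
  refine ⟨φ.range, inferInstance, inferInstance, inferInstance, fun b => φ.rangeRestrict (X b),
    ?_, fun G hG => ?_, ?_, ?_, fun F _ _ σ h2 h3 => ?_⟩
  · rw [ev]
    exact φ.rangeRestrict_surjective
  · rw [ev]
    exact Subtype.ext ((on_smul hS.hom (inv_ne_zero h0) x).2 hon G hG)
  · rw [ev]
    exact Subtype.ext hy0
  · rw [ev]
    exact AlgebraicIndependent.of_comp φ.range.val hind
  · refine ⟨AlgHom.liftOfSurjective φ.rangeRestrict φ.rangeRestrict_surjective (aeval σ)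
      fun f hf => ?_, fun b => (AlgHom.liftOfSurjective_apply _ _ _ _ _).trans (aeval_X σ b)⟩
    have hf' : aeval y f = 0 := congrArg Subtype.val hf
    obtain ⟨n, g, g1, g2⟩ := xRg_hom (MP_a9d3bd_h.lin l 0) f
      (IsHomogeneous.sum _ _ _ fun b _ => isHomogeneous_C_mul_X _ b)
    have a1 : aeval x g = 0 := by
      have a2 := aeval_smul_hom g1 (lv l x 0)⁻¹ x
      rw [g2 E y hy0, hf'] at a2
      exact (mul_eq_zero.1 a2.symm).resolve_left (pow_ne_zero _ (inv_ne_zero h0))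
    have a3 : g ∈ Q.asIdeal := hx ▸ (mem_ak x g).2 a1
    have a4 : Q.asIdeal ≤ (ak K σ).asIdeal :=
      (ak K σ).isPrime.radical_le_iff.2 (Ideal.span_le.2 fun G hG => h2 G hG)
    have a5 : aeval σ g = 0 := a4 a3
    rw [g2 F σ ((MP_a9d3bd_h.aeval_lin l σ 0).trans h3)] at a5
    exact a5

theorem xRg {K : Type} [Field K] [IsAlgClosed K] : XRg K :=
  fun _ _ _ S d l => xRg_core S d l

end Pool.Agent.MP_a9d3bd_gx
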