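import Pool.Agent.MP_a9d3bd_gx.St

namespace Pool.Agent.MP_a9d3bd_gx

open MvPolynomial Pool.Agent.MP_a9d3bd_q
open Pool.Agent.MP_a9d3bd_h (NZ lv EtL)
open Pool.Agent.MP_a9d3bd_yy (xA xL Dvs Pl Gal Near)
open Pool.Agent.MP_a9d3bd_x (LF GF Core)
open Pool.Agent.MP_a9d3bd_y (oe ev Bnd It Ur)

theorem xST_map {K A B σ : Type} [Field K] [CommRing A] [Algebra K A] [CommRing B] [Algebra K B]
    (f : A →ₐ[K] B) (v : σ → A) (G : MvPolynomial σ K) :
    f (aeval v G) = aeval (fun o => f (v o)) G := by
  have : f.comp (aeval v) = aeval fun o => f (v o) := MvPolynomial.algHom_ext fun o => by simp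
  exact congrArg (fun g => g G) this

theorem xST_poly {A J : Type} [CommRing A] [IsDomain A] [Fintype J] {d : ℕ} (i₁ i₂ : Fin d)
    (hne : i₂ ≠ i₁) (x : A) (hx : x ≠ 0) (g : Fin d → Polynomial A) (t : J → A) :
    ∃ (c : Fin d → Polynomial A) (D : ℕ), (c i₁).Monic ∧ (c i₁).natDegree = D + 1 ∧
      (c i₂).natDegree = D ∧ (c i₂).leadingCoeff = x ∧ (∀ i, i ≠ i₁ → (c i).natDegree ≤ D) ∧
      ∀ i j, (c i).eval (t j) = (g i).eval (t j) := by
  classical
  obtain ⟨M, hM⟩ : ∃ M, ∀ i, (g i).natDegree < M :=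
    ⟨Finset.univ.sup (fun i => (g i).natDegree) + 1, fun i => Nat.lt_succ_of_le
      (Finset.le_sup (f := fun i => (g i).natDegree) (Finset.mem_univ i))⟩
  obtain ⟨Q, hQ, hQ0⟩ : ∃ Q : Polynomial A, Q.Monic ∧ ∀ j, Q.eval (t j) = 0 :=
    ⟨∏ j, (Polynomial.X - Polynomial.C (t j)),
      Polynomial.monic_prod_of_monic _ _ fun j _ => Polynomial.monic_X_sub_C _, fun j => by
        rw [Polynomial.eval_prod]
        exact Finset.prod_eq_zero (Finset.mem_univ j) (by simp)⟩
  have m : ∀ n, (Polynomial.X ^ n * Q).Monic := fun n => (Polynomial.monic_X_pow n).mul hQ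
  have dg : ∀ n, (Polynomial.X ^ n * Q).natDegree = n + Q.natDegree := fun n => by
    rw [(Polynomial.monic_X_pow n).natDegree_mul hQ, Polynomial.natDegree_X_pow]
  have d2 : (Polynomial.C x * (Polynomial.X ^ M * Q)).natDegree = M + Q.natDegree := by
    rw [Polynomial.natDegree_C_mul hx, dg]
  have e2 : (g i₂ + Polynomial.C x * (Polynomial.X ^ M * Q)).natDegree = M + Q.natDegree := by
    rw [Polynomial.natDegree_add_eq_right_of_natDegree_lt (by have := hM i₂; omega), d2]
  refine ⟨fun i => g i + if i = i₁ then Polynomial.X ^ (M + 1) * Q else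
    if i = i₂ then Polynomial.C x * (Polynomial.X ^ M * Q) else 0, M + Q.natDegree,
    ?_, ?_, ?_, ?_, fun i hi => ?_, fun i j => ?_⟩
  · simp only [if_true]
    exact (m _).add_of_right (Polynomial.degree_lt_degree (by rw [dg]; have := hM i₁; omega))
  · simp only [if_true]
    rw [Polynomial.natDegree_add_eq_right_of_natDegree_lt (by rw [dg]; have := hM i₁; omega), dg]
    omega
  · simp only [if_neg hne, if_true]
    exact e2
  · simp only [if_neg hne, if_true]
    rw [Polynomial.leadingCoeff_add_of_degree_lt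
      (Polynomial.degree_lt_degree (by rw [d2]; have := hM i₂; omega)),
      Polynomial.leadingCoeff_mul_monic (m M), Polynomial.leadingCoeff_C]
  · simp only [if_neg hi]
    by_cases h : i = i₂
    · rw [if_pos h, h, e2]
    · rw [if_neg h, add_zero]
      have := hM i
      omega
  · dsimp only
    split_ifs <;> simp [hQ0]

theorem xST {K : Type} [Field K] [IsAlgClosed K] (h1 : XGen K) (h2 : XSb K) (h3 : XGs K) :
    XST K := by
  classical
  intro ι _ _ S d l a H Y Λ hd hM hG hT A _ _ _ _ _ _ _ hgal hff J _ Cb t u ν r hok hsup hcl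
  have hx : xA K A ≠ 0 := by
    intro h
    have : (Polynomial.X : Polynomial K) • (1 : A) = 0 := by rw [Algebra.smul_def, mul_one]; exact h
    rcases smul_eq_zero.1 this with h | h
    · exact Polynomial.X_ne_zero h
    · exact one_ne_zero h
  obtain ⟨c, D, c1, c2, c3, c4, c5, c6⟩ := xST_poly (⟨0, by omega⟩ : Fin d) ⟨1, by omega⟩
    (by simp) _ hx (fun i => ∑ b, Polynomial.C (algebraMap K A (l (i.succ, b))) * Cb b) t
  obtain ⟨N, hN⟩ := h1 ι S d l a H Y hM A c _ _ D c1 c2 c3 c4 c5
  obtain ⟨s1, s2, s3, -⟩ := h2 d A c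
  let σ : J → ι → A := fun j b => (Cb b).eval (t j)
  let w : J → A := fun j => ∑ b, algebraMap K A (a b) * σ j b
  let q : J → Option (Fin d) → A := fun j o => aeval (σ j) (qq a l o)
  have hq : ∀ j (G : MvPolynomial (Option (Fin d)) K),
      (sbs c G).evalEval (t j) (w j) = aeval (q j) G := by
    intro j G
    rw [s3]
    congr 2
    funext o
    rcases o with _ | i
    · simp [oe, q, qq, w]
    · simp [oe, q, qq, c6, MP_a9d3bd_h.lin, σ, Polynomial.eval_finsetSum]
  have hδ : ∀ j, aeval (q j) (pderiv none H) = aeval (σ j) (aeval (qq a l) (pderiv none H)) :=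
    fun j => (xST_map (aeval (σ j)) _ _).symm
  let f : A →ₐ[K] FractionRing A := IsScalarTower.toAlgHom K A _
  have hf : Function.Injective f := IsFractionRing.injective A _
  have hl : ∀ j, lv l (fun b => f (σ j b)) 0 = 1 := fun j => by
    have := congrArg f (hok j).1.2.1
    rw [map_one, xST_map] at this
    simpa [MP_a9d3bd_h.lin, lv] using this
  have hh : ∀ j, aeval (q j) H = 0 ∧ ∀ b, f (aeval (q j) (Y b)) =
      f (aeval (q j) (pderiv none H)) * f (σ j b) := by
    intro j
    obtain ⟨e1, e2⟩ := hM.h1 (FractionRing A) (fun b => f (σ j b))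
      (fun G hG => by rw [← xST_map, (hok j).1.1 G hG, map_zero]) (hl j)
    have e : (fun o => aeval (fun b => f (σ j b)) (qq a l o)) = fun o => f (q j o) :=
      funext fun o => (xST_map f _ _).symm
    rw [e] at e1 e2
    refine ⟨hf (by rw [xST_map, e1, map_zero]), fun b => ?_⟩
    rw [xST_map, xST_map, e2]
  have hd0 : ∀ j, f (aeval (q j) (pderiv none H)) ≠ 0 := fun j h =>
    (hok j).1.2.2 (hf (by rw [← hδ, h, map_zero]))
  have hY : ∀ j, (fun b => algebraMap A (FractionRing A) ((sbs c (Y b)).evalEval (t j) (w j))) =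
      f (aeval (q j) (pderiv none H)) • fun b => f (σ j b) := fun j => funext fun b => by
    rw [hq]
    exact (hh j).2 b
  have key := hT A (h3 A hgal) hff (sbs c H) (fun b => sbs c (Y b)) N (s1 H hM.top) hN J t w u ν r
    (fun j => by rw [hq, (hh j).1]) (fun j => (hok j).2)
    (fun j => by rw [s2, hq, hδ]; exact (hok j).1.2.2)
    (fun j β hβ => by rw [s2, hq, hδ]; exact hsup j β hβ)
    (fun j h => by
      rw [hY] at h
      have h0 := (smul_eq_zero.1 h).resolve_left (hd0 j)
      have := hl j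
      rw [h0] at this
      simp [lv] at this)
    (fun β t0 w0 => by
      have hw : ∀ j, β (t j) = t0 →
          β (w j) = ∑ b, a b * ((Cb b).map (β : A →+* K)).eval t0 := by
        rintro j rfl
        simp only [w, σ, map_sum, map_mul, AlgHom.commutes, Algebra.algebraMap_self,
          RingHom.id_apply]
        exact Finset.sum_congr rfl fun b _ => congrArg (a b * ·)
          (Polynomial.eval_map_apply (β : A →+* K) (t j)).symm
      by_cases h : ∑ b, a b * ((Cb b).map (β : A →+* K)).eval t0 = w0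
      · refine (Finset.sum_congr rfl fun j _ =>
          if_congr ⟨fun h' => h'.1, fun h' => ⟨h', ?_⟩⟩ rfl rfl).trans (hcl β t0)
        rw [hw j h', h]
      · refine Finset.sum_eq_zero fun j _ => if_neg fun h' => h ?_
        rw [← hw j h'.1, h'.2])
  rw [← key]
  refine Finset.sum_congr rfl fun j _ => ?_
  rw [hY, hG.scale _ hff _ _ _ (hd0 j)]
  rfl

end Pool.Agent.MP_a9d3bd_gx
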