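import Pool.Agent.MP_a9d3bd_gx.St

namespace Pool.Agent.MP_a9d3bd_gx

open MvPolynomial Pool.Agent.MP_a9d3bd_q
open Pool.Agent.MP_a9d3bd_y (oe ev)

section
variable {K A : Type} [Field K] [CommRing A] [Algebra K A] {d : ℕ} (c : Fin d → Polynomial A)

theorem xSb_mono (s : Option (Fin d) →₀ ℕ) (a : K) : sbs c (monomial s a) =
    Polynomial.C (algebraMap K (Polynomial A) a * ∏ i, c i ^ s (some i)) *
      Polynomial.X ^ s none := by
  rw [sbs, aeval_monomial, Finsupp.prod_fintype _ _ fun _ => pow_zero _, Fintype.prod_option]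
  simp only [oe, Option.elim, map_mul, map_prod, map_pow]
  rw [Polynomial.algebraMap_apply]
  ring

theorem xSb_monic (H : MvPolynomial (Option (Fin d)) K)
    (h : coeff (Finsupp.single none H.totalDegree) H = 1) : (sbs c H).Monic := by
  classical
  have hs : Finsupp.single none H.totalDegree ∈ H.support := by
    rw [mem_support_iff, h]; exact one_ne_zero
  have e : sbs c H = Polynomial.X ^ H.totalDegree +
      ∑ s ∈ H.support.erase (Finsupp.single none H.totalDegree),
        sbs c (monomial s (coeff s H)) := by
    conv_lhs => rw [H.as_sum, map_sum, ← Finset.add_sum_erase _ _ hs]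
    rw [xSb_mono, h]
    simp
  rw [e]
  refine Polynomial.monic_X_pow_add ((Polynomial.degree_sum_le _ _).trans_lt ?_)
  refine (Finset.sup_lt_iff (WithBot.bot_lt_coe _)).2 fun s hs' => ?_
  obtain ⟨h1, h2⟩ := Finset.mem_erase.1 hs'
  rw [xSb_mono]
  refine (Polynomial.degree_C_mul_X_pow_le _ _).trans_lt (WithBot.coe_lt_coe.2 ?_)
  have h3 := le_totalDegree h2
  rw [Finsupp.sum_fintype _ _ fun _ => rfl, Fintype.sum_option] at h3
  by_contra h4
  have h4' : H.totalDegree ≤ s none := not_lt.1 h4
  have h5 : ∑ i, s (some i) = 0 := by omega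
  refine h1 (Finsupp.ext fun o => ?_)
  rcases o with _ | i
  · rw [Finsupp.single_eq_same]; omega
  · rw [Finsupp.single_eq_of_ne (by simp)]
    exact Finset.sum_eq_zero_iff.1 h5 i (Finset.mem_univ i)

theorem xSb_der (H : MvPolynomial (Option (Fin d)) K) :
    Polynomial.derivative (sbs c H) = sbs c (pderiv none H) := by
  induction H using MvPolynomial.induction_on with
  | C a => simp [sbs, Polynomial.algebraMap_apply]
  | add p q hp hq => simp only [map_add, hp, hq]
  | mul_X p o hp =>
    rw [map_mul, Polynomial.derivative_mul, hp, Derivation.leibniz, map_add, smul_eq_mul,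
      smul_eq_mul, map_mul, map_mul]
    rcases o with _ | i <;> simp [sbs, oe, pderiv_X, mul_comm, add_comm]

end

theorem xSb {K : Type} [Field K] [IsAlgClosed K] : XSb K := by
  intro d A _ _ c
  refine ⟨xSb_monic c, xSb_der c, fun H t w => ?_, fun H B _ _ i T Θ => ?_⟩
  · induction H using MvPolynomial.induction_on with
    | C a => simp [sbs, Polynomial.algebraMap_apply]
    | add p q hp hq => simp only [map_add, Polynomial.evalEval_add, hp, hq]
    | mul_X p o hp =>
      rw [map_mul, map_mul, Polynomial.evalEval_mul, hp]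
      rcases o with _ | i <;> simp [sbs, oe, Polynomial.evalEval_C]
  · induction H using MvPolynomial.induction_on with
    | C a => simp [sbs, ev, Polynomial.algebraMap_apply]
    | add p q hp hq => simp only [map_add, hp, hq]
    | mul_X p o hp =>
      rw [map_mul, map_mul, map_mul, hp]
      rcases o with _ | i <;> simp [sbs, oe, ev]

end Pool.Agent.MP_a9d3bd_gx
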