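import Pool.Agent.MP_a9d3bd_gx.St
import Pool.Agent.MP_a9d3bd_yy.Ext

/-! Change of the field. -/

namespace Pool.Agent.MP_a9d3bd_gx

open MvPolynomial Pool.Agent.MP_a9d3bd_q
open Pool.Agent.MP_a9d3bd_h (NZ lv EtL)
open Pool.Agent.MP_a9d3bd_yy (xA xL Dvs Pl Gal Near)
open Pool.Agent.MP_a9d3bd_x (LF GF Core)
open Pool.Agent.MP_a9d3bd_y (oe ev Bnd It Ur)
open Pool.Agent.MP_a9d3bd_yy (sExt_near sExt_ord)

theorem xUp_aeval {K L L' ι : Type} [Field K] [Field L] [Algebra K L] [Field L'] [Algebra K L']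
    (ψ : L →ₐ[K] L') (σ : ι → L) (G : MvPolynomial ι K) :
    aeval (fun b => ψ (σ b)) G = ψ (aeval σ G) := by
  rw [← MvPolynomial.comp_aeval]
  rfl

theorem xUp_nr {K L L' ι : Type} [Field K] [Field L] [Algebra K L] [Field L'] [Algebra K L']
    {ψ : L →ₐ[K] L'} {O' : DV K L'} {O : DV K L} (h : Lies ψ O' O) (σ : ι → L) (p : ι → K) :
    Nr O' (fun b => ψ (σ b)) p ↔ Nr O σ p :=
  forall_congr' fun b => sExt_near h (σ b) (p b)

theorem xUp {K : Type} [Field K] [IsAlgClosed K] : XUp K := by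
  classical
  intro ι _ S e δ L L' J _ _ _ _ _ σ u r ψ hL' h
  have hi : Function.Injective ψ := ψ.toRingHom.injective
  refine ⟨⟨hL', fun j => ⟨⟨fun G hG => ?_, ?_, ?_⟩, (map_ne_zero_iff ψ hi).2 (h.ok j).2⟩,
    fun j k O' hu => ?_, fun j O' p hu hp => ?_, fun O' p => ?_⟩, (hdeg_pos h.ff hL' ψ).ne',
    fun O' => ?_⟩
  · rw [xUp_aeval, (h.ok j).1.1 G hG, map_zero]
  · rw [xUp_aeval, (h.ok j).1.2.1, map_one]
  · rw [xUp_aeval]
    exact (map_ne_zero_iff ψ hi).2 (h.ok j).1.2.2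
  · obtain ⟨O, hO⟩ := exists_lies_alg h.ff hL' ψ O'
    obtain ⟨p, hp⟩ := h.reg j k O fun h' => hu ((sExt_ord hO _).2 h')
    exact ⟨p, (xUp_nr hO _ _).2 hp⟩
  · obtain ⟨O, hO⟩ := exists_lies_alg h.ff hL' ψ O'
    exact h.good j O p (fun h' => hu ((sExt_ord hO _).2 h')) ((xUp_nr hO _ _).1 hp)
  · obtain ⟨O, hO⟩ := exists_lies_alg h.ff hL' ψ O'
    have h1 := congrArg (fun z : ℚ => (hO.e : ℚ) * z) (h.cl O p)
    simp only [mul_zero, Finset.mul_sum] at h1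
    refine Eq.trans (Finset.sum_congr rfl fun j _ => ?_) h1
    rw [xUp_nr hO, hO.ord_eq]
    split_ifs
    · push_cast
      ring
    · ring
  · obtain ⟨O, hO⟩ := exists_lies_alg h.ff hL' ψ O'
    exact ⟨O, fun z => (hO z).symm, sExt_ord hO, sExt_near hO⟩

end Pool.Agent.MP_a9d3bd_gx
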