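import Pool.Agent.MP_a9d3bd_gx.St

/-! The components of a smooth variety are disjoint. -/

namespace Pool.Agent.MP_a9d3bd_gx

open MvPolynomial Pool.Agent.MP_a9d3bd_q Pool.Agent.MP_a9d3bd_h Sum

theorem xUq {K : Type} [Field K] [IsAlgClosed K] : XUq K := by
  intro ι _ _ S d hS W hW W' hW' p hp h1 h2
  have hon : ∀ {V : Ideal (MvPolynomial ι K)}, V ∈ (Ideal.span S).minimalPrimes →
      ∀ f ∈ S, f ∈ V := fun hV f hf => hV.1.2 (Ideal.subset_span hf)
  let P : Pr K ι := ⟨W, hW.1.1⟩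
  let P' : Pr K ι := ⟨W', hW'.1.1⟩
  have d1 : ptd P = d + 1 := (hS.sm P (hon hW)).1 hW
  have d2 : ptd P' = d + 1 := (hS.sm P' (hon hW')).1 hW'
  have l1 : P ≤ ak K p := fun f hf => (mem_ak _ _).2 (h1 f hf)
  have l2 : P' ≤ ak K p := fun f hf => (mem_ak _ _).2 (h2 f hf)
  obtain ⟨a, ha⟩ := hS.et (Q := ak K p) (Smo_on.2 fun f hf => l1 (hon hW f hf)) (by
    obtain ⟨b, hb⟩ := Function.ne_iff.1 hp
    exact ⟨b, fun e => hb (by simpa using (mem_ak _ _).1 e)⟩)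
  let Q : Pr K (ι ⊕ ι) := ak K (Sum.elim p p)
  have hQ : Diag inl inr Q := fun b => (mem_ak _ _).2 (by simp)
  have hsp : ∀ {R : Pr K (ι ⊕ ι)}, Diag inl inr R → Ideal.span (Set.range fun b =>
      (X (inl b) - X (inr b) : MvPolynomial (ι ⊕ ι) K)) ≤ R.asIdeal := fun h =>
    Ideal.span_le.2 (Set.range_subset_iff.2 h)
  obtain ⟨R, r1, r2, r3, r4⟩ := krull_list (P := tp inl inr P P') (Q := Q)
    ((tp_le_ak spl_sum).2 ⟨l1, l2⟩) (l := dfs inl inr fun j => X (a j))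
    fun f hf => hsp hQ (dfs_mem_span _ _ _ f hf)
  obtain ⟨c1, c2⟩ := (tp_le spl_sum).1 r1
  have hE : EtL S (fun j => X (a j)) (Q.asIdeal.comap (rename inl)) := by
    rw [← cmp_rn_ideal, cmp_rn_ak]
    exact et_iff.1 ha
  have hD := diag_of_dfs hQ hE r2 (fun f hf => mem_cmp_rn.1 (c1 (hon hW f hf)))
    (fun f hf => mem_cmp_rn.1 (c2 (hon hW' f hf))) r3
  have hg : (fun b => gn R (inl b)) = fun b => gn R (inr b) := funext fun b => by
    have := (mem_ak _ _).1 ((ak_gn R).ge (hD b))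
    simpa [sub_eq_zero] using this
  have e1 : cmp (rn K inl) R = ak K fun b => gn R (inl b) := by rw [← cmp_rn_ak, ak_gn]
  have e2 : cmp (rn K inr) R = ak K fun b => gn R (inl b) := by rw [hg, ← cmp_rn_ak, ak_gn]
  have e3 : ptd (ak K fun b => gn R (inl b)) = ptd R := by
    conv_rhs => rw [← ak_gn R, ptd_ak', (spl_sum (σ₁ := ι) (σ₂ := ι)).range, ← hg, Set.union_self]
    exact ptd_ak' _
  rw [ptd_tp spl_sum, length_dfs] at r4
  rw [e1] at c1
  rw [e2] at c2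
  exact congrArg PrimeSpectrum.asIdeal
    ((eq_of_ptd c1 (by omega)).trans (eq_of_ptd c2 (by omega)).symm)

end Pool.Agent.MP_a9d3bd_gx
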