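import Pool.Agent.MP_a9d3bd_gx.Asm
import Pool.Agent.MP_a9d3bd_gx.CU
import Pool.Agent.MP_a9d3bd_gx.Cl
import Pool.Agent.MP_a9d3bd_gx.PF
import Pool.Agent.MP_a9d3bd_gx.Ap
import Pool.Agent.MP_a9d3bd_gx.MB
import Pool.Agent.MP_a9d3bd_gx.BA
import Pool.Agent.MP_a9d3bd_gx.AL
import Pool.Agent.MP_a9d3bd_gx.Up
import Pool.Agent.MP_a9d3bd_gx.LW
import Pool.Agent.MP_a9d3bd_gx.Lag
import Pool.Agent.MP_a9d3bd_gx.Lam
import Pool.Agent.MP_a9d3bd_gx.WS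
import Pool.Agent.MP_a9d3bd_gx.Deg
import Pool.Agent.MP_a9d3bd_gx.Ind
import Pool.Agent.MP_a9d3bd_gx.Gen
import Pool.Agent.MP_a9d3bd_gx.Sb
import Pool.Agent.MP_a9d3bd_gx.ST
import Pool.Agent.MP_a9d3bd_gx.For
import Pool.Agent.MP_a9d3bd_gx.Rg
import Pool.Agent.MP_a9d3bd_gx.Bd
import Pool.Agent.MP_a9d3bd_gx.HM
import Pool.Agent.MP_a9d3bd_gx.Gs
import Pool.Agent.MP_a9d3bd_gx.Uq
import Pool.Agent.MP_a9d3bd_gx.Cm
import Pool.Agent.MP_a9d3bd_x.CC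
import Pool.Agent.MP_a9d3bd_x.CL
import Pool.Agent.MP_a9d3bd_x.DG
import Pool.Agent.MP_a9d3bd_x.FACE
import Pool.Agent.MP_a9d3bd_x.MT
import Pool.Agent.MP_a9d3bd_x.NRM
import Pool.Agent.MP_a9d3bd_x.PT
import Pool.Agent.MP_a9d3bd_x.T0
import Pool.Agent.MP_a9d3bd_x.ADM

/-! The first higher Chow group of zero-cycles is torsion. -/

namespace Pool.Agent.MP_a9d3bd_gx

open MvPolynomial Sum Pool.Agent.MP_a9d3bd_q Pool.Agent.MP_a9d3bd_h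
open Pool.Agent.MP_a9d3bd_x (LF GF Core sCC sCL sDG sFACE sMT sNRM sPT sT0 sADM)

theorem coreX {K ι : Type} [Field K] [IsAlgClosed K] [Fintype ι] [DecidableEq ι] (p : ℕ)
    [Fact p.Prime] [CharP K p] (halg : ∀ c : K, ∃ n, 0 < n ∧ c ^ p ^ n = c)
    {S : Set (MvPolynomial ι K)} {d : ℕ} (hd : 2 ≤ d) (hS : MP_a9d3bd_h.Sm S d) : Core S :=
  xCl ι S fun Λ hΛ => xCm xUq ι S d Λ hS hΛ fun _ hS' hp hΛ' =>
    asm_irr xPF (xMB xAp xUp) xBA xAL (xLW xAp xUp) (xWS xAp xUp (xLam xLag))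
      (xST (xGen xDeg xInd xSb) xSb xGs) (xHM xFor xRg xBd) (cu_root Fact.out halg) hd hS' hp hΛ'
      (coreU p halg hS'.hom hΛ')

theorem main (k ι : Type) [Field k] [Finite k] [Fintype ι] [DecidableEq ι]
    (S : Set (MvPolynomial ι k)) (d : ℕ) (hd : 2 ≤ d) (h1 : Homog S) (h2 : Smooth S d) :
    ∀ z ∈ Ch S (Fin 1) 1, Cl inr z → z ∈ Bd S (Fin 1) 1 :=
  asm_red (sT0 sCC (sFACE sCC) sADM sNRM sDG) sMT sPT (sCL (sFACE sCC)) k ι S d ⟨h1, h2⟩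
    fun p _ _ halg h => coreX p halg hd h

end Pool.Agent.MP_a9d3bd_gx
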