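import Pool.Agent.MP_a9d3bd_gx.Main
import Pool.Agent.MP_a9d3bd_gx.Low

/-! All dimensions. -/

namespace Pool.Agent.MP_a9d3bd_gx

open MvPolynomial Sum Pool.Agent.MP_a9d3bd_q Pool.Agent.MP_a9d3bd_h
open Pool.Agent.MP_a9d3bd_x (LF GF Core sCC sCL sDG sFACE sMT sNRM sPT sT0 sADM)

theorem coreA {K ι : Type} [Field K] [IsAlgClosed K] [Fintype ι] [DecidableEq ι] (p : ℕ)
    [Fact p.Prime] [CharP K p] (halg : ∀ c : K, ∃ n, 0 < n ∧ c ^ p ^ n = c)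
    {S : Set (MvPolynomial ι K)} {d : ℕ} (hS : MP_a9d3bd_h.Sm S d) : Core S := by
  rcases Nat.lt_or_ge d 2 with hd | hd
  · exact xCl ι S fun Λ hΛ => xCm xUq ι S d Λ hS hΛ fun _ hS' hp hΛ' =>
      xLow (cu_root Fact.out halg) (Nat.lt_succ_iff.1 hd) hS' hp hΛ'
  · exact coreX p halg hd hS

theorem mainA (k ι : Type) [Field k] [Finite k] [Fintype ι] [DecidableEq ι]
    (S : Set (MvPolynomial ι k)) (d : ℕ) (h1 : Homog S) (h2 : Smooth S d) :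
    ∀ z ∈ Ch S (Fin 1) 1, Cl inr z → z ∈ Bd S (Fin 1) 1 :=
  asm_red (sT0 sCC (sFACE sCC) sADM sNRM sDG) sMT sPT (sCL (sFACE sCC)) k ι S d ⟨h1, h2⟩
    fun p _ _ halg h => coreA p halg h

end Pool.Agent.MP_a9d3bd_gx
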