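import Pool.Agent.MP_a9d3bd_y.TSt
import Pool.Agent.MP_a9d3bd_y.TDefs2
import Pool.Agent.MP_a9d3bd_x.St
import Pool.Agent.Mg.F53d700.Gb7f1e9

/-! Reduction of closed chains on a smooth projective variety to sections of a surface. -/

namespace Pool.Agent.MP_a9d3bd_gx

open MvPolynomial Pool.Agent.MP_a9d3bd_q
open Pool.Agent.MP_a9d3bd_h (NZ lv EtL)
open Pool.Agent.MP_a9d3bd_yy (xA xL Dvs Pl Gal Near)
open Pool.Agent.MP_a9d3bd_x (LF GF Core)
open Pool.Agent.MP_a9d3bd_y (oe ev Bnd It Ur)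

section
variable {K ι : Type} [Field K]

/-- The affine point `σ` has the value `p` at the place. -/
def Nr {E : Type} [Field E] [Algebra K E] (O : DV K E) (σ : ι → E) (p : ι → K) : Prop :=
  ∀ b, Near O.O (σ b) (p b)

/-- The projective point `y` has the value `p` at the place. -/
def Ct {E : Type} [Field E] [Algebra K E] (O : DV K E) (y : ι → E) (p : ι → K) : Prop :=
  ∃ c : E, Nr O (c • y) p

/-- A point in the chart `e = 1` with `δ ≠ 0`. -/
def Ok (S : Set (MvPolynomial ι K)) (e δ : MvPolynomial ι K) {E : Type} [CommRing E] [Algebra K E]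
    (σ : ι → E) : Prop :=
  (∀ G ∈ S, aeval σ G = 0) ∧ aeval σ e = 1 ∧ aeval σ δ ≠ 0

variable (S : Set (MvPolynomial ι K)) (e δ : MvPolynomial ι K) (Λ : LF K ι)

/-- Closed chains in projective coordinates. -/
def CoreP : Prop :=
  ∀ (J : Type) [Fintype J] (E : J → Type) [∀ j, Field (E j)] [∀ j, Algebra K (E j)]
    (y : ∀ j, ι → E j) (u : ∀ j, E j) (r : J → ℚ),
    (∀ j, FF K (E j) 1 ∧ y j ≠ 0 ∧ On S (y j) ∧ u j ≠ 0) →
    (∀ p : ι → K, p ≠ 0 → ∑ j, r j * ∑ᶠ O : DV K (E j),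
      (open Classical in if Ct O (y j) p then (O.ord (u j) : ℚ) else 0) = 0) →
    ∑ j, r j * Λ (E j) (y j) (u j) = 0

/-- Closed chains in a chart. -/
def CoreF : Prop :=
  ∀ (J : Type) [Fintype J] (E : J → Type) [∀ j, Field (E j)] [∀ j, Algebra K (E j)]
    (σ : ∀ j, ι → E j) (u : ∀ j, E j) (r : J → ℚ),
    (∀ j, FF K (E j) 1 ∧ Ok S e δ (σ j) ∧ u j ≠ 0) →
    (∀ j (O : DV K (E j)), O.ord (u j) ≠ 0 → ∃ p, Nr O (σ j) p ∧ eval p δ ≠ 0) →
    (∀ p : ι → K, ∑ j, r j * ∑ᶠ O : DV K (E j),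
      (open Classical in if Nr O (σ j) p then (O.ord (u j) : ℚ) else 0) = 0) →
    ∑ j, r j * Λ (E j) (σ j) (u j) = 0

/-- Sections over a Galois cover of the line, all supports over the origin. -/
def CoreB : Prop :=
  ∀ (A : Type) [CommRing A] [IsDedekindDomain A] [Algebra K A] [Algebra (Polynomial K) A]
    [IsScalarTower K (Polynomial K) A] [Module.Finite (Polynomial K) A]
    [Module.IsTorsionFree (Polynomial K) A], Gal K A → FF K (FractionRing A) 1 →
    ∀ (J : Type) [Fintype J] (σ : J → ι → A) (u : J → FractionRing A)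
      (ν : J → (A →ₐ[K] K) →₀ ℤ) (r : J → ℚ), (∀ j, Ok S e δ (σ j) ∧ Dvs K (u j) (ν j)) →
    (∀ j, ∀ β ∈ (ν j).support, β (xA K A) = 0 ∧ β (aeval (σ j) δ) ≠ 0) →
    (∀ p : ι → K, ∑ j, r j * ((ν j).sum fun β z => (open Classical in
      if (fun b => β (σ j b)) = p then (z : ℚ) else 0)) = 0) →
    ∑ j, r j * Λ (FractionRing A) (fun b => algebraMap A _ (σ j b)) (u j) = 0

/-- Sections, closed at each point of the base. -/
def CoreA : Prop :=
  ∀ (A : Type) [CommRing A] [IsDedekindDomain A] [Algebra K A] [Algebra (Polynomial K) A]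
    [IsScalarTower K (Polynomial K) A] [Module.Finite (Polynomial K) A]
    [Module.IsTorsionFree (Polynomial K) A], FF K (FractionRing A) 1 →
    ∀ (J : Type) [Fintype J] (σ : J → ι → A) (u : J → FractionRing A)
      (ν : J → (A →ₐ[K] K) →₀ ℤ) (r : J → ℚ), (∀ j, Ok S e δ (σ j) ∧ Dvs K (u j) (ν j)) →
    (∀ j, ∀ β ∈ (ν j).support, β (aeval (σ j) δ) ≠ 0) →
    (∀ (β : A →ₐ[K] K) (p : ι → K), ∑ j, (open Classical in
      if (fun b => β (σ j b)) = p then r j * (ν j β : ℚ) else 0) = 0) →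
    ∑ j, r j * Λ (FractionRing A) (fun b => algebraMap A _ (σ j b)) (u j) = 0

/-- The data over one field, closed at each place. -/
structure Dt {L J : Type} [Field L] [Algebra K L] [Fintype J] (σ : J → ι → L) (u : J → L)
    (r : J → ℚ) : Prop where
  ff : FF K L 1
  ok : ∀ j, Ok S e δ (σ j) ∧ u j ≠ 0
  reg : ∀ j k (O : DV K L), O.ord (u j) ≠ 0 → ∃ p, Nr O (σ k) p
  good : ∀ j (O : DV K L) p, O.ord (u j) ≠ 0 → Nr O (σ j) p → eval p δ ≠ 0
  cl : ∀ (O : DV K L) (p : ι → K), ∑ j, (open Classical in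
    if Nr O (σ j) p then r j * (O.ord (u j) : ℚ) else 0) = 0

/-- One field. -/
def CoreL : Prop :=
  ∀ (L J : Type) [Field L] [Algebra K L] [Fintype J] (σ : J → ι → L) (u : J → L) (r : J → ℚ),
    Dt S e δ σ u r → ∑ j, r j * Λ L (σ j) (u j) = 0

/-- The points are constant to a high order at the places of the supports. -/
def Tan {L J : Type} [Field L] [Algebra K L] [Fintype J] (σ : J → ι → L) (u : J → L) (w : L) :
    Prop :=
  w ≠ 0 ∧ ∀ j (O : DV K L), O.ord (u j) ≠ 0 → O.O.valuation w < 1 ∧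
    ∀ k p, Nr O (σ k) p → ∀ b, O.O.valuation (σ k b - algebraMap K L (p b)) ≤
      O.O.valuation w ^ (Fintype.card J + 2)

/-- One field, with tangency. -/
def CoreW : Prop :=
  ∀ (L J : Type) [Field L] [Algebra K L] [Fintype J] (σ : J → ι → L) (u : J → L) (r : J → ℚ)
    (w : L), Dt S e δ σ u r → Tan (K := K) σ u w → ∑ j, r j * Λ L (σ j) (u j) = 0

/-- The points lie on a family of rational curves. -/
def CoreS : Prop :=
  ∀ (A : Type) [CommRing A] [IsDedekindDomain A] [Algebra K A] [Algebra (Polynomial K) A]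
    [IsScalarTower K (Polynomial K) A] [Module.Finite (Polynomial K) A]
    [Module.IsTorsionFree (Polynomial K) A], Gal K A → FF K (FractionRing A) 1 →
    ∀ (J : Type) [Fintype J] (C : ι → Polynomial A) (t : J → A) (u : J → FractionRing A)
      (ν : J → (A →ₐ[K] K) →₀ ℤ) (r : J → ℚ),
    (∀ j, Ok S e δ (fun b => (C b).eval (t j)) ∧ Dvs K (u j) (ν j)) →
    (∀ j, ∀ β ∈ (ν j).support, β (aeval (fun b => (C b).eval (t j)) δ) ≠ 0) →
    (∀ (β : A →ₐ[K] K) (t0 : K), ∑ j, (open Classical in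
      if β (t j) = t0 then r j * (ν j β : ℚ) else 0) = 0) →
    ∑ j, r j * Λ (FractionRing A) (fun b => algebraMap A _ ((C b).eval (t j))) (u j) = 0

variable [Fintype ι] [DecidableEq ι] {d : ℕ}

/-- The projection to a hypersurface. -/
noncomputable def qq (a : ι → K) (l : Fin (d + 1) × ι → K) : Option (Fin d) → MvPolynomial ι K :=
  oe (∑ b, C (a b) * X b) fun i => MP_a9d3bd_h.lin l i.succ

/-- A hypersurface model of `V(S)`. -/
structure HM (l : Fin (d + 1) × ι → K) (a : ι → K) (H : MvPolynomial (Option (Fin d)) K)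
    (Y : ι → MvPolynomial (Option (Fin d)) K) : Prop where
  hom : Homog S
  nz : NZ S l
  top : coeff (Finsupp.single none H.totalDegree) H = 1
  h1 : ∀ (E : Type) [Field E] [Algebra K E] (σ : ι → E), On S σ → lv l σ 0 = 1 →
    aeval (fun o => aeval σ (qq a l o)) H = 0 ∧ ∀ b, aeval (fun o => aeval σ (qq a l o)) (Y b) =
      aeval (fun o => aeval σ (qq a l o)) (pderiv none H) * σ b
  h2 : ∀ (E : Type) [Field E] [Algebra K E] (q : Option (Fin d) → E), aeval q H = 0 →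
    On S (fun b => aeval q (Y b)) ∧ lv l (fun b => aeval q (Y b)) 0 = aeval q (pderiv none H) ∧
    ∀ i, lv l (fun b => aeval q (Y b)) i.succ = q (some i) * aeval q (pderiv none H)

/-- Substitution of `Θ` and of polynomials `c i (T)`. -/
noncomputable def sbs {A : Type} [CommRing A] [Algebra K A] (c : Fin d → Polynomial A) :
    MvPolynomial (Option (Fin d)) K →ₐ[K] Polynomial (Polynomial A) :=
  aeval (oe Polynomial.X fun i => Polynomial.C (c i))

end

variable (K : Type) [Field K]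

/-- closedness point by point -/
def XCl : Prop := ∀ (ι : Type) [Fintype ι] (S : Set (MvPolynomial ι K)),
  (∀ Λ : LF K ι, GF S Λ → CoreP S Λ) → Core S

/-- from the chart to projective coordinates -/
def XPF : Prop := ∀ (ι : Type) [Fintype ι] (S : Set (MvPolynomial ι K)) (Λ : LF K ι), Homog S →
  GF S Λ → (∀ T : Set (ι → K), T.Finite → T.Nonempty → (∀ p ∈ T, p ≠ 0 ∧ On S p) →
    ∃ e δ : MvPolynomial ι K, e.IsHomogeneous 1 ∧ CoreF S e δ Λ ∧
      ∀ p ∈ T, eval p e ≠ 0 ∧ eval ((eval p e)⁻¹ • p) δ ≠ 0) → CoreP S Λ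

/-- approximation -/
def XAp : Prop := ∀ (E : Type) [Field E] [Algebra K E], FF K E 1 →
  ∀ S₀ S₁ : Set (DV K E), S₀.Finite → S₁.Finite → Disjoint S₀ S₁ →
  ∃ x : E, Transcendental K x ∧ Algebra.IsSeparable (IntermediateField.adjoin K {x}) E ∧
    (∀ O ∈ S₀, O.ord x = 1) ∧ ∀ O ∈ S₁, x ∉ O.O

/-- from the cover to the fields -/
def XMB : Prop := ∀ (ι : Type) [Fintype ι] (S : Set (MvPolynomial ι K)) (e δ : MvPolynomial ι K)
  (Λ : LF K ι), GF S Λ → CoreB S e δ Λ → CoreF S e δ Λ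

/-- averaging over the Galois group -/
def XBA : Prop := ∀ (ι : Type) [Fintype ι] (S : Set (MvPolynomial ι K)) (e δ : MvPolynomial ι K)
  (Λ : LF K ι), GF S Λ → CoreA S e δ Λ → CoreB S e δ Λ

/-- from places to points -/
def XAL : Prop := ∀ (ι : Type) [Fintype ι] (S : Set (MvPolynomial ι K)) (e δ : MvPolynomial ι K)
  (Λ : LF K ι), CoreL S e δ Λ → CoreA S e δ Λ

/-- change of the field -/
def XUp : Prop := ∀ (ι : Type) [Fintype ι] (S : Set (MvPolynomial ι K)) (e δ : MvPolynomial ι K)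
  (L L' J : Type) [Field L] [Algebra K L] [Field L'] [Algebra K L'] [Fintype J] (σ : J → ι → L)
  (u : J → L) (r : J → ℚ) (ψ : L →ₐ[K] L'), FF K L' 1 → Dt S e δ σ u r →
  Dt S e δ (fun j b => ψ (σ j b)) (fun j => ψ (u j)) r ∧ hdeg ψ ≠ 0 ∧
  ∀ O' : DV K L', ∃ O : DV K L, (∀ z, ψ z ∈ O'.O ↔ z ∈ O.O) ∧
    (∀ z, O'.ord (ψ z) = 0 ↔ O.ord z = 0) ∧ ∀ z (c : K), Near O'.O (ψ z) c ↔ Near O.O z c

/-- ramified base change -/
def XLW : Prop := ∀ (ι : Type) [Fintype ι] (S : Set (MvPolynomial ι K)) (e δ : MvPolynomial ι K)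
  (Λ : LF K ι), GF S Λ → CoreW S e δ Λ → CoreL S e δ Λ

/-- integrality of an interpolation polynomial -/
def XLag : Prop := ∀ (L J : Type) [Field L] [Algebra K L] [Fintype J] [DecidableEq J]
  (V : ValuationSubring L), (∀ c : K, algebraMap K L c ∈ V) → ∀ (w : L) (t a : J → L)
  (κ α : J → K), w ≠ 0 → V.valuation w < 1 → (∀ j k, κ j = κ k → α j = α k) →
  (∀ j, V.valuation (t j - algebraMap K L (κ j)) ≤ V.valuation w) →
  (∀ j, V.valuation (a j - algebraMap K L (α j)) ≤ V.valuation w ^ Fintype.card J) →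
  (∀ j k, j ≠ k → V.valuation w ≤ V.valuation (t j - t k)) →
  ∀ n, (Lagrange.interpolate Finset.univ t a).coeff n ∈ V

/-- the parameters -/
def XLam : Prop := ∀ (ι : Type) [Fintype ι] (S : Set (MvPolynomial ι K)) (e δ : MvPolynomial ι K)
  (L J : Type) [Field L] [Algebra K L] [Fintype J] (σ : J → ι → L) (u : J → L) (r : J → ℚ)
  (w : L), Dt S e δ σ u r → Tan (K := K) σ u w → (∃ j, ∃ O : DV K L, O.ord (u j) ≠ 0) →
  ∃ (t : J → L) (C : ι → Polynomial L), (∀ j b, (C b).eval (t j) = σ j b) ∧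
    ∀ j (O : DV K L), O.ord (u j) ≠ 0 → (∀ k, t k ∈ O.O) ∧ (∀ b n, (C b).coeff n ∈ O.O)  ∧
      ∀ k k' p, Nr O (σ k) p → Nr O (σ k') p → O.O.valuation (t k - t k') < 1

/-- from the family of rational curves to the field -/
def XWS : Prop := (∀ c : K, c ≠ 0 → ∃ n, 0 < n ∧ c ^ n = 1) →
  ∀ (ι : Type) [Fintype ι] (S : Set (MvPolynomial ι K)) (e δ : MvPolynomial ι K)
  (Λ : LF K ι), e.IsHomogeneous 1 → GF S Λ → CoreS S e δ Λ → CoreW S e δ Λ

/-- places at which the projection is constant are degenerate -/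
def XDeg : Prop := ∀ (ι : Type) [Fintype ι] [DecidableEq ι] (S : Set (MvPolynomial ι K)) (d : ℕ)
  (l : Fin (d + 1) × ι → K), Homog S → NZ S l → ∀ (F : Type) [Field F] [Algebra K F], FF K F 2 →
  ∀ (y : ι → F) (O : DV K F) (c : F) (v : Fin (d + 1) → K), On S y → v ≠ 0 →
  (∀ i, Near O.O (c * lv l y i) (v i)) → ¬ ND K (O.red y)

/-- algebraic independence of two polynomials -/
def XInd : Prop := ∀ (A F : Type) [CommRing A] [IsDomain A] [Algebra K A] [Field F] [Algebra K F]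
  (i : A →ₐ[K] F) (T : F) (x : A) (f g : Polynomial A) (D : ℕ), Transcendental K x →
  (∀ h : Polynomial A, h.eval₂ (i : A →+* F) T = 0 → h = 0) → f.Monic → f.natDegree = D + 1 →
  g.natDegree = D → g.leadingCoeff = x →
  AlgebraicIndependent K ![f.eval₂ (i : A →+* F) T, g.eval₂ (i : A →+* F) T]

/-- the surface -/
def XGen : Prop := ∀ (ι : Type) [Fintype ι] [DecidableEq ι] (S : Set (MvPolynomial ι K)) (d : ℕ)
  (l : Fin (d + 1) × ι → K) (a : ι → K) (H : MvPolynomial (Option (Fin d)) K)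
  (Y : ι → MvPolynomial (Option (Fin d)) K), HM S l a H Y →
  ∀ (A : Type) [CommRing A] [IsDomain A] [Algebra K A] [Algebra (Polynomial K) A]
    [IsScalarTower K (Polynomial K) A] [Module.Finite (Polynomial K) A]
    [Module.IsTorsionFree (Polynomial K) A] (c : Fin d → Polynomial A) (i₁ i₂ : Fin d) (D : ℕ),
    (c i₁).Monic → (c i₁).natDegree = D + 1 → (c i₂).natDegree = D →
    (c i₂).leadingCoeff = xA K A → (∀ i, i ≠ i₁ → (c i).natDegree ≤ D) →
    ∃ N, MP_a9d3bd_y.Gen' S (sbs c H) (fun b => sbs c (Y b)) N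

/-- formal properties of the substitution -/
def XSb : Prop := ∀ (d : ℕ) (A : Type) [CommRing A] [Algebra K A] (c : Fin d → Polynomial A),
  (∀ H : MvPolynomial (Option (Fin d)) K, coeff (Finsupp.single none H.totalDegree) H = 1 →
    (sbs c H).Monic) ∧
  (∀ H : MvPolynomial (Option (Fin d)) K,
    Polynomial.derivative (sbs c H) = sbs c (pderiv none H)) ∧
  (∀ (H : MvPolynomial (Option (Fin d)) K) (t w : A),
    (sbs c H).evalEval t w = aeval (oe w fun i => (c i).eval t) H) ∧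
  ∀ (H : MvPolynomial (Option (Fin d)) K) (B : Type) [CommRing B] [Algebra K B] (i : A →ₐ[K] B)
    (T Θ : B), ev i T Θ (sbs c H) = aeval (oe Θ fun k => (c k).eval₂ (i : A →+* B) T) H

/-- from the surface to the family of rational curves -/
def XST : Prop := ∀ (ι : Type) [Fintype ι] [DecidableEq ι] (S : Set (MvPolynomial ι K)) (d : ℕ)
  (l : Fin (d + 1) × ι → K) (a : ι → K) (H : MvPolynomial (Option (Fin d)) K)
  (Y : ι → MvPolynomial (Option (Fin d)) K) (Λ : LF K ι), 2 ≤ d → HM S l a H Y → GF S Λ →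
  MP_a9d3bd_y.CoreT' S Λ → CoreS S (MP_a9d3bd_h.lin l 0) (aeval (qq a l) (pderiv none H)) Λ

/-- the linear forms -/
def XFor : Prop := ∀ (ι : Type) [Fintype ι] [DecidableEq ι] (S : Set (MvPolynomial ι K)) (d : ℕ),
  MP_a9d3bd_h.Sm S d → ∀ T : Set (ι → K), T.Finite → (∀ p ∈ T, p ≠ 0 ∧ On S p) →
  ∃ l : Fin (d + 1) × ι → K, NZ S l ∧ ∀ p ∈ T, lv l p 0 ≠ 0 ∧
    EtL S (MP_a9d3bd_h.lin l) (ak K ((lv l p 0)⁻¹ • p)).asIdeal

/-- the coordinate ring of the chart -/
def XRg : Prop := ∀ (ι : Type) [Fintype ι] [DecidableEq ι] (S : Set (MvPolynomial ι K)) (d : ℕ)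
  (l : Fin (d + 1) × ι → K), MP_a9d3bd_h.Sm S d → (Ideal.span S).radical.IsPrime → NZ S l →
  ∃ (B : Type) (_ : CommRing B) (_ : IsDomain B) (_ : Algebra K B) (y : ι → B),
    Function.Surjective (aeval y : MvPolynomial ι K →ₐ[K] B) ∧ (∀ G ∈ S, aeval y G = 0) ∧
    aeval y (MP_a9d3bd_h.lin l 0) = 1 ∧
    AlgebraicIndependent K (fun i : Fin d => aeval y (MP_a9d3bd_h.lin l i.succ)) ∧
    ∀ (E : Type) [Field E] [Algebra K E] (σ : ι → E), On S σ → lv l σ 0 = 1 →
      ∃ ξ : B →ₐ[K] E, ∀ b, ξ (y b) = σ b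

/-- finiteness of the projection -/
def XBd : Prop := ∀ (ι : Type) [Fintype ι] [DecidableEq ι] (S : Set (MvPolynomial ι K)) (d : ℕ)
  (l : Fin (d + 1) × ι → K), Homog S → NZ S l → ∀ (B : Type) [CommRing B] [IsDomain B]
  [Algebra K B] (y : ι → B), Function.Surjective (aeval y : MvPolynomial ι K →ₐ[K] B) →
  (∀ G ∈ S, aeval y G = 0) → aeval y (MP_a9d3bd_h.lin l 0) = 1 →
  It K (fun i : Fin d => aeval y (MP_a9d3bd_h.lin l i.succ)) ∧
  (∀ θ ∈ Submodule.span K (Set.range y),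
    Bnd K (fun i : Fin d => aeval y (MP_a9d3bd_h.lin l i.succ)) θ) ∧
  ∀ ξ : B →ₐ[K] K, EtL S (MP_a9d3bd_h.lin l) (ak K fun b => ξ (y b)).asIdeal →
    Ur (fun i : Fin d => aeval y (MP_a9d3bd_h.lin l i.succ)) ξ

/-- the hypersurface model -/
def XHM : Prop := ∀ (ι : Type) [Fintype ι] [DecidableEq ι] (S : Set (MvPolynomial ι K)) (d : ℕ),
  MP_a9d3bd_h.Sm S d → (Ideal.span S).radical.IsPrime → ∀ T : Set (ι → K), T.Finite →
  T.Nonempty → (∀ p ∈ T, p ≠ 0 ∧ On S p) →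
  ∃ (l : Fin (d + 1) × ι → K) (a : ι → K) (H : MvPolynomial (Option (Fin d)) K)
    (Y : ι → MvPolynomial (Option (Fin d)) K), HM S l a H Y ∧ ∀ p ∈ T, lv l p 0 ≠ 0 ∧
      eval ((lv l p 0)⁻¹ • p) (aeval (qq a l) (pderiv none H)) ≠ 0

/-- a Galois cover is separable -/
def XGs : Prop := ∀ (A : Type) [CommRing A] [IsDomain A] [Algebra K A] [Algebra (Polynomial K) A]
  [IsScalarTower K (Polynomial K) A], Gal K A → ∀ a : A, ∃ Φ : Polynomial (Polynomial K),
    Polynomial.aeval a Φ = 0 ∧ Polynomial.aeval a (Polynomial.derivative Φ) ≠ 0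

/-- the components of a smooth variety are disjoint -/
def XUq : Prop := ∀ (ι : Type) [Fintype ι] [DecidableEq ι] (S : Set (MvPolynomial ι K)) (d : ℕ),
  MP_a9d3bd_h.Sm S d → ∀ W ∈ (Ideal.span S).minimalPrimes, ∀ W' ∈ (Ideal.span S).minimalPrimes,
  ∀ p : ι → K, p ≠ 0 → (∀ f ∈ W, eval p f = 0) → (∀ f ∈ W', eval p f = 0) → W = W'

/-- reduction to the components -/
def XCm : Prop := ∀ (ι : Type) [Fintype ι] [DecidableEq ι] (S : Set (MvPolynomial ι K)) (d : ℕ)
  (Λ : LF K ι), MP_a9d3bd_h.Sm S d → GF S Λ → (∀ S' : Set (MvPolynomial ι K),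
    MP_a9d3bd_h.Sm S' d → (Ideal.span S').radical.IsPrime → GF S' Λ → CoreP S' Λ) → CoreP S Λ

end Pool.Agent.MP_a9d3bd_gx
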